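import Pool.Agent.Y742.GG.Loc
import Pool.Agent.Y720.MZ.Sep
import Pool.Agent.Y720.WA.Sing

/-!
# Moving a point along a genus one fibration (helper742)
-/

set_option autoImplicit false

open Polynomial WeierstrassCurve Pool.Agent.Y720.MZ Filter Topology

namespace Pool.Agent.Y742.GG

/-- the data of a family of double covers of the line through the points of a variety -/
structure Mv (K : Type*) [Field K] (N : ℕ) where
  (w q₁ q₂ q₃ q₄ : K)
  (A : Fin N → K[X])
  (A' : Fin N → K[X])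
  (B B' : K[X])
  (d : Fin N → K)

/-- the points of the double cover are points of the hypersurface `F = 0`, and the tangent vector
at the point `(0, w)` is `d` -/
structure Mv.Ok {K : Type*} [Field K] {N : ℕ} (μ : Mv K N) {k : Type*} [CommRing k] (cK : k →+* K)
    (F : MvPolynomial (Fin N) k) (x : Fin N → K) : Prop where
  hw : μ.w ≠ 0
  hB : μ.B.coeff 0 + μ.B'.coeff 0 * μ.w ≠ 0
  base : ∀ l, (μ.A l).coeff 0 + (μ.A' l).coeff 0 * μ.w =
    x l * (μ.B.coeff 0 + μ.B'.coeff 0 * μ.w)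
  star : (X ^ 2 - C (qpol (μ.w ^ 2) μ.q₁ μ.q₂ μ.q₃ μ.q₄)) ∣
    hm ((C : K[X] →+* K[X][X]).comp ((C : K →+* K[X]).comp cK)) F
      (fun l => C (μ.A l) + C (μ.A' l) * X) (C μ.B + C μ.B' * X)
  der : ∀ l, 2 * μ.w * ((μ.B.coeff 0 + μ.B'.coeff 0 * μ.w) * μ.d l) = 2 * μ.w *
    ((μ.A l).coeff 1 + (μ.A' l).coeff 1 * μ.w - x l * (μ.B.coeff 1 + μ.B'.coeff 1 * μ.w)) +
    ((μ.A' l).coeff 0 - x l * μ.B'.coeff 0) * μ.q₁

section seq

variable {M L : Type*} [Field M] [NontriviallyNormedField L] (σ : M →+* L)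

lemma tendsto_eval (P : M[X]) {s : ℕ → M} (hs : Tendsto (fun n => σ (s n)) atTop (𝓝 0)) :
    Tendsto (fun n => σ (P.eval (s n))) atTop (𝓝 (σ (P.coeff 0))) := by
  have h1 : ∀ n, σ (P.eval (s n)) = (P.map σ).eval (σ (s n)) := by
    intro n; rw [eval_map, ← Polynomial.eval₂_at_apply]
  have h2 := ((P.map σ).continuous.tendsto 0).comp hs
  have h3 : (P.map σ).eval 0 = σ (P.coeff 0) := by
    rw [← coeff_zero_eq_eval_zero, coeff_map]
  rw [h3] at h2
  refine h2.congr fun n => ?_
  rw [Function.comp_apply, h1]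

end seq

section move

variable {k K M O L : Type*} [CommRing k] [Field K] [Field M] [CharZero M] [DecidableEq M]
  [CommRing O] {N : ℕ} [NontriviallyNormedField L] [ProperSpace L]

/-- **Moves.** -/
theorem move (σ : M →+* L) (hσ : DenseRange σ) {cK : k →+* K} {cst : k →+* O} {ι : O →+* K}
    (hι : Function.Injective ι) (hc : ι.comp cst = cK) {ev : O →+* M}
    {F : MvPolynomial (Fin N) k} {μ : Mv K N} {x : Fin N → K} (H : μ.Ok cK F x)
    {w q₁ q₂ q₃ q₄ : O} (hw : ι w = μ.w) (h₁ : ι q₁ = μ.q₁) (h₂ : ι q₂ = μ.q₂)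
    (h₃ : ι q₃ = μ.q₃) (h₄ : ι q₄ = μ.q₄) {a a' : Fin N → O[X]} {b b' : O[X]}
    (hA : ∀ l, (a l).map ι = μ.A l) (hA' : ∀ l, (a' l).map ι = μ.A' l) (hB : b.map ι = μ.B)
    (hB' : b'.map ι = μ.B')
    {d y : Fin N → O} (hd : ∀ l, ι (d l) = μ.d l) (hy : ∀ l, ι (y l) = x l)
    (hw0 : ev w ≠ 0) (hb0 : ev (b.coeff 0 + b'.coeff 0 * w) ≠ 0)
    (good : dc (ev w ^ 2) (ev q₁) (ev q₂) (ev q₃) (ev q₄) ≠ 0 → ∀ h, ∀ n : ℕ, n ≠ 0 →
      n • (.some (xs (ev w) (ev q₁) (ev q₂)) (ys (ev w) (ev q₁) (ev q₂) (ev q₃)) h :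
        Pt (ev q₂) (rb (ev w) (ev q₁) (ev q₃) (ev q₄))
          (rc (ev w) (ev q₁) (ev q₂) (ev q₃) (ev q₄))) ≠ 0) :
    ∃ (x' : ℕ → Fin N → M) (s : ℕ → M), (∀ n, s n ≠ 0) ∧
      Tendsto (fun n => σ (s n)) atTop (𝓝 0) ∧
      (∀ᶠ n in atTop, MvPolynomial.eval₂ (ev.comp cst) (x' n) F = 0) ∧
      ∀ l, Tendsto (fun n => σ ((x' n l - ev (y l)) / s n)) atTop (𝓝 (σ (ev (d l)))) := by
  have : CharZero L := charZero_of_injective_ringHom σ.injective
  -- points near `(0, w)`
  have hpt : ∀ n : ℕ, ∃ t Y : M, t ≠ 0 ∧ ‖σ t‖ < 1 / ((n : ℝ) + 1) ∧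
      ‖σ (Y - ev w)‖ < 1 / ((n : ℝ) + 1) ∧
      Y ^ 2 = ev w ^ 2 + ev q₁ * t + ev q₂ * t ^ 2 + ev q₃ * t ^ 3 + ev q₄ * t ^ 4 := by
    intro n
    have hε : (0 : ℝ) < 1 / ((n : ℝ) + 1) := by positivity
    by_cases hdc : dc (ev w ^ 2) (ev q₁) (ev q₂) (ev q₃) (ev q₄) = 0
    · refine quartic_sing σ hσ hw0 ?_ hε
      rintro ⟨hs, hdeg⟩
      exact dc_ne_zero hs hdeg hdc
    · refine quartic_dense σ hw0 ?_ (good hdc) hε
      rw [← dq_eq, dq] at hdc
      exact hdc
  choose s Y hs0 hs hY hq using hpt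
  have hs' : Tendsto (fun n => σ (s n)) atTop (𝓝 0) :=
    squeeze_zero_norm (fun n => (hs n).le) tendsto_one_div_add_atTop_nhds_zero_nat
  have hY' : Tendsto (fun n => σ (Y n)) atTop (𝓝 (σ (ev w))) := by
    have h1 : Tendsto (fun n => σ (Y n - ev w)) atTop (𝓝 0) :=
      squeeze_zero_norm (fun n => (hY n).le) tendsto_one_div_add_atTop_nhds_zero_nat
    have h2 := h1.add_const (σ (ev w))
    rw [zero_add] at h2
    refine h2.congr fun n => ?_
    rw [map_sub, sub_add_cancel]
  have hbl : Tendsto (fun n => σ ((b.map ev).eval (s n) + (b'.map ev).eval (s n) * Y n)) atTop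
      (𝓝 (σ (ev (b.coeff 0 + b'.coeff 0 * w)))) := by
    have h1 := (tendsto_eval σ (b.map ev) hs').add ((tendsto_eval σ (b'.map ev) hs').mul hY')
    rw [coeff_map, coeff_map] at h1
    have e : σ (ev (b.coeff 0 + b'.coeff 0 * w)) =
        σ (ev (b.coeff 0)) + σ (ev (b'.coeff 0)) * σ (ev w) := by
      simp only [map_add, map_mul]
    rw [e]
    refine h1.congr fun n => ?_
    rw [map_add, map_mul]
  have hσb : σ (ev (b.coeff 0 + b'.coeff 0 * w)) ≠ 0 := (map_ne_zero σ).2 hb0
  have hbne : ∀ᶠ n in atTop, (b.map ev).eval (s n) + (b'.map ev).eval (s n) * Y n ≠ 0 := by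
    refine (hbl.eventually_ne hσb).mono fun n hn h0 => hn ?_
    rw [h0, map_zero]
  have hσw : σ (ev w) ≠ 0 := (map_ne_zero σ).2 hw0
  have hYw : Tendsto (fun n => σ (Y n + ev w)) atTop (𝓝 (2 * σ (ev w))) := by
    have := hY'.add_const (σ (ev w))
    rw [← two_mul] at this
    refine this.congr fun n => ?_
    rw [map_add]
  have hYne : ∀ᶠ n in atTop, Y n + ev w ≠ 0 := by
    refine (hYw.eventually_ne (mul_ne_zero two_ne_zero hσw)).mono fun n hn h0 => hn ?_
    rw [h0, map_zero]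
  refine ⟨fun n l => (((a l).map ev).eval (s n) + ((a' l).map ev).eval (s n) * Y n) /
    ((b.map ev).eval (s n) + (b'.map ev).eval (s n) * Y n), s, hs0, hs', ?_, ?_⟩
  · refine hbne.mono fun n hn => ?_
    refine new_point hι hc H.star (q' := C (w ^ 2) + C q₁ * X + C q₂ * X ^ 2 +
      C q₃ * X ^ 3 + C q₄ * X ^ 4) ?_ hB hB' hA hA' ?_ hn
    · simp [qpol, hw, h₁, h₂, h₃, h₄]
    · rw [hq n]; simp
  · intro l
    -- the equations at the point
    have base : ev ((a l).coeff 0) + ev ((a' l).coeff 0) * ev w =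
        ev (y l) * (ev (b.coeff 0) + ev (b'.coeff 0) * ev w) := by
      have h1 : (a l).coeff 0 + (a' l).coeff 0 * w = y l * (b.coeff 0 + b'.coeff 0 * w) := by
        apply hι
        have := H.base l
        rw [← hA, ← hA', ← hB, ← hB', coeff_map, coeff_map, coeff_map, coeff_map, ← hw,
          ← hy] at this
        simpa only [map_add, map_mul] using this
      have h2 := congrArg ev h1
      simpa only [map_add, map_mul] using h2
    have der : 2 * ev w * ((ev (b.coeff 0) + ev (b'.coeff 0) * ev w) * ev (d l)) =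
        2 * ev w * (ev ((a l).coeff 1) + ev ((a' l).coeff 1) * ev w - ev (y l) *
        (ev (b.coeff 1) + ev (b'.coeff 1) * ev w)) +
        (ev ((a' l).coeff 0) - ev (y l) * ev (b'.coeff 0)) * ev q₁ := by
      have h1 : 2 * w * ((b.coeff 0 + b'.coeff 0 * w) * d l) = 2 * w * ((a l).coeff 1 +
          (a' l).coeff 1 * w - y l * (b.coeff 1 + b'.coeff 1 * w)) +
          ((a' l).coeff 0 - y l * b'.coeff 0) * q₁ := by
        apply hι
        have := H.der l
        rw [← hA, ← hA', ← hB, ← hB', coeff_map, coeff_map, coeff_map, coeff_map, coeff_map,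
          coeff_map, coeff_map, ← hw, ← hy, ← hd, ← h₁] at this
        simpa only [map_add, map_sub, map_mul, map_ofNat] using this
      have h2 := congrArg ev h1
      simpa only [map_add, map_sub, map_mul, map_ofNat] using h2
    -- the difference quotient
    set g : ℕ → M := fun n => ev q₁ + ev q₂ * s n + ev q₃ * s n ^ 2 + ev q₄ * s n ^ 3 with hg
    have hdq : ∀ᶠ n in atTop, (σ (ev ((a' l).coeff 0) - ev (y l) * ev (b'.coeff 0)) *
        σ (g n) / σ (Y n + ev w) +
        (σ (((a l).map ev).divX.eval (s n)) + σ (((a' l).map ev).divX.eval (s n)) * σ (Y n)) -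
        σ (ev (y l)) * (σ ((b.map ev).divX.eval (s n)) +
          σ ((b'.map ev).divX.eval (s n)) * σ (Y n))) /
        σ ((b.map ev).eval (s n) + (b'.map ev).eval (s n) * Y n) =
        σ (((((a l).map ev).eval (s n) + ((a' l).map ev).eval (s n) * Y n) /
          ((b.map ev).eval (s n) + (b'.map ev).eval (s n) * Y n) - ev (y l)) / s n) := by
      filter_upwards [hbne, hYne] with n hn1 hn2
      have e1 : ∀ P : M[X], P.eval (s n) = P.divX.eval (s n) * s n + P.coeff 0 := by
        intro P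
        conv_lhs => rw [← divX_mul_X_add P]
        simp
      have hs0n := hs0 n
      have key : ((ev ((a' l).coeff 0) - ev (y l) * ev (b'.coeff 0)) * g n / (Y n + ev w) +
        ((((a l).map ev).divX.eval (s n)) + (((a' l).map ev).divX.eval (s n)) * (Y n)) -
        (ev (y l)) * (((b.map ev).divX.eval (s n)) + ((b'.map ev).divX.eval (s n)) * Y n)) /
        ((b.map ev).eval (s n) + (b'.map ev).eval (s n) * Y n) =
        (((((a l).map ev).eval (s n) + ((a' l).map ev).eval (s n) * Y n) /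
          ((b.map ev).eval (s n) + (b'.map ev).eval (s n) * Y n) - ev (y l)) / s n) := by
        rw [div_sub' hn1, div_div, div_eq_div_iff hn1 (mul_ne_zero hn1 hs0n)]
        have e2 : (ev ((a' l).coeff 0) - ev (y l) * ev (b'.coeff 0)) * g n / (Y n + ev w) * s n =
            (ev ((a' l).coeff 0) - ev (y l) * ev (b'.coeff 0)) * (Y n - ev w) := by
          rw [div_mul_eq_mul_div, div_eq_iff hn2, hg]
          linear_combination (-(ev ((a' l).coeff 0) - ev (y l) * ev (b'.coeff 0))) * hq n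
        have ea := e1 ((a l).map ev)
        have ea' := e1 ((a' l).map ev)
        have eb := e1 (b.map ev)
        have eb' := e1 (b'.map ev)
        rw [coeff_map] at ea ea' eb eb'
        generalize (ev ((a' l).coeff 0) - ev (y l) * ev (b'.coeff 0)) * g n / (Y n + ev w) = Z
          at e2 ⊢
        rw [show ((Z + ((((a l).map ev).divX.eval (s n)) +
          (((a' l).map ev).divX.eval (s n)) * (Y n)) -
          (ev (y l)) * (((b.map ev).divX.eval (s n)) + ((b'.map ev).divX.eval (s n)) * Y n)) *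
          (((b.map ev).eval (s n) + (b'.map ev).eval (s n) * Y n) * s n)) =
          (Z * s n + ((((a l).map ev).divX.eval (s n) * s n) +
          (((a' l).map ev).divX.eval (s n) * s n) * (Y n)) -
          (ev (y l)) * (((b.map ev).divX.eval (s n) * s n) +
          ((b'.map ev).divX.eval (s n) * s n) * Y n)) *
          ((b.map ev).eval (s n) + (b'.map ev).eval (s n) * Y n) by ring, e2,
          show ((a l).map ev).divX.eval (s n) * s n = ((a l).map ev).eval (s n) -
            ev ((a l).coeff 0) by rw [ea]; ring,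
          show ((a' l).map ev).divX.eval (s n) * s n = ((a' l).map ev).eval (s n) -
            ev ((a' l).coeff 0) by rw [ea']; ring,
          show (b.map ev).divX.eval (s n) * s n = (b.map ev).eval (s n) -
            ev (b.coeff 0) by rw [eb]; ring,
          show (b'.map ev).divX.eval (s n) * s n = (b'.map ev).eval (s n) -
            ev (b'.coeff 0) by rw [eb']; ring]
        linear_combination (-((b.map ev).eval (s n) + (b'.map ev).eval (s n) * Y n)) * base
      rw [← key]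
      simp only [map_div₀, map_add, map_sub, map_mul]
    refine Tendsto.congr' hdq ?_
    have t1 := tendsto_eval σ (((a l).map ev).divX) hs'
    have t2 := tendsto_eval σ (((a' l).map ev).divX) hs'
    have t3 := tendsto_eval σ ((b.map ev).divX) hs'
    have t3' := tendsto_eval σ ((b'.map ev).divX) hs'
    rw [coeff_divX, coeff_map, zero_add] at t1 t2 t3 t3'
    have tg : Tendsto (fun n => σ (g n)) atTop (𝓝 (σ (ev q₁))) := by
      have h1 : Tendsto (fun n => σ (ev q₁) + σ (ev q₂) * σ (s n) +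
          σ (ev q₃) * σ (s n) ^ 2 + σ (ev q₄) * σ (s n) ^ 3) atTop
          (𝓝 (σ (ev q₁) + σ (ev q₂) * 0 + σ (ev q₃) * 0 ^ 2 + σ (ev q₄) * 0 ^ 3)) :=
        ((tendsto_const_nhds.add (hs'.const_mul _)).add ((hs'.pow 2).const_mul _)).add
          ((hs'.pow 3).const_mul _)
      have e : σ (ev q₁) + σ (ev q₂) * 0 + σ (ev q₃) * 0 ^ 2 + σ (ev q₄) * 0 ^ 3 =
          σ (ev q₁) := by ring
      rw [e] at h1
      refine h1.congr fun n => ?_
      rw [hg]
      simp only [map_add, map_mul, map_pow]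
    have t5 := (((((tg.const_mul (σ (ev ((a' l).coeff 0) - ev (y l) * ev (b'.coeff 0)))).div hYw
      (mul_ne_zero two_ne_zero hσw)).add (t1.add (t2.mul hY'))).sub
      ((t3.add (t3'.mul hY')).const_mul (σ (ev (y l)))))).div hbl hσb
    have e : σ (ev (d l)) = (σ (ev ((a' l).coeff 0) - ev (y l) * ev (b'.coeff 0)) * σ (ev q₁) /
        (2 * σ (ev w)) + (σ (ev ((a l).coeff 1)) + σ (ev ((a' l).coeff 1)) * σ (ev w)) -
        σ (ev (y l)) * (σ (ev (b.coeff 1)) + σ (ev (b'.coeff 1)) * σ (ev w))) /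
        σ (ev (b.coeff 0 + b'.coeff 0 * w)) := by
      rw [eq_div_iff hσb]
      have h1 := congrArg σ der
      simp only [map_add, map_sub, map_mul, map_ofNat] at h1 ⊢
      apply mul_left_cancel₀ (mul_ne_zero two_ne_zero hσw)
      have h2 : 2 * σ (ev w) * ((σ (ev ((a' l).coeff 0)) - σ (ev (y l)) * σ (ev (b'.coeff 0))) *
        σ (ev q₁) / (2 * σ (ev w)) + (σ (ev ((a l).coeff 1)) +
        σ (ev ((a' l).coeff 1)) * σ (ev w)) -
        σ (ev (y l)) * (σ (ev (b.coeff 1)) + σ (ev (b'.coeff 1)) * σ (ev w))) =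
        (σ (ev ((a' l).coeff 0)) - σ (ev (y l)) * σ (ev (b'.coeff 0))) * σ (ev q₁) +
        2 * σ (ev w) * ((σ (ev ((a l).coeff 1)) +
        σ (ev ((a' l).coeff 1)) * σ (ev w)) -
        σ (ev (y l)) * (σ (ev (b.coeff 1)) + σ (ev (b'.coeff 1)) * σ (ev w))) := by
        field_simp
        ring
      rw [h2]
      linear_combination h1
    rw [e]
    exact t5

end move

end Pool.Agent.Y742.GG
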