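import Pool.Agent.Y742.GG.Flow
import Pool.Agent.Y742.GG.Move

/-!
# Double covers of the line with at most four branch points (helper742)
-/

set_option autoImplicit false
set_option linter.unusedSectionVars false

open Polynomial Pool.Agent.Y720.MZ

namespace Pool.Agent.Y742.GG

section basic

variable {L K : Type*} [Field L] [Field K] [Algebra L K] {t w : K} {Q : L[X]}

/-- the polynomial `P (t + s)` -/
noncomputable def th (t : K) : L[X] →+* K[X] :=
  ((taylorAlgHom t : K[X] →ₐ[K] K[X]) : K[X] →+* K[X]).comp (mapRingHom (algebraMap L K))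

lemma hasse_map (n : ℕ) (P : L[X]) :
    hasseDeriv n (P.map (algebraMap L K)) = (hasseDeriv n P).map (algebraMap L K) := by
  ext m
  simp [hasseDeriv_coeff]

lemma th_coeff (P : L[X]) (n : ℕ) : (th t P).coeff n = aeval t (hasseDeriv n P) := by
  have : th t P = taylor t (P.map (algebraMap L K)) := rfl
  rw [this, taylor_coeff, hasse_map, eval_map_algebraMap]

lemma th_coeff_zero (P : L[X]) : (th t P).coeff 0 = aeval t P := by
  rw [th_coeff, hasseDeriv_zero, LinearMap.id_apply]

lemma th_coeff_one (P : L[X]) : (th t P).coeff 1 = aeval t (derivative P) := by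
  rw [th_coeff, hasseDeriv_one]

lemma th_C (a : L) : th t (C a) = C (algebraMap L K a) := by
  ext n
  rw [th_coeff]
  cases n with
  | zero => simp
  | succ n => simp [hasseDeriv_C]

lemma sq_eq (hQ : ¬ ∃ (c : L) (R : L[X]), Q = C c * R ^ 2) {a a' : L[X]}
    (h : a ^ 2 = a' ^ 2 * Q) : a = 0 ∧ a' = 0 := by
  by_cases ha' : a' = 0
  · subst ha'
    refine ⟨?_, rfl⟩
    rw [zero_pow two_ne_zero, zero_mul] at h
    exact pow_eq_zero_iff two_ne_zero |>.1 h
  · exfalso
    have h1 : a' ^ 2 ∣ a ^ 2 := ⟨Q, h⟩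
    rw [IsIntegrallyClosed.pow_dvd_pow_iff two_ne_zero] at h1
    obtain ⟨R, rfl⟩ := h1
    apply hQ
    refine ⟨1, R, ?_⟩
    rw [C_1, one_mul]
    apply mul_left_cancel₀ (pow_ne_zero 2 ha')
    rw [← h]; ring

lemma pair_zero (ht : Transcendental L t) (hw : w ^ 2 = aeval t Q)
    (hQ : ¬ ∃ (c : L) (R : L[X]), Q = C c * R ^ 2) {a a' : L[X]}
    (h : aeval t a + aeval t a' * w = 0) : a = 0 ∧ a' = 0 := by
  apply sq_eq hQ
  have h1 : aeval t (a ^ 2 - a' ^ 2 * Q) = 0 := by
    rw [map_sub, map_mul, map_pow, map_pow, ← hw]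
    linear_combination (aeval t a - aeval t a' * w) * h
  exact sub_eq_zero.1 (transcendental_iff.1 ht _ h1)

/-- the elements of the function field of a double cover of the line -/
theorem rep (ht : Transcendental L t) (hw : w ^ 2 = aeval t Q)
    (hQ : ¬ ∃ (c : L) (R : L[X]), Q = C c * R ^ 2)
    (hgen : IntermediateField.adjoin L {t, w} = ⊤) (f : K) :
    ∃ a a' b : L[X], b ≠ 0 ∧ f * aeval t b = aeval t a + aeval t a' * w := by
  have hf : f ∈ IntermediateField.adjoin L {t, w} := by rw [hgen]; trivial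
  induction hf using IntermediateField.adjoin_induction with
  | mem z hz =>
    rcases hz with rfl | hz
    · exact ⟨X, 0, 1, one_ne_zero, by simp⟩
    · rw [Set.mem_singleton_iff] at hz
      subst hz
      exact ⟨0, 1, 1, one_ne_zero, by simp⟩
  | algebraMap c => exact ⟨C c, 0, 1, one_ne_zero, by simp⟩
  | add y z _ _ hy hz =>
    obtain ⟨a, a', b, hb, h1⟩ := hy
    obtain ⟨c, c', d, hd, h2⟩ := hz
    refine ⟨a * d + c * b, a' * d + c' * b, b * d, mul_ne_zero hb hd, ?_⟩
    simp only [map_mul, map_add]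
    linear_combination aeval t d * h1 + aeval t b * h2
  | inv y _ hy =>
    obtain ⟨a, a', b, hb, h1⟩ := hy
    by_cases hy0 : y = 0
    · subst hy0
      exact ⟨0, 0, 1, one_ne_zero, by simp⟩
    · have hb0 : aeval t b ≠ 0 := fun h => hb (transcendental_iff.1 ht _ h)
      have hne : a ^ 2 - a' ^ 2 * Q ≠ 0 := by
        intro h0
        obtain ⟨rfl, rfl⟩ := sq_eq hQ (sub_eq_zero.1 h0)
        rw [map_zero, zero_mul, add_zero] at h1
        exact mul_ne_zero hy0 hb0 h1
      refine ⟨b * a, -(b * a'), a ^ 2 - a' ^ 2 * Q, hne, ?_⟩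
      simp only [map_mul, map_sub, map_neg, map_pow, ← hw]
      have h2 : y⁻¹ * (aeval t a + aeval t a' * w) = aeval t b := by
        rw [← h1, ← mul_assoc, inv_mul_cancel₀ hy0, one_mul]
      linear_combination (aeval t a - aeval t a' * w) * h2
  | mul y z _ _ hy hz =>
    obtain ⟨a, a', b, hb, h1⟩ := hy
    obtain ⟨c, c', d, hd, h2⟩ := hz
    refine ⟨a * c + a' * c' * Q, a * c' + a' * c, b * d, mul_ne_zero hb hd, ?_⟩
    simp only [map_mul, map_add, ← hw]
    linear_combination (z * aeval t d) * h1 + (aeval t a + aeval t a' * w) * h2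

/-- polynomials which vanish at the generic point -/
theorem dvd_of_zero (ht : Transcendental L t) (hw : w ^ 2 = aeval t Q)
    (hQ : ¬ ∃ (c : L) (R : L[X]), Q = C c * R ^ 2) {P : L[X][X]}
    (h : P.eval₂ ((aeval t : L[X] →ₐ[L] K) : L[X] →+* K) w = 0) : (X ^ 2 - C Q) ∣ P := by
  have hmon : (X ^ 2 - C Q : L[X][X]).Monic := monic_X_pow_sub_C _ two_ne_zero
  rw [← modByMonic_eq_zero_iff_dvd hmon]
  have hdeg : (P %ₘ (X ^ 2 - C Q)).natDegree ≤ 1 := by
    have h1 : (X ^ 2 - C Q : L[X][X]).natDegree = 2 := natDegree_X_pow_sub_C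
    have h2 := natDegree_modByMonic_lt P hmon (by
      intro h0; rw [h0, natDegree_one] at h1; omega)
    omega
  obtain ⟨r1, r0, hr⟩ := exists_eq_X_add_C_of_natDegree_le_one hdeg
  have h1 := modByMonic_add_div P (X ^ 2 - C Q)
  have h2 := congrArg (eval₂ ((aeval t : L[X] →ₐ[L] K) : L[X] →+* K) w) h1
  rw [eval₂_add, eval₂_mul, h, hr] at h2
  simp only [eval₂_add, eval₂_mul, eval₂_sub, eval₂_pow, eval₂_X, eval₂_C, hw] at h2
  have h3 : aeval t r0 + aeval t r1 * w = 0 := by
    have : ((aeval t : L[X] →ₐ[L] K) : L[X] →+* K) Q = aeval t Q := rfl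
    rw [this, sub_self, zero_mul, add_zero] at h2
    rw [← h2]
    show _ = aeval t r1 * w + aeval t r0
    ring
  obtain ⟨h4, h5⟩ := pair_zero ht hw hQ h3
  rw [hr, h4, h5]
  simp

end basic

section der

variable {Ω K : Type*} [Field Ω] [Field K] [Algebra Ω K] {L : IntermediateField Ω K} {t w : K}
  {Q : L[X]}

lemma der_aeval (D : Derivation Ω K K) (hD : ∀ a ∈ L, D a = 0) (P : L[X]) :
    D (aeval t P) = aeval t (derivative P) * D t := by
  induction P using Polynomial.induction_on' with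
  | add p q hp hq => simp only [map_add, hp, hq, add_mul]
  | monomial n a =>
    have h1 : D (algebraMap L K a) = 0 := hD _ a.2
    rw [aeval_monomial, derivative_monomial, aeval_monomial, Derivation.leibniz, h1, smul_zero,
      add_zero, Derivation.leibniz_pow]
    simp only [smul_eq_mul, nsmul_eq_mul, map_mul, map_natCast]
    ring

variable [CharZero K]

lemma der_w (hw : w ^ 2 = aeval t Q) (D : Derivation Ω K K) (hD : ∀ a ∈ L, D a = 0) :
    2 * w * D w = aeval t (derivative Q) * D t := by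
  rw [← der_aeval D hD, ← hw, Derivation.leibniz_pow]
  simp only [smul_eq_mul, nsmul_eq_mul]
  push_cast
  ring

lemma w_ne_zero (ht : Transcendental L t) (hw : w ^ 2 = aeval t Q)
    (hQ : ¬ ∃ (c : L) (R : L[X]), Q = C c * R ^ 2) : w ≠ 0 := by
  rintro rfl
  apply hQ
  refine ⟨0, 0, ?_⟩
  rw [zero_pow two_ne_zero] at hw
  rw [transcendental_iff.1 ht _ hw.symm]
  simp

/-- a derivation which kills `L` and `t` is zero -/
lemma der_zero (ht : Transcendental L t) (hw : w ^ 2 = aeval t Q)
    (hQ : ¬ ∃ (c : L) (R : L[X]), Q = C c * R ^ 2)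
    (hgen : IntermediateField.adjoin L {t, w} = ⊤) (D : Derivation Ω K K)
    (hD : ∀ a ∈ L, D a = 0) (hDt : D t = 0) : D = 0 := by
  have hDw : D w = 0 := by
    have h1 := der_w hw D hD
    rw [hDt, mul_zero] at h1
    exact (mul_eq_zero.1 h1).resolve_left (mul_ne_zero two_ne_zero (w_ne_zero ht hw hQ))
  ext f
  obtain ⟨a, a', b, hb, h1⟩ := rep ht hw hQ hgen f
  have hb0 : aeval t b ≠ 0 := fun h => hb (transcendental_iff.1 ht _ h)
  have h2 := congrArg D h1
  simp only [map_add, Derivation.leibniz, der_aeval D hD, hDt, hDw, mul_zero, smul_eq_mul,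
    zero_add, add_zero, smul_zero] at h2
  exact (mul_eq_zero.1 h2).resolve_left hb0

lemma der_q (D : Derivation Ω K K) (hD : ∀ a ∈ L, D a = 0) (hDt : D t = 1) (n : ℕ) :
    D ((th t Q).coeff n) = (n + 1) * (th t Q).coeff (n + 1) := by
  rw [th_coeff, th_coeff, der_aeval D hD, hDt, mul_one, ← hasseDeriv_one, ← LinearMap.comp_apply,
    hasseDeriv_comp, LinearMap.smul_apply, map_nsmul, nsmul_eq_mul, Nat.choose_one_right,
    Nat.add_comm 1 n]
  push_cast
  ring

/-- **The double cover gives a move.** -/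
theorem inst [DecidableEq K] {N : ℕ} (x : Fin N → K) (ht : Transcendental L t)
    (hw : w ^ 2 = aeval t Q) (hdeg : Q.natDegree ≤ 4)
    (hQ : ¬ ∃ (c : L) (R : L[X]), Q = C c * R ^ 2)
    (hgen : IntermediateField.adjoin L {t, w} = ⊤) (D : Derivation Ω K K)
    (hD : ∀ a ∈ L, D a = 0) (hDt : D t = 1) :
    ∃ μ : Mv K N, (∀ l, μ.d l = D (x l)) ∧ (∀ (k : Type) [Field k] (c : k →+* Ω)
      (F : MvPolynomial (Fin N) k), MvPolynomial.eval₂ ((algebraMap Ω K).comp c) x F = 0 →
        μ.Ok ((algebraMap Ω K).comp c) F x) ∧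
      (dc (μ.w ^ 2) μ.q₁ μ.q₂ μ.q₃ μ.q₄ ≠ 0 → ∀ h, ∀ n : ℕ, n ≠ 0 →
        n • (.some (xs μ.w μ.q₁ μ.q₂) (ys μ.w μ.q₁ μ.q₂ μ.q₃) h :
          Pt μ.q₂ (rb μ.w μ.q₁ μ.q₃ μ.q₄) (rc μ.w μ.q₁ μ.q₂ μ.q₃ μ.q₄)) ≠ 0) := by
  classical
  have hw0 := w_ne_zero ht hw hQ
  -- a common denominator
  choose a a' b hb hrep using fun l => rep ht hw hQ hgen (x l)
  set B : L[X] := ∏ l, b l with hB
  have hB0 : B ≠ 0 := Finset.prod_ne_zero_iff.2 fun l _ => hb l
  have hBt : aeval t B ≠ 0 := fun h => hB0 (transcendental_iff.1 ht _ h)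
  set A : Fin N → L[X] := fun l => a l * ∏ j ∈ Finset.univ.erase l, b j with hA
  set A' : Fin N → L[X] := fun l => a' l * ∏ j ∈ Finset.univ.erase l, b j with hA'
  have hx : ∀ l, aeval t (A l) + aeval t (A' l) * w = x l * aeval t B := by
    intro l
    rw [hB, ← Finset.mul_prod_erase _ _ (Finset.mem_univ l), hA, hA']
    simp only [map_mul]
    linear_combination (-aeval t (∏ j ∈ Finset.univ.erase l, b j)) * hrep l
  have hq0 : (th t Q).coeff 0 = w ^ 2 := by rw [th_coeff_zero, hw]
  have hq : th t Q = qpol (w ^ 2) ((th t Q).coeff 1) ((th t Q).coeff 2) ((th t Q).coeff 3)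
      ((th t Q).coeff 4) := by
    have h1 : (th t Q).natDegree ≤ 4 := by
      have : th t Q = taylor t (Q.map (algebraMap L K)) := rfl
      rw [this, natDegree_taylor]
      exact natDegree_map_le.trans hdeg
    conv_lhs => rw [as_sum_range_C_mul_X_pow' (th t Q) (n := 5) (by omega)]
    simp only [Finset.sum_range_succ, Finset.sum_range_zero, qpol, hq0, pow_zero, mul_one, pow_one,
      zero_add]
  refine ⟨⟨w, (th t Q).coeff 1, (th t Q).coeff 2, (th t Q).coeff 3, (th t Q).coeff 4,
    fun l => th t (A l), fun l => th t (A' l), th t B, 0, fun l => D (x l)⟩, fun l => rfl, ?_, ?_⟩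
  · intro k _ c F hF
    refine ⟨hw0, ?_, ?_, ?_, ?_⟩
    · show (th t B).coeff 0 + (0 : K[X]).coeff 0 * w ≠ 0
      rw [th_coeff_zero, coeff_zero, zero_mul, add_zero]; exact hBt
    · intro l
      show (th t (A l)).coeff 0 + (th t (A' l)).coeff 0 * w = x l * ((th t B).coeff 0 +
        (0 : K[X]).coeff 0 * w)
      rw [th_coeff_zero, th_coeff_zero, th_coeff_zero, hx, coeff_zero, zero_mul, add_zero]
    · show (X ^ 2 - C (qpol (w ^ 2) ((th t Q).coeff 1) ((th t Q).coeff 2) ((th t Q).coeff 3)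
        ((th t Q).coeff 4))) ∣ hm _ F (fun l => C (th t (A l)) + C (th t (A' l)) * X)
          (C (th t B) + C 0 * X)
      rw [← hq, C_0, zero_mul, add_zero]
      -- the polynomial over `L`
      set cL : k →+* L := (algebraMap Ω L).comp c with hcL
      set P : L[X][X] := hm ((C : L[X] →+* L[X][X]).comp ((C : L →+* L[X]).comp cL)) F
        (fun l => C (A l) + C (A' l) * X) (C B) with hP
      have hdvd : (X ^ 2 - C Q) ∣ P := by
        apply dvd_of_zero ht hw hQ
        have h1 := hm_map (eval₂RingHom ((aeval t : L[X] →ₐ[L] K) : L[X] →+* K) w)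
          ((C : L[X] →+* L[X][X]).comp ((C : L →+* L[X]).comp cL)) F
          (fun l => C (A l) + C (A' l) * X) (C B)
        rw [← hP, coe_eval₂RingHom] at h1
        rw [h1, hm_eq (y := x), mul_eq_zero]
        · right
          have e : (eval₂RingHom ((aeval t : L[X] →ₐ[L] K) : L[X] →+* K) w).comp
              ((C : L[X] →+* L[X][X]).comp ((C : L →+* L[X]).comp cL)) =
              (algebraMap Ω K).comp c := by
            ext z
            simp [hcL]
          rw [e]
          exact hF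
        · intro l
          simp only [eval₂_add, eval₂_mul, eval₂_C, eval₂_X]
          exact hx l
      have hmap := _root_.map_dvd (mapRingHom (th t : L[X] →+* K[X])) hdvd
      have e1 : mapRingHom (th t : L[X] →+* K[X]) (X ^ 2 - C Q) = X ^ 2 - C (th t Q) := by
        simp
      have e2 : mapRingHom (th t : L[X] →+* K[X]) P =
          hm ((C : K[X] →+* K[X][X]).comp ((C : K →+* K[X]).comp ((algebraMap Ω K).comp c))) F
          (fun l => C (th t (A l)) + C (th t (A' l)) * X) (C (th t B)) := by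
        rw [hP, hm_map]
        congr 1
        · ext z : 1
          simp only [RingHom.comp_apply, coe_mapRingHom, map_C, th_C, hcL]
          rfl
        · funext l
          simp
        · simp
      rw [e1, e2] at hmap
      exact hmap
    · intro l
      show 2 * w * (((th t B).coeff 0 + (0 : K[X]).coeff 0 * w) * D (x l)) = 2 * w *
        ((th t (A l)).coeff 1 + (th t (A' l)).coeff 1 * w - x l * ((th t B).coeff 1 +
        (0 : K[X]).coeff 1 * w)) + ((th t (A' l)).coeff 0 - x l * (0 : K[X]).coeff 0) *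
        (th t Q).coeff 1
      simp only [th_coeff_zero, th_coeff_one, coeff_zero, zero_mul, add_zero, mul_zero, sub_zero]
      have h1 := congrArg D (hx l)
      simp only [map_add, Derivation.leibniz, der_aeval D hD, hDt, mul_one, smul_eq_mul] at h1
      have h2 := der_w hw D hD
      rw [hDt, mul_one] at h2
      linear_combination (-2 * w) * h1 + aeval t (A' l) * h2
  · intro hdc
    refine inf_of_flow D hw0 ?_ ?_ ?_ ?_ ?_ hdc
    · show 2 * w * D w = (th t Q).coeff 1
      rw [th_coeff_one, der_w hw D hD, hDt, mul_one]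
    · show D ((th t Q).coeff 1) = 2 * (th t Q).coeff 2
      rw [der_q D hD hDt]; norm_num
    · show D ((th t Q).coeff 2) = 3 * (th t Q).coeff 3
      rw [der_q D hD hDt]; norm_num
    · show D ((th t Q).coeff 3) = 4 * (th t Q).coeff 4
      rw [der_q D hD hDt]; norm_num
    · show D ((th t Q).coeff 4) = 0
      rw [der_q D hD hDt, th_coeff, hasseDeriv_eq_zero_of_lt_natDegree _ _ (by omega), map_zero,
        mul_zero]

end der

end Pool.Agent.Y742.GG
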