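import Mathlib

/-!
# Values of rational functions at points (helper742)
-/

set_option autoImplicit false

open Polynomial

namespace Pool.Agent.Y742.GG

section ext

variable {S K R : Type*} [CommRing S] [Field K] [CommRing R] (φ : S →+* K) (τ : S →+* R)

/-- `f` is regular at `τ` with the value `r` -/
def Rg (f : K) (r : R) : Prop :=
  ∃ P Q : S, IsUnit (τ Q) ∧ φ Q ≠ 0 ∧ f * φ Q = φ P ∧ r * τ Q = τ P

variable {φ τ}

lemma Rg.unique (hk : ∀ s, φ s = 0 → τ s = 0) {f : K} {r r' : R} (h : Rg φ τ f r)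
    (h' : Rg φ τ f r') : r = r' := by
  obtain ⟨P, Q, hQ, -, e1, e2⟩ := h
  obtain ⟨P', Q', hQ', -, e1', e2'⟩ := h'
  have h1 : φ (P * Q' - P' * Q) = 0 := by
    rw [map_sub, map_mul, map_mul, ← e1, ← e1']; ring
  have h2 := hk _ h1
  rw [map_sub, map_mul, map_mul, ← e2, ← e2'] at h2
  have h3 : (r - r') * (τ Q * τ Q') = 0 := by linear_combination h2
  have h4 := (hQ.mul hQ').mul_left_eq_zero.1 h3
  exact sub_eq_zero.1 h4

lemma Rg.of (s : S) : Rg φ τ (φ s) (τ s) := ⟨s, 1, by simp, by simp, by simp, by simp⟩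

lemma Rg.add {f g : K} {r s : R} (h : Rg φ τ f r) (h' : Rg φ τ g s) : Rg φ τ (f + g) (r + s) := by
  obtain ⟨P, Q, hQ, hq, e1, e2⟩ := h
  obtain ⟨P', Q', hQ', hq', e1', e2'⟩ := h'
  refine ⟨P * Q' + P' * Q, Q * Q', by rw [map_mul]; exact hQ.mul hQ',
    by rw [map_mul]; exact mul_ne_zero hq hq', ?_, ?_⟩
  · simp only [map_add, map_mul]; rw [← e1, ← e1']; ring
  · simp only [map_add, map_mul]; rw [← e2, ← e2']; ring

lemma Rg.mul {f g : K} {r s : R} (h : Rg φ τ f r) (h' : Rg φ τ g s) : Rg φ τ (f * g) (r * s) := by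
  obtain ⟨P, Q, hQ, hq, e1, e2⟩ := h
  obtain ⟨P', Q', hQ', hq', e1', e2'⟩ := h'
  refine ⟨P * P', Q * Q', by rw [map_mul]; exact hQ.mul hQ',
    by rw [map_mul]; exact mul_ne_zero hq hq', ?_, ?_⟩
  · simp only [map_mul]; rw [← e1, ← e1']; ring
  · simp only [map_mul]; rw [← e2, ← e2']; ring

lemma Rg.neg {f : K} {r : R} (h : Rg φ τ f r) : Rg φ τ (-f) (-r) := by
  obtain ⟨P, Q, hQ, hq, e1, e2⟩ := h
  refine ⟨-P, Q, hQ, hq, ?_, ?_⟩
  · rw [map_neg, ← e1]; ring
  · rw [map_neg, ← e2]; ring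

lemma Rg.one : Rg φ τ 1 1 := by simpa using Rg.of (φ := φ) (τ := τ) 1

lemma Rg.zero : Rg φ τ 0 0 := by simpa using Rg.of (φ := φ) (τ := τ) 0

lemma Rg.sub {f g : K} {r s : R} (h : Rg φ τ f r) (h' : Rg φ τ g s) : Rg φ τ (f - g) (r - s) := by
  rw [sub_eq_add_neg, sub_eq_add_neg]; exact h.add h'.neg

lemma Rg.inv {f : K} {r r' : R} (h : Rg φ τ f r) (hf : f ≠ 0) (hr : r * r' = 1) :
    Rg φ τ f⁻¹ r' := by
  obtain ⟨P, Q, hQ, hq, e1, e2⟩ := h
  have hr' : IsUnit r := IsUnit.of_mul_eq_one _ hr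
  refine ⟨Q, P, by rw [← e2]; exact hr'.mul hQ, by rw [← e1]; exact mul_ne_zero hf hq, ?_, ?_⟩
  · rw [← e1]; field_simp
  · rw [← e2]; linear_combination (τ Q) * hr

/-- a rational function which vanishes has the value zero -/
lemma Rg.eq_zero (hk : ∀ s, φ s = 0 → τ s = 0) {r : R} (h : Rg φ τ 0 r) : r = 0 :=
  h.unique hk Rg.zero

variable (φ τ)

/-- the ring of regular functions -/
def Oc : Subring K where
  carrier := {f | ∃ r, Rg φ τ f r}
  mul_mem' := by rintro f g ⟨r, hr⟩ ⟨s, hs⟩; exact ⟨r * s, hr.mul hs⟩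
  one_mem' := ⟨1, Rg.one⟩
  add_mem' := by rintro f g ⟨r, hr⟩ ⟨s, hs⟩; exact ⟨r + s, hr.add hs⟩
  zero_mem' := ⟨0, Rg.zero⟩
  neg_mem' := by rintro f ⟨r, hr⟩; exact ⟨-r, hr.neg⟩

variable {φ τ}

lemma mem_Oc {f : K} : f ∈ Oc φ τ ↔ ∃ r, Rg φ τ f r := Iff.rfl

/-- the evaluation -/
noncomputable def ev (hk : ∀ s, φ s = 0 → τ s = 0) : Oc φ τ →+* R where
  toFun f := f.2.choose
  map_one' := Rg.unique hk (Subtype.prop (1 : Oc φ τ)).choose_spec Rg.one
  map_zero' := Rg.unique hk (Subtype.prop (0 : Oc φ τ)).choose_spec Rg.zero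
  map_mul' f g := Rg.unique hk (f * g).2.choose_spec (f.2.choose_spec.mul g.2.choose_spec)
  map_add' f g := Rg.unique hk (f + g).2.choose_spec (f.2.choose_spec.add g.2.choose_spec)

lemma ev_spec (hk : ∀ s, φ s = 0 → τ s = 0) (f : Oc φ τ) : Rg φ τ (f : K) (ev hk f) :=
  f.2.choose_spec

lemma ev_eq (hk : ∀ s, φ s = 0 → τ s = 0) {f : Oc φ τ} {r : R} (h : Rg φ τ (f : K) r) :
    ev hk f = r := (ev_spec hk f).unique hk h

/-- polynomials with regular coefficients -/
lemma exists_lift {p : K[X]} (hp : ∀ n, p.coeff n ∈ Oc φ τ) :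
    ∃ p' : (Oc φ τ)[X], p'.map (Oc φ τ).subtype = p := by
  have h := (Polynomial.lifts_iff_coeff_lifts (f := (Oc φ τ).subtype) p).2 fun n =>
    ⟨⟨_, hp n⟩, rfl⟩
  exact h

end ext

section hm

variable {k R : Type*} [CommRing k] [CommRing R] {N : ℕ}

/-- the form `b ^ e F(a / b)` -/
noncomputable def hm (c : k →+* R) (F : MvPolynomial (Fin N) k) (a : Fin N → R) (b : R) : R :=
  ∑ m ∈ F.support, c (F.coeff m) * (∏ l, a l ^ m l) * b ^ (F.totalDegree - ∑ l, m l)

lemma hm_map {R' : Type*} [CommRing R'] (f : R →+* R') (c : k →+* R) (F : MvPolynomial (Fin N) k)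
    (a : Fin N → R) (b : R) : f (hm c F a b) = hm (f.comp c) F (fun l => f (a l)) (f b) := by
  simp only [hm, map_sum, map_mul, map_prod, map_pow, RingHom.comp_apply]

lemma hm_eq (c : k →+* R) (F : MvPolynomial (Fin N) k) {a : Fin N → R} {b : R} {y : Fin N → R}
    (h : ∀ l, a l = y l * b) :
    hm c F a b = b ^ F.totalDegree * MvPolynomial.eval₂ c y F := by
  rw [hm, MvPolynomial.eval₂_eq', Finset.mul_sum]
  refine Finset.sum_congr rfl fun m hm => ?_
  have h1 : ∑ l, m l ≤ F.totalDegree := by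
    have := MvPolynomial.le_totalDegree hm
    rwa [Finsupp.sum_fintype _ _ (fun _ => rfl)] at this
  have h2 : ∏ l, a l ^ m l = (∏ l, y l ^ m l) * b ^ ∑ l, m l := by
    rw [← Finset.prod_pow_eq_pow_sum, ← Finset.prod_mul_distrib]
    exact Finset.prod_congr rfl fun l _ => by rw [h, mul_pow]
  rw [h2]
  calc c (F.coeff m) * ((∏ l, y l ^ m l) * b ^ ∑ l, m l) * b ^ (F.totalDegree - ∑ l, m l)
      = c (F.coeff m) * (∏ l, y l ^ m l) * (b ^ (F.totalDegree - ∑ l, m l) * b ^ ∑ l, m l) := by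
        ring
    _ = b ^ F.totalDegree * (c (F.coeff m) * ∏ l, y l ^ m l) := by
        rw [← pow_add, Nat.sub_add_cancel h1]; ring

end hm

section loc

variable {k K M O : Type*} [CommRing k] [CommRing K] [Field M] [CommRing O] {N : ℕ}

/-- **New points.** -/
theorem new_point {cK : k →+* K} {cst : k →+* O} {ι : O →+* K} (hι : Function.Injective ι)
    (hc : ι.comp cst = cK) {ev : O →+* M} {F : MvPolynomial (Fin N) k}
    {q B B' : K[X]} {A A' : Fin N → K[X]}
    (star : (X ^ 2 - C q) ∣ hm ((C : K[X] →+* K[X][X]).comp ((C : K →+* K[X]).comp cK)) F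
      (fun l => C (A l) + C (A' l) * X) (C B + C B' * X))
    {q' b b' : O[X]} {a a' : Fin N → O[X]} (hq : q'.map ι = q)
    (hB : b.map ι = B) (hB' : b'.map ι = B') (hA : ∀ l, (a l).map ι = A l)
    (hA' : ∀ l, (a' l).map ι = A' l) {s Y : M}
    (hY : Y ^ 2 = (q'.map ev).eval s)
    (hb : (b.map ev).eval s + (b'.map ev).eval s * Y ≠ 0) :
    MvPolynomial.eval₂ (ev.comp cst) (fun l => (((a l).map ev).eval s +
      ((a' l).map ev).eval s * Y) / ((b.map ev).eval s + (b'.map ev).eval s * Y)) F = 0 := by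
  classical
  have hdvd : (X ^ 2 - C q') ∣ hm ((C : O[X] →+* O[X][X]).comp
      ((C : O →+* O[X]).comp cst)) F (fun l => C (a l) + C (a' l) * X) (C b + C b' * X) := by
    have hinj : Function.Injective (mapRingHom ι) := Polynomial.map_injective _ hι
    have hmon : (X ^ 2 - C q' : O[X][X]).Monic := monic_X_pow_sub_C _ two_ne_zero
    rw [← Polynomial.map_dvd_map (mapRingHom ι) hinj hmon]
    have e1 : (X ^ 2 - C q' : O[X][X]).map (mapRingHom ι) = X ^ 2 - C q := by
      simp [hq]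
    rw [e1]
    have e2 : (hm ((C : O[X] →+* O[X][X]).comp
        ((C : O →+* O[X]).comp cst)) F (fun l => C (a l) + C (a' l) * X)
        (C b + C b' * X)).map (mapRingHom ι) =
        hm ((C : K[X] →+* K[X][X]).comp ((C : K →+* K[X]).comp cK)) F
          (fun l => C (A l) + C (A' l) * X) (C B + C B' * X) := by
      have := hm_map (mapRingHom (mapRingHom ι)) ((C : O[X] →+* O[X][X]).comp
        ((C : O →+* O[X]).comp cst)) F (fun l => C (a l) + C (a' l) * X) (C b + C b' * X)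
      rw [coe_mapRingHom] at this
      rw [this]
      congr 1
      · subst hc
        ext c
        simp
      · funext l
        simp [hA, hA']
      · simp [hB, hB']
    rw [e2]
    exact star
  -- evaluation
  obtain ⟨U, hU⟩ := hdvd
  let χ : O[X][X] →+* M := eval₂RingHom (eval₂RingHom ev s) Y
  have h1 := hm_map χ ((C : O[X] →+* O[X][X]).comp ((C : O →+* O[X]).comp cst)) F
    (fun l => C (a l) + C (a' l) * X) (C b + C b' * X)
  have cX : χ X = Y := by simp only [χ, coe_eval₂RingHom, eval₂_X]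
  have cC : ∀ p : O[X], χ (C p) = (p.map ev).eval s := by
    intro p
    simp only [χ, coe_eval₂RingHom, eval₂_C, eval_map]
  have e0 : χ (X ^ 2 - C q') = 0 := by
    rw [map_sub, map_pow, cX, cC, hY, sub_self]
  rw [hU, map_mul, e0, zero_mul, eq_comm] at h1
  have eB : χ (C b + C b' * X) = (b.map ev).eval s + (b'.map ev).eval s * Y := by
    rw [map_add, map_mul, cX, cC, cC]
  have ea : ∀ l, χ (C (a l) + C (a' l) * X) = (((a l).map ev).eval s +
      ((a' l).map ev).eval s * Y) / ((b.map ev).eval s + (b'.map ev).eval s * Y) *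
        χ (C b + C b' * X) := by
    intro l
    rw [eB, div_mul_cancel₀ _ hb, map_add, map_mul, cX, cC, cC]
  rw [hm_eq _ _ ea, eB] at h1
  have h2 := (mul_eq_zero.1 h1).resolve_left (pow_ne_zero _ hb)
  have e3 : (χ.comp ((C : O[X] →+* O[X][X]).comp
      ((C : O →+* O[X]).comp cst))) = ev.comp cst := by
    ext c
    simp only [RingHom.comp_apply, χ, coe_eval₂RingHom, eval₂_C]
  rw [e3] at h2
  exact h2

end loc

end Pool.Agent.Y742.GG
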