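import Mathlib

/-!
# Power series in `F(t, √q)` (helper742)
-/

set_option autoImplicit false

open Polynomial

namespace Pool.Agent.Y742.GG

/-- polynomials as power series -/
noncomputable abbrev cP {F : Type*} [CommRing F] : F[X] →+* PowerSeries F :=
  Polynomial.coeToPowerSeries.ringHom

lemma cP_coeff {F : Type*} [CommRing F] (P : F[X]) (n : ℕ) :
    PowerSeries.coeff n (cP P) = P.coeff n := Polynomial.coeff_coe P n

lemma cP_inj {F : Type*} [CommRing F] : Function.Injective (cP (F := F)) := by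
  intro P Q h
  ext n
  rw [← cP_coeff, ← cP_coeff, h]

lemma cP_C {F : Type*} [CommRing F] (a : F) : cP (C a) = PowerSeries.C a := by
  simp [cP]

lemma cP_X {F : Type*} [CommRing F] : cP (X : F[X]) = PowerSeries.X := by
  simp [cP]

/-- the power series in `F(t, y)` -/
def Rt {F : Type*} [Field F] (y g : PowerSeries F) : Prop :=
  ∃ A A' B : F[X], B ≠ 0 ∧ g * cP B = cP A + cP A' * y

section

variable {F : Type*} [Field F] {q : F[X]} {y g g' : PowerSeries F}

lemma Rt.poly (P : F[X]) : Rt y (cP P) := ⟨P, 0, 1, one_ne_zero, by simp⟩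

lemma Rt.cst (c : F) : Rt y (PowerSeries.C c) := by
  rw [← cP_C]; exact Rt.poly _

lemma Rt.tt : Rt y PowerSeries.X := by
  rw [← cP_X]; exact Rt.poly _

lemma Rt.self : Rt y y := ⟨0, 1, 1, one_ne_zero, by simp⟩

lemma Rt.add (h : Rt y g) (h' : Rt y g') : Rt y (g + g') := by
  obtain ⟨A, A', B, hB, e⟩ := h
  obtain ⟨a, a', b, hb, e'⟩ := h'
  refine ⟨A * b + a * B, A' * b + a' * B, B * b, mul_ne_zero hB hb, ?_⟩
  simp only [map_mul, map_add]
  linear_combination cP b * e + cP B * e'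

lemma Rt.neg (h : Rt y g) : Rt y (-g) := by
  obtain ⟨A, A', B, hB, e⟩ := h
  refine ⟨-A, -A', B, hB, ?_⟩
  simp only [map_neg]
  linear_combination -e

lemma Rt.sub (h : Rt y g) (h' : Rt y g') : Rt y (g - g') := by
  rw [sub_eq_add_neg]; exact h.add h'.neg

lemma Rt.mul (hq : y ^ 2 = cP q) (h : Rt y g) (h' : Rt y g') : Rt y (g * g') := by
  obtain ⟨A, A', B, hB, e⟩ := h
  obtain ⟨a, a', b, hb, e'⟩ := h'
  refine ⟨A * a + A' * a' * q, A * a' + A' * a, B * b, mul_ne_zero hB hb, ?_⟩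
  simp only [map_mul, map_add, ← hq]
  linear_combination (g' * cP b) * e + (cP A + cP A' * y) * e'

lemma Rt.pow (hq : y ^ 2 = cP q) (h : Rt y g) (n : ℕ) : Rt y (g ^ n) := by
  induction n with
  | zero => rw [pow_zero, ← map_one (cP (F := F))]; exact Rt.poly _
  | succ n ih => rw [pow_succ]; exact ih.mul hq h

lemma Rt.inv (hq : y ^ 2 = cP q) (h : Rt y g) (hg : g * g' = 1) : Rt y g' := by
  obtain ⟨A, A', B, hB, e⟩ := h
  have hB0 : cP B ≠ 0 := fun h0 => hB (cP_inj (by rw [h0, map_zero]))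
  have hg0 : g ≠ 0 := left_ne_zero_of_mul_eq_one hg
  have h1 : cP A + cP A' * y ≠ 0 := by rw [← e]; exact mul_ne_zero hg0 hB0
  have h2 : g' * (cP A + cP A' * y) = cP B := by
    rw [← e]
    linear_combination (cP B) * hg
  by_cases h3 : A ^ 2 - A' ^ 2 * q = 0
  · have h4 : (cP A + cP A' * y) * (cP A - cP A' * y) = 0 := by
      have := congrArg cP h3
      simp only [map_sub, map_mul, map_pow, map_zero, ← hq] at this
      linear_combination this
    have h5 : cP A = cP A' * y := sub_eq_zero.1 ((mul_eq_zero.1 h4).resolve_left h1)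
    rw [← h5] at h2 h1
    refine ⟨B, 0, 2 * A, ?_, ?_⟩
    · intro h6
      apply h1
      rw [← map_add, ← two_mul, h6, map_zero]
    · rw [map_zero, zero_mul, add_zero, two_mul, map_add]
      exact h2
  · refine ⟨A * B, -(A' * B), A ^ 2 - A' ^ 2 * q, h3, ?_⟩
    simp only [map_sub, map_mul, map_pow, map_neg, ← hq]
    linear_combination (cP A - cP A' * y) * h2

end

/-- **Descent.** -/
theorem Rt.descend {K K' : Type*} [Field K] [Field K'] [Algebra K K'] {y g : PowerSeries K}
    (h : Rt (PowerSeries.map (algebraMap K K') y) (PowerSeries.map (algebraMap K K') g)) :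
    Rt y g := by
  classical
  obtain ⟨A, A', B, hB, e⟩ := h
  obtain ⟨n, hn⟩ : ∃ n, B.coeff n ≠ 0 := by
    by_contra hcon
    push Not at hcon
    exact hB (Polynomial.ext hcon)
  obtain ⟨ℓ, hℓ⟩ : ∃ ℓ : K' →ₗ[K] K, ℓ (B.coeff n) ≠ 0 := by
    by_contra hcon
    push Not at hcon
    exact hn ((Module.forall_dual_apply_eq_zero_iff K _).1 hcon)
  have key : ∀ P : K'[X], ∃ P' : K[X], ∀ i, P'.coeff i = ℓ (P.coeff i) := by
    intro P
    refine ⟨∑ i ∈ P.support, monomial i (ℓ (P.coeff i)), fun i => ?_⟩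
    rw [finsetSum_coeff]
    simp only [coeff_monomial]
    rw [Finset.sum_ite_eq' P.support i fun i => ℓ (P.coeff i)]
    split_ifs with h
    · rfl
    · rw [notMem_support_iff.1 h, map_zero]
  choose f hf using key
  have hmul : ∀ (P : K'[X]) (z : PowerSeries K) (i : ℕ),
      PowerSeries.coeff i (cP (f P) * z) =
        ℓ (PowerSeries.coeff i (cP P * PowerSeries.map (algebraMap K K') z)) := by
    intro P z i
    rw [PowerSeries.coeff_mul, PowerSeries.coeff_mul, map_sum]
    refine Finset.sum_congr rfl fun p _ => ?_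
    rw [cP_coeff, cP_coeff, hf, PowerSeries.coeff_map, mul_comm (P.coeff p.1), ← Algebra.smul_def,
      map_smul, smul_eq_mul, mul_comm]
  refine ⟨f A, f A', f B, ?_, ?_⟩
  · intro h0
    apply hℓ
    rw [← hf, h0, coeff_zero]
  · ext i
    rw [mul_comm, hmul, mul_comm, e, map_add, map_add, map_add, hmul, cP_coeff, cP_coeff, hf]

/-- **A common denominator which does not vanish.** -/
theorem Rt.common {K : Type*} [Field K] [CharZero K] {N : ℕ} {q : K[X]} {y : PowerSeries K}
    (hq : y ^ 2 = cP q) (hy : PowerSeries.constantCoeff y = 1) {g : Fin N → PowerSeries K}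
    (h : ∀ l, Rt y (g l)) : ∃ (A A' : Fin N → K[X]) (B B' : K[X]),
      B.coeff 0 + B'.coeff 0 ≠ 0 ∧ ∀ l, g l * (cP B + cP B' * y) = cP (A l) + cP (A' l) * y := by
  classical
  choose a a' b hb hab using h
  -- one denominator
  set b₀ := ∏ l, b l with hb₀
  have hb₀0 : b₀ ≠ 0 := Finset.prod_ne_zero_iff.2 fun l _ => hb l
  set a₁ : Fin N → K[X] := fun l => a l * ∏ j ∈ Finset.univ.erase l, b j with ha₁
  set a₁' : Fin N → K[X] := fun l => a' l * ∏ j ∈ Finset.univ.erase l, b j with ha₁'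
  have hab₁ : ∀ l, g l * cP b₀ = cP (a₁ l) + cP (a₁' l) * y := by
    intro l
    rw [hb₀, ← Finset.mul_prod_erase _ _ (Finset.mem_univ l)]
    simp only [ha₁, ha₁', map_mul]
    linear_combination (cP (∏ j ∈ Finset.univ.erase l, b j)) * hab l
  clear_value a₁ a₁' b₀
  -- the order of the denominator
  obtain ⟨B₁, hB₁, hB₁0⟩ := exists_eq_pow_rootMultiplicity_mul_and_not_dvd b₀ hb₀0 0
  set e := rootMultiplicity 0 b₀ with he
  rw [C_0, sub_zero] at hB₁ hB₁0
  have hB₁c : B₁.coeff 0 ≠ 0 := fun h0 => hB₁0 (X_dvd_iff.2 h0)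
  -- the truncation
  set T := PowerSeries.trunc (e + 1) y with hT
  obtain ⟨z, hz⟩ : PowerSeries.X ^ e ∣ y - cP T := by
    rw [PowerSeries.X_pow_dvd_iff]
    intro m hm
    rw [map_sub, cP_coeff, hT, PowerSeries.coeff_trunc, if_pos (by omega), sub_self]
  have hT0 : T.coeff 0 = 1 := by
    rw [hT, PowerSeries.coeff_trunc, if_pos (by omega), PowerSeries.coeff_zero_eq_constantCoeff_apply,
      hy]
  have hdvd : ∀ P : K[X], (PowerSeries.X ^ e : PowerSeries K) ∣ cP P → X ^ e ∣ P := by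
    intro P hP
    rw [PowerSeries.X_pow_dvd_iff] at hP
    rw [X_pow_dvd_iff]
    intro d hd
    rw [← cP_coeff]
    exact hP d hd
  have hXe : cP (X ^ e : K[X]) = PowerSeries.X ^ e := by rw [map_pow, cP_X]
  have hyT : y = cP T + PowerSeries.X ^ e * z := by rw [← hz]; ring
  have h1 : ∀ l, ∃ c : K[X], a₁ l + a₁' l * T = X ^ e * c := by
    intro l
    apply hdvd
    refine ⟨g l * cP B₁ - cP (a₁' l) * z, ?_⟩
    have h2 := hab₁ l
    rw [hB₁, map_mul, hXe] at h2
    rw [map_add, map_mul]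
    linear_combination (-h2) - cP (a₁' l) * hyT
  have h2 : ∃ c : K[X], q - T ^ 2 = X ^ e * c := by
    apply hdvd
    refine ⟨z * (y + cP T), ?_⟩
    rw [map_sub, map_pow, ← hq]
    linear_combination (y + cP T) * hz
  obtain ⟨c₂, hc₂⟩ := h2
  choose c₁ hc₁ using h1
  refine ⟨fun l => c₁ l * T + a₁' l * c₂, c₁, B₁ * T, B₁, ?_, ?_⟩
  · rw [mul_coeff_zero, hT0, mul_one, ← two_mul]
    exact mul_ne_zero two_ne_zero hB₁c
  · intro l
    have h3 := hab₁ l
    rw [hB₁, map_mul, hXe] at h3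
    have h4 := congrArg cP (hc₁ l)
    have h5 := congrArg cP hc₂
    simp only [map_add, map_mul, map_sub, map_pow, cP_X] at h4 h5
    rw [← hq] at h5
    have h6 : (PowerSeries.X ^ e : PowerSeries K) ≠ 0 := pow_ne_zero _ PowerSeries.X_ne_zero
    apply mul_left_cancel₀ h6
    simp only [map_add, map_mul]
    linear_combination (cP T + y) * h3 + (cP T + y) * h4 + cP (a₁' l) * h5

end Pool.Agent.Y742.GG
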