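import Pool.Agent.Y742.GG.Th
import Pool.Agent.Y742.GG.Rt

/-!
# Torsors under elliptic curves give moves (helper742)
-/

set_option autoImplicit false
set_option linter.unusedSectionVars false

open WeierstrassCurve Pool.Agent.Y720.MZ

namespace Pool.Agent.Y742.GG

section rt

variable {F : Type*} [Field F] {q : Polynomial F} {y : PowerSeries F}

lemma Rt.num (n : ℕ) [n.AtLeastTwo] : Rt y (OfNat.ofNat n : PowerSeries F) := by
  rw [← map_ofNat (cP (F := F)) n]
  exact Rt.poly _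

lemma Rt.one : Rt y (1 : PowerSeries F) := by
  rw [← map_one (cP (F := F))]
  exact Rt.poly _

variable {q₂ q₃ q₄ δ x₁ y₁ : F}

lemma rt_sD (hq : y ^ 2 = cP q) : Rt y (sD δ x₁ y) := by
  unfold sD Dd
  exact ((Rt.num 2).mul hq (Rt.self.add Rt.one)).sub ((Rt.cst _).mul hq (Rt.tt.pow hq 2))

lemma rt_Vv (hq : y ^ 2 = cP q) :
    Rt y (Vv (PowerSeries.C q₂) (PowerSeries.C q₃) (y + 1) PowerSeries.X) := by
  unfold Vv
  exact (((Rt.num 4).mul hq (Rt.self.add Rt.one)).add (((Rt.num 2).mul hq (Rt.cst _)).mul hq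
    (Rt.tt.pow hq 2))).add ((Rt.cst _).mul hq (Rt.tt.pow hq 3))

lemma rt_sN (hq : y ^ 2 = cP q) : Rt y (sN q₂ q₃ q₄ δ x₁ y₁ y) := by
  unfold sN N3
  have hx : Rt y (PowerSeries.C (x₁ - δ)) := Rt.cst _
  have h1 : Rt y (6 * PowerSeries.C (x₁ - δ) ^ 2 + 4 * PowerSeries.C q₂ *
      PowerSeries.C (x₁ - δ) - 8 * PowerSeries.C q₄) :=
    (((Rt.num 6).mul hq (hx.pow hq 2)).add (((Rt.num 4).mul hq (Rt.cst _)).mul hq hx)).sub
      ((Rt.num 8).mul hq (Rt.cst _))
  have h2 : Rt y (2 * (PowerSeries.C q₃ ^ 2 - 4 * PowerSeries.C q₂ * PowerSeries.C q₄) -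
      4 * PowerSeries.C q₄ * PowerSeries.C (x₁ - δ) - PowerSeries.C (x₁ - δ) ^ 3) :=
    (((Rt.num 2).mul hq (((Rt.cst _).pow hq 2).sub (((Rt.num 4).mul hq (Rt.cst _)).mul hq
      (Rt.cst _)))).sub (((Rt.num 4).mul hq (Rt.cst _)).mul hq hx)).sub (hx.pow hq 3)
  exact (((h1.mul hq (Rt.self.add Rt.one)).mul hq Rt.tt).add (h2.mul hq (Rt.tt.pow hq 3))).sub
    (((Rt.num 2).mul hq (rt_Vv hq)).mul hq (Rt.cst _))

variable [CharZero F]

lemma rt_inv (hq : y ^ 2 = cP q) (hy : PowerSeries.constantCoeff y = 1) :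
    Rt y (sD δ x₁ y)⁻¹ := (rt_sD hq).inv hq (sD_inv hy)

lemma rt_sX (hq : y ^ 2 = cP q) (hy : PowerSeries.constantCoeff y = 1) :
    Rt y (sX q₂ q₃ q₄ δ x₁ y₁ y) := by
  unfold sX
  exact (Rt.cst _).add ((Rt.tt.mul hq (rt_sN hq)).mul hq ((rt_inv hq hy).pow hq 2))

lemma rt_sY (hq : y ^ 2 = cP q) (hy : PowerSeries.constantCoeff y = 1) :
    Rt y (sY q₂ q₃ q₄ δ x₁ y₁ y) := by
  unfold sY
  exact ((((rt_Vv hq).sub ((Rt.cst _).mul hq (Rt.tt.pow hq 3))).mul hq (rt_sN hq)).mul hq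
    ((rt_inv hq hy).pow hq 3)).neg.sub (Rt.cst _)

end rt

open Polynomial in
/-- polynomials which vanish at a square root -/
theorem dvd_ser {F R : Type*} [Field F] [CommRing R] {Q : F[X]} (hQ : ∀ S : F[X], Q ≠ S ^ 2)
    {ψ : F[X] →+* R} (hψ : Function.Injective ψ) {y : R} (hy : y ^ 2 = ψ Q) {P : F[X][X]}
    (h : P.eval₂ ψ y = 0) : (X ^ 2 - C Q) ∣ P := by
  have hmon : (X ^ 2 - C Q : F[X][X]).Monic := monic_X_pow_sub_C _ two_ne_zero
  rw [← modByMonic_eq_zero_iff_dvd hmon]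
  have hdeg : (P %ₘ (X ^ 2 - C Q)).natDegree ≤ 1 := by
    have h1 : (X ^ 2 - C Q : F[X][X]).natDegree = 2 := natDegree_X_pow_sub_C
    have h2 := natDegree_modByMonic_lt P hmon (by
      intro h0; rw [h0, natDegree_one] at h1; omega)
    omega
  obtain ⟨r1, r0, hr⟩ := exists_eq_X_add_C_of_natDegree_le_one hdeg
  have h1 := modByMonic_add_div P (X ^ 2 - C Q)
  have h2 := congrArg (eval₂ ψ y) h1
  rw [eval₂_add, eval₂_mul, h, hr] at h2
  simp only [eval₂_add, eval₂_mul, eval₂_sub, eval₂_pow, eval₂_X, eval₂_C, hy, sub_self,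
    zero_mul, add_zero] at h2
  have h3 : r0 ^ 2 = r1 ^ 2 * Q := by
    apply hψ
    rw [map_pow, map_mul, map_pow, ← hy]
    linear_combination (ψ r0 - ψ r1 * y) * h2
  have h4 : r1 = 0 := by
    by_contra h0
    have h5 : r1 ^ 2 ∣ r0 ^ 2 := ⟨Q, h3⟩
    rw [IsIntegrallyClosed.pow_dvd_pow_iff two_ne_zero] at h5
    obtain ⟨S, rfl⟩ := h5
    apply hQ S
    apply mul_left_cancel₀ (pow_ne_zero 2 h0)
    rw [← h3]; ring
  have h5 : r0 = 0 := by
    rw [h4, zero_pow two_ne_zero, zero_mul] at h3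
    exact pow_eq_zero_iff two_ne_zero |>.1 h3
  rw [hr, h4, h5]
  simp

lemma cP_map {K K' : Type*} [CommRing K] [CommRing K'] (f : K →+* K') (P : Polynomial K) :
    PowerSeries.map f (cP P) = cP (P.map f) := by
  ext n
  rw [PowerSeries.coeff_map, cP_coeff, cP_coeff, Polynomial.coeff_map]

lemma cP_qpol {K : Type*} [Field K] (q₂ q₃ q₄ : K) : cP (qpol 1 0 q₂ q₃ q₄) =
    1 + PowerSeries.C q₂ * PowerSeries.X ^ 2 + PowerSeries.C q₃ * PowerSeries.X ^ 3 +
      PowerSeries.C q₄ * PowerSeries.X ^ 4 := by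
  rw [qpol]
  simp only [map_add, map_mul, map_pow, cP_C, cP_X, map_one, map_zero, zero_mul, add_zero]

variable {Ω K : Type*} [Field Ω] [Field K] [Algebra Ω K] {L : IntermediateField Ω K}
  {K' : Type*} [Field K'] [Algebra K K'] [DecidableEq K'] {a b c : L} {X Y : K'}
  [CharZero K] [FiniteDimensional K K'] [IsGalois K K']

open PowerSeries in
/-- **The translation by the generic point of the quartic.** -/
theorem TD.series (H : TD L a b c X Y) {D : Derivation ℤ K' K'}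
    (hDk : ∀ z, IsAlgebraic L z → D z = 0) (hDX : D X = Y) {q₂ q₃ q₄ δ : K}
    (ha : q₂ = a + 3 * δ) (hb : -4 * q₄ = b + 2 * a * δ + 3 * δ ^ 2)
    (hc : q₃ ^ 2 - 4 * q₂ * q₄ = c + b * δ + a * δ ^ 2 + δ ^ 3) {y : PowerSeries K}
    (hy : constantCoeff y = 1) (hq : y ^ 2 = cP (qpol 1 0 q₂ q₃ q₄)) :
    ∃ (θ : K' →+* PowerSeries K') (g : K → PowerSeries K),
      (∀ z, PowerSeries.map (algebraMap K K') (g z) = θ (algebraMap K K' z)) ∧
      (∀ z : L, θ (algebraMap L K' z) = C (algebraMap L K' z)) ∧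
      (∀ z, constantCoeff (g z) = z) ∧
      (∀ z, algebraMap K K' (coeff 1 (g z)) = -D (algebraMap K K' z)) ∧ ∀ z, Rt y (g z) := by
  have hcK' : CharZero K' := charZero_of_injective_algebraMap (algebraMap K K').injective
  set f : K →+* K' := algebraMap K K' with hf
  set y' := PowerSeries.map f y with hy'def
  have hy' : constantCoeff y' = 1 := by
    rw [hy'def, ← coeff_zero_eq_constantCoeff_apply, coeff_map,
      coeff_zero_eq_constantCoeff_apply, hy, map_one]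
  have hq1 : y' ^ 2 = cP ((qpol 1 0 q₂ q₃ q₄).map f) := by
    rw [hy'def, ← map_pow, hq, cP_map]
  have hq2 : y' ^ 2 = 1 + C (f q₂) * PowerSeries.X ^ 2 + C (f q₃) * PowerSeries.X ^ 3 +
      C (f q₄) * PowerSeries.X ^ 4 := by
    have h1 : (qpol 1 0 q₂ q₃ q₄).map f = qpol 1 0 (f q₂) (f q₃) (f q₄) := by
      simp [qpol]
    rw [hq1, h1, cP_qpol]
  have hfL : ∀ z : L, f (z : K) = algebraMap L K' z := fun z => rfl
  have ha' : f q₂ = algebraMap L K' a + 3 * f δ := by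
    rw [ha, map_add, map_mul, map_ofNat, hfL]
  have hb' : -4 * f q₄ = algebraMap L K' b + 2 * algebraMap L K' a * f δ + 3 * f δ ^ 2 := by
    have := congrArg f hb
    simpa only [map_add, map_mul, map_pow, map_neg, map_ofNat, hfL] using this
  have hc' : f q₃ ^ 2 - 4 * f q₂ * f q₄ = algebraMap L K' c + algebraMap L K' b * f δ +
      algebraMap L K' a * f δ ^ 2 + f δ ^ 3 := by
    have := congrArg f hc
    simpa only [map_add, map_mul, map_pow, map_sub, map_ofNat, hfL] using this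
  have hds : dsc (algebraMap L K' a) (algebraMap L K' b) (algebraMap L K' c) ≠ 0 := by
    rw [← map_dsc' (algebraMap L K')]
    exact (map_ne_zero _).2 H.disc
  obtain ⟨θ, hθ0, hθX, hθY, hθc⟩ := H.exists_theta
    (cc_sX (q₂ := f q₂) (q₃ := f q₃) (q₄ := f q₄) (δ := f δ) (x₁ := X) (y₁ := Y) (y := y'))
    (cc_sY hy') (eq_ser ha' hb' hc' hds hy' hq2 H.eqn)
  classical
  let M := FractionRing (PowerSeries K')
  let ι : PowerSeries K' →+* M := algebraMap _ _
  have hι : Function.Injective ι := IsFractionRing.injective _ _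
  have hM : CharZero M := charZero_of_injective_ringHom (ι.comp C : K' →+* M).injective
  obtain ⟨h₂, hS⟩ := sum_ser ι hι ha' hb' hc' hds hy' hq2
  have hfixK : ∀ (σ : K' ≃ₐ[K] K') (z : PowerSeries K),
      PowerSeries.map (σ : K' →+* K') (PowerSeries.map f z) = PowerSeries.map f z := by
    intro σ z
    ext n
    rw [coeff_map, coeff_map]
    exact σ.commutes _
  have hinv : ∀ (σ : K' ≃ₐ[K] K') z, PowerSeries.map (σ : K' →+* K') (θ (σ.symm z)) = θ z := by
    intro σ z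
    have hinj : Function.Injective (ι.comp (PowerSeries.map (σ : K' →+* K'))) :=
      hι.comp (PowerSeries.map_injective _ (σ : K' →+* K').injective)
    let s : M →+* M := IsFractionRing.lift hinj
    have hs : ∀ g, s (ι g) = ι (PowerSeries.map (σ : K' →+* K') g) := fun g =>
      IsFractionRing.lift_algebraMap hinj g
    refine H.theta_inv hθ0 hι (S := .some _ _ h₂) ?_ σ (s := s) hs ?_ z
    · intro h h'
      obtain ⟨h₃, e⟩ := hS X Y h'
      rw [e, Affine.Point.some.injEq, hθX, hθY]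
      exact ⟨rfl, rfl⟩
    · intro h1 h2 h3
      obtain ⟨h4, h5⟩ := pmap_some (f := s) (ha := h1) (hb := h2) (hc := h3) h₂
      have sy : s (ι (y' + 1)) = ι (y' + 1) := by
        rw [hs, map_add, map_one, hfixK]
      have sX : s (ι PowerSeries.X) = ι PowerSeries.X := by
        rw [hs, PowerSeries.map_X]
      have sC : ∀ z : K, s (ι (C (f z))) = ι (C (f z)) := by
        intro z
        rw [hs, PowerSeries.map_C]
        congr 2
        exact σ.commutes z
      rw [h5, Affine.Point.some.injEq]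
      constructor
      · rw [map_add, map_div₀, map_mul, map_ofNat, map_pow, sy, sX, sC]
      · rw [map_div₀, map_Vv, map_pow, sy, sX, sC, sC]
  have hcoef : ∀ (z : K) (n : ℕ), ∃ r : K, f r = coeff n (θ (f z)) := by
    intro z n
    have h1 : coeff n (θ (f z)) ∈ Set.range (algebraMap K K') := by
      rw [IsGalois.mem_range_algebraMap_iff_fixed]
      intro σ
      have h2 := congrArg (coeff n) (hinv σ (f z))
      have h3 : σ.symm (f z) = f z := σ.symm.commutes z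
      rw [h3, coeff_map] at h2
      exact h2
    exact h1
  choose r hr using hcoef
  have hg : ∀ z, PowerSeries.map f (PowerSeries.mk (r z)) = θ (f z) := by
    intro z
    ext n
    rw [coeff_map, coeff_mk, hr]
  have hrt : ∀ z, Rt y' (θ z) := by
    intro z
    induction z using H.ind with
    | hX => rw [hθX]; exact rt_sX hq1 hy'
    | hY => rw [hθY]; exact rt_sY hq1 hy'
    | halg z hz => rw [hθ0 z hz]; exact Rt.cst _
    | hadd x y hx hy => rw [map_add]; exact hx.add hy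
    | hmul x y hx hy => rw [map_mul]; exact hx.mul hq1 hy
    | hinv x hx =>
      by_cases h0 : x = 0
      · rw [h0, inv_zero, map_zero, ← map_zero C]
        exact Rt.cst _
      · exact hx.inv hq1 (by rw [← map_mul, mul_inv_cancel₀ h0, map_one])
  refine ⟨θ, fun z => PowerSeries.mk (r z), hg, fun z => hθ0 _ (isAlgebraic_algebraMap z),
    fun z => ?_, fun z => ?_, fun z => ?_⟩
  · apply f.injective
    rw [← coeff_zero_eq_constantCoeff_apply, coeff_mk, hr, coeff_zero_eq_constantCoeff_apply, hθc]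
  · rw [coeff_mk]
    have h1 := H.theta_der hθ0 hθc (by rw [hθX]; exact c1_sX hy') hDk hDX (f z)
    rw [← h1]
    exact hr z 1
  · apply Rt.descend (K' := K')
    rw [← hf, hg]
    exact hrt _

lemma coeff_one_mul' {R : Type*} [CommRing R] (f g : PowerSeries R) :
    PowerSeries.coeff 1 (f * g) = PowerSeries.constantCoeff f * PowerSeries.coeff 1 g +
      PowerSeries.constantCoeff g * PowerSeries.coeff 1 f := by
  rw [PowerSeries.coeff_mul, Finset.Nat.antidiagonal_succ]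
  simp [mul_comm]

lemma cc_cP {R : Type*} [CommRing R] (P : Polynomial R) :
    PowerSeries.constantCoeff (cP P) = P.coeff 0 := by
  rw [← PowerSeries.coeff_zero_eq_constantCoeff_apply, cP_coeff]

open Polynomial in
/-- **A torsor gives a move.** -/
theorem TD.inst [DecidableEq K] {N : ℕ} (x : Fin N → K) (H : TD L a b c X Y)
    {E : Derivation Ω K K} {D : Derivation ℤ K' K'} (hE : ∀ z ∈ L, E z = 0)
    (hD : ∀ z, D (algebraMap K K' z) = algebraMap K K' (E z)) (hDX : D X = Y) :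
    ∃ μ : Mv K N, (∀ l, μ.d l = (-E) (x l)) ∧ (∀ (k : Type) [Field k] (c : k →+* Ω)
      (F : MvPolynomial (Fin N) k), MvPolynomial.eval₂ ((algebraMap Ω K).comp c) x F = 0 →
        μ.Ok ((algebraMap Ω K).comp c) F x) ∧
      (dc (μ.w ^ 2) μ.q₁ μ.q₂ μ.q₃ μ.q₄ ≠ 0 → ∀ h, ∀ n : ℕ, n ≠ 0 →
        n • (.some (xs μ.w μ.q₁ μ.q₂) (ys μ.w μ.q₁ μ.q₂ μ.q₃) h :
          Pt μ.q₂ (rb μ.w μ.q₁ μ.q₃ μ.q₄) (rc μ.w μ.q₁ μ.q₂ μ.q₃ μ.q₄)) ≠ 0) := by
  classical
  let EZ : Derivation ℤ K K := mkDer (fun z => E z) (by intro x y; simp) (by intro x y; simp)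
  obtain ⟨x₀, y₀, n, hn, heq, hx₀, hy₀⟩ := H.xi (E := EZ) (D := D) hE hD hDX
  have hEa : EZ (a : K) = 0 := hE _ a.2
  have hEb : EZ (b : K) = 0 := hE _ b.2
  obtain ⟨δ, hδ⟩ : ∃ δ : K, x₀ = -(a : K) - 2 * δ := ⟨-((a : K) + x₀) / 2, by ring⟩
  obtain ⟨q₂, hq₂⟩ : ∃ q₂ : K, q₂ = a + 3 * δ := ⟨_, rfl⟩
  obtain ⟨q₄, hq₄⟩ : ∃ q₄ : K, -4 * q₄ = b + 2 * a * δ + 3 * δ ^ 2 :=
    ⟨-((b : K) + 2 * a * δ + 3 * δ ^ 2) / 4, by ring⟩
  have hcc : y₀ ^ 2 - 4 * q₂ * q₄ = c + b * δ + a * δ ^ 2 + δ ^ 3 := by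
    rw [heq, hδ]
    linear_combination q₂ * hq₄ + ((b : K) + 2 * a * δ + 3 * δ ^ 2) * hq₂
  obtain ⟨y, hq, hy⟩ := exists_sqrt (cP (qpol 1 0 q₂ y₀ q₄)) (by
    rw [cc_cP]
    exact (qpol_coeff (1 : K) 0 q₂ y₀ q₄).1)
  have hDk : ∀ z, IsAlgebraic L z → D z = 0 := fun z hz => kill (E := EZ) hE hD hz
  obtain ⟨θ, g, hg, hθL, hgc, hg1, hgr⟩ := H.series hDk hDX hq₂ hq₄ hcc hy hq
  obtain ⟨A, A', B, B', hB0, hAB⟩ := Rt.common hq hy (g := fun l => g (x l)) fun l => hgr _
  have hy1 : PowerSeries.coeff 1 y = 0 := by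
    have h1 := congrArg (PowerSeries.coeff 1) hq
    rw [sq, coeff_one_mul', hy, cP_coeff, (qpol_coeff (1 : K) 0 q₂ y₀ q₄).2.1] at h1
    have h2 : 2 * PowerSeries.coeff 1 y = 0 := by linear_combination h1
    exact (mul_eq_zero.1 h2).resolve_left two_ne_zero
  have hds : dsc (a : K) (b : K) (c : K) ≠ 0 := by
    have h1 := map_dsc' (algebraMap L K) a b c
    have h2 : algebraMap L K (dsc a b c) ≠ 0 := (_root_.map_ne_zero _).2 H.disc
    rw [h1] at h2
    exact h2
  have hdc : dc (1 : K) 0 q₂ y₀ q₄ ≠ 0 := by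
    rw [dc_eq hq₂ hq₄ hcc]; exact hds
  have hg1' : ∀ z, PowerSeries.coeff 1 (g z) = (-E) z := by
    intro z
    apply (algebraMap K K').injective
    rw [hg1, hD, Derivation.neg_apply, map_neg]
  refine ⟨⟨1, 0, q₂, y₀, q₄, A, A', B, B', fun l => (-E) (x l)⟩, fun l => rfl, ?_, ?_⟩
  · intro k _ c' F hF
    refine ⟨one_ne_zero, ?_, ?_, ?_, ?_⟩
    · show B.coeff 0 + B'.coeff 0 * 1 ≠ 0
      rw [mul_one]; exact hB0
    · intro l
      show (A l).coeff 0 + (A' l).coeff 0 * 1 = x l * (B.coeff 0 + B'.coeff 0 * 1)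
      have h1 := congrArg PowerSeries.constantCoeff (hAB l)
      simp only [map_mul, map_add, cc_cP, hy, hgc] at h1
      exact h1.symm
    · show (Polynomial.X ^ 2 - C (qpol ((1 : K) ^ 2) 0 q₂ y₀ q₄)) ∣ hm _ F
          (fun l => C (A l) + C (A' l) * Polynomial.X) (C B + C B' * Polynomial.X)
      rw [one_pow]
      refine dvd_ser (fun S => qpol_not_sq hdc S) cP_inj hq ?_
      have h1 := hm_map (eval₂RingHom (cP (F := K)) y)
        ((C : K[X] →+* K[X][X]).comp ((C : K →+* K[X]).comp ((algebraMap Ω K).comp c'))) F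
        (fun l => C (A l) + C (A' l) * Polynomial.X) (C B + C B' * Polynomial.X)
      rw [coe_eval₂RingHom] at h1
      rw [h1, hm_eq (y := fun l => g (x l)), mul_eq_zero]
      · right
        apply PowerSeries.map_injective _ (algebraMap K K').injective
        rw [MvPolynomial.eval₂_comp_left, map_zero]
        have h2 := congrArg (θ.comp (algebraMap K K')) hF
        rw [MvPolynomial.eval₂_comp_left, map_zero] at h2
        rw [← h2]
        congr 1
        · ext1 z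
          simp only [RingHom.comp_apply, coe_eval₂RingHom, eval₂_C, cP_C, PowerSeries.map_C]
          exact (hθL ⟨algebraMap Ω K (c' z), L.algebraMap_mem _⟩).symm
        · funext l
          exact hg _
      · intro l
        simp only [eval₂_add, eval₂_mul, eval₂_C, eval₂_X]
        exact (hAB l).symm
    · intro l
      show 2 * 1 * ((B.coeff 0 + B'.coeff 0 * 1) * (-E) (x l)) = 2 * 1 *
        ((A l).coeff 1 + (A' l).coeff 1 * 1 - x l * (B.coeff 1 + B'.coeff 1 * 1)) +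
        ((A' l).coeff 0 - x l * B'.coeff 0) * 0
      have h1 := congrArg (PowerSeries.coeff 1) (hAB l)
      simp only [coeff_one_mul', map_add, map_mul, hy1, hg1', hgc, hy, cc_cP, cP_coeff] at h1
      linear_combination 2 * h1
  · intro _ h m hm
    have hy₀0 : y₀ ≠ 0 := by
      rintro rfl
      rw [map_zero] at hy₀
      have hn' : (n : K) ≠ 0 := by exact_mod_cast hn
      have h1 : 3 * x₀ ^ 2 + 2 * (a : K) * x₀ + (b : K) = 0 := by
        have h2 : (n : K) * (3 * x₀ ^ 2 + 2 * (a : K) * x₀ + (b : K)) = 0 := by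
          linear_combination (-2) * hy₀
        exact (mul_eq_zero.1 h2).resolve_left hn'
      exact hds (dsc_root (by rw [← heq]; ring) h1)
    have hxs : xs (1 : K) 0 q₂ = x₀ - δ := by
      rw [xs, hδ, hq₂]; ring
    have hys : ys (1 : K) 0 q₂ y₀ = y₀ := by
      rw [ys]; ring
    have hrb : rb (1 : K) 0 y₀ q₄ = b + 2 * a * δ + 3 * δ ^ 2 := by
      rw [rb, ← hq₄]; ring
    refine inf_of_deriv EZ (κ := n) ?_ h (by exact_mod_cast hn) ?_ ?_ ?_ m hm
    · show EZ (rb (1 : K) 0 y₀ q₄ - q₂ ^ 2 / 3) = 0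
      have e : rb (1 : K) 0 y₀ q₄ - q₂ ^ 2 / 3 = b - a ^ 2 / ((3 : ℕ) : K) := by
        rw [hrb, hq₂]; push_cast; ring
      rw [e, map_sub, der_div_nat, Derivation.leibniz_pow, hEa, hEb]
      simp
    · show ys (1 : K) 0 q₂ y₀ ≠ 0
      rw [hys]; exact hy₀0
    · show EZ (xs (1 : K) 0 q₂ + q₂ / 3) = n * ys (1 : K) 0 q₂ y₀
      have e : xs (1 : K) 0 q₂ + q₂ / 3 = x₀ + a / ((3 : ℕ) : K) := by
        rw [hxs, hq₂]; push_cast; ring
      rw [e, map_add, der_div_nat, hEa, hx₀, hys]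
      simp
    · show EZ (ys (1 : K) 0 q₂ y₀) = n * (3 * (xs (1 : K) 0 q₂ + q₂ / 3) ^ 2 +
        (rb (1 : K) 0 y₀ q₄ - q₂ ^ 2 / 3)) / 2
      rw [hys, hy₀, hxs, hrb, hq₂]
      ring

end Pool.Agent.Y742.GG
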