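import Pool.Agent.Y742.GG.Asm
import Pool.Agent.Y742.GG.TInst
import Pool.Agent.W572.Wrap

/-!
# Varieties with fibrations in curves of genus at most one (helper742)
-/

set_option autoImplicit false
set_option linter.unusedSectionVars false

open Pool.Agent.Y720.MZ MvPolynomial AlgebraicGeometry CategoryTheory

namespace Pool.Agent.Y742.GG

open Pool.Agent.W572 Pool.Agent.W572.G

/-- `x` is a generic point of the hypersurface `F = 0` over `Ω`, with coordinates in the field `K`:
the polynomials which vanish at `x` are the multiples of `F`, and `x` generates `K`. So `K` is the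
function field of the hypersurface. -/
structure IsGenericPoint {Ω K : Type*} [Field Ω] [Field K] [Algebra Ω K] {N : ℕ}
    (F : MvPolynomial (Fin N) Ω) (x : Fin N → K) : Prop where
  zero_iff : ∀ P : MvPolynomial (Fin N) Ω, aeval x P = 0 ↔ F ∣ P
  generates : IntermediateField.adjoin Ω (Set.range x) = ⊤

/-- `K` is, over the intermediate field `L`, the function field of a curve `w² = Q(t)` with `Q` of
degree at most four and not a constant times a square (so the curve is geometrically irreducible, of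
geometric genus at most one). For `Q = t` this is the rational function field `L(w)`. -/
def IsDoubleCoverOfLine {Ω K : Type*} [Field Ω] [Field K] [Algebra Ω K]
    (L : IntermediateField Ω K) : Prop :=
  ∃ (t w : K) (Q : Polynomial L), Transcendental L t ∧ w ^ 2 = Polynomial.aeval t Q ∧
    Q.natDegree ≤ 4 ∧ (¬ ∃ (c : L) (R : Polynomial L), Q = .C c * R ^ 2) ∧
    IntermediateField.adjoin L {t, w} = ⊤

/-- `K` is, over the intermediate field `L`, the function field of a torsor under an elliptic curve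
`E : y² = x³ + a x² + b x + c` over `L` (every smooth projective curve of genus one over `L` is such
a torsor, under its Jacobian). That is, there are a finite Galois extension `K'` of `K` and
coordinates `X, Y` of `K'` over the algebraic closure `L'` of `L` in `K'` with
`Y² = X³ + a X² + b X + c`, such that every automorphism of `K'` over `K` acts on the point `(X, Y)`
as the translation by a point of `E` with coordinates in `L'`. -/
def IsEllipticTorsor {Ω K : Type*} [Field Ω] [Field K] [Algebra Ω K]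
    (L : IntermediateField Ω K) : Prop :=
  ∃ (K' : Type) (_ : Field K') (_ : Algebra K K') (_ : DecidableEq K'),
    FiniteDimensional K K' ∧ IsGalois K K' ∧ ∃ (a b c : L) (X Y : K'), TD L a b c X Y

section

variable {Ω K : Type*} [Field Ω] [Field K] [Algebra Ω K] {L : IntermediateField Ω K}

/-- a nonzero derivation which kills the smaller field, normalised -/
lemma exists_norm [CharZero K] {t w : K} {Q : Polynomial L} (ht : Transcendental L t)
    (hw : w ^ 2 = Polynomial.aeval t Q) (hQ : ¬ ∃ (c : L) (R : Polynomial L), Q = .C c * R ^ 2)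
    (hgen : IntermediateField.adjoin L {t, w} = ⊤) {E : Derivation Ω K K} (hE : E ≠ 0)
    (hEL : ∀ a ∈ L, E a = 0) : ∃ D : Derivation Ω K K, (∀ a ∈ L, D a = 0) ∧ D t = 1 ∧
      ∀ E' : Derivation Ω K K, (∀ a ∈ L, E' a = 0) → ∃ c : K, E' = c • D := by
  have hEt : E t ≠ 0 := fun h => hE (der_zero ht hw hQ hgen E hEL h)
  refine ⟨(E t)⁻¹ • E, fun a ha => by rw [Derivation.smul_apply, hEL a ha, smul_zero], ?_, ?_⟩
  · rw [Derivation.smul_apply, smul_eq_mul, inv_mul_cancel₀ hEt]
  · intro E' hE'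
    refine ⟨E' t, ?_⟩
    have h1 : E' - E' t • ((E t)⁻¹ • E) = 0 := by
      apply der_zero ht hw hQ hgen
      · intro a ha
        rw [Derivation.sub_apply, Derivation.smul_apply, Derivation.smul_apply, hEL a ha,
          hE' a ha, smul_zero, smul_zero, sub_zero]
      · rw [Derivation.sub_apply, Derivation.smul_apply, Derivation.smul_apply, smul_eq_mul,
          smul_eq_mul, inv_mul_cancel₀ hEt, mul_one, sub_self]
    exact sub_eq_zero.1 h1

end

/-- **Main theorem.** -/
theorem main (k₀ : Type) [Field k₀] [CharZero k₀] (hk₀ : FG k₀) {N m : ℕ} (F : MvPolynomial (Fin N) k₀)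
    (hF : Irreducible (map (algebraMap k₀ (AlgebraicClosure k₀)) F))
    {K : Type*} [Field K] [Algebra (AlgebraicClosure k₀) K] {x : Fin N → K}
    (hx : IsGenericPoint (map (algebraMap k₀ (AlgebraicClosure k₀)) F) x)
    (L : Fin m → IntermediateField (AlgebraicClosure k₀) K)
    (hL : ∀ i, IsDoubleCoverOfLine (L i) ∨ IsEllipticTorsor (L i))
    (hgen : LieSubalgebra.lieSpan (AlgebraicClosure k₀) (Derivation (AlgebraicClosure k₀) K K)
      {D | ∃ i, ∀ a ∈ L i, D a = 0} = ⊤)
    {X : Scheme.{0}} (sX : X ⟶ Spec (.of k₀))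
    (f : (hypersurface F).PartialMap X) (hf : IsDominant f.hom)
    (hfk : f.hom ≫ sX = f.domain.ι ≫ hypersurfaceStr F) : PotentiallyDense sX := by
  classical
  have hcK : CharZero K := charZero_of_injective_algebraMap
    (algebraMap (AlgebraicClosure k₀) K).injective
  -- the fibrations with a derivation
  let J : Type := {i : Fin m // ∃ E : Derivation (AlgebraicClosure k₀) K K,
    E ≠ 0 ∧ ∀ a ∈ L i, E a = 0}
  have hJ : Finite J := Subtype.finite
  have hinst : ∀ i : J, ∃ (D : Derivation (AlgebraicClosure k₀) K K) (μ : Mv K N),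
      (∀ E' : Derivation (AlgebraicClosure k₀) K K, (∀ a ∈ L i.1, E' a = 0) →
        ∃ c : K, E' = c • D) ∧ (∀ l, μ.d l = D (x l)) ∧
      (∀ (k : Type) [Field k] (c : k →+* AlgebraicClosure k₀)
      (G : MvPolynomial (Fin N) k), eval₂ ((algebraMap (AlgebraicClosure k₀) K).comp c) x G = 0 →
        μ.Ok ((algebraMap (AlgebraicClosure k₀) K).comp c) G x) ∧
      (dc (μ.w ^ 2) μ.q₁ μ.q₂ μ.q₃ μ.q₄ ≠ 0 → ∀ h, ∀ n : ℕ, n ≠ 0 →
        n • (.some (xs μ.w μ.q₁ μ.q₂) (ys μ.w μ.q₁ μ.q₂ μ.q₃) h :
          Pt μ.q₂ (rb μ.w μ.q₁ μ.q₃ μ.q₄) (rc μ.w μ.q₁ μ.q₂ μ.q₃ μ.q₄)) ≠ 0) := by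
    rintro ⟨i, E, hE, hEL⟩
    rcases hL i with ⟨t, w, Q, ht, hw, hdeg, hQ, hg⟩ | ⟨K', _, _, _, hfin, hgal, a, b, c, X, Y, H⟩
    · obtain ⟨D, hD, hDt, hall⟩ := exists_norm ht hw hQ hg hE hEL
      obtain ⟨μ, h1, h2, h3⟩ := inst x ht hw hdeg hQ hg D hD hDt
      exact ⟨D, μ, hall, h1, h2, h3⟩
    · obtain ⟨E₁, D₁, hE₁, hD₁, hX, hall⟩ := H.norm hE hEL
      obtain ⟨μ, h1, h2, h3⟩ := H.inst x hE₁ hD₁ hX
      refine ⟨-E₁, μ, fun E' hE' => ?_, h1, h2, h3⟩
      obtain ⟨c, hc⟩ := hall E' hE'
      exact ⟨-c, by rw [hc, neg_smul_neg]⟩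
  choose D μ hall hd hOk hinf using hinst
  let e := Finite.equivFin J
  have hgen' : LieSubalgebra.lieSpan (AlgebraicClosure k₀)
      (Derivation (AlgebraicClosure k₀) K K)
      {E | ∃ i : Fin (Nat.card J), ∃ c : K, E = c • D (e.symm i)} = ⊤ := by
    rw [eq_top_iff, ← hgen]
    refine LieSubalgebra.lieSpan_le.2 ?_
    rintro E ⟨i, hi⟩
    by_cases hE : E = 0
    · rw [hE]
      exact LieSubalgebra.zero_mem _
    · let i' : J := ⟨i, E, hE, hi⟩
      obtain ⟨c, hc⟩ := hall i' E hi
      exact LieSubalgebra.subset_lieSpan ⟨e i', c, by rw [Equiv.symm_apply_apply]; exact hc⟩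
  obtain ⟨L', hL', hLd⟩ := asm k₀ hk₀ F hF hx.zero_iff hx.generates (fun i => D (e.symm i))
    (fun i => μ (e.symm i)) (fun i => hd _) (fun i => hOk _) (fun i => hinf _) hgen'
  let f' : (Spec (.of (MvPolynomial (Fin N) k₀ ⧸ Ideal.span {F}))).PartialMap X := f
  have hf' : IsDominant f'.hom := hf
  refine potentiallyDense_of_partialMap (MvPolynomial (Fin N) k₀ ⧸ Ideal.span {F}) L' ?_ sX f' hfk
  intro G₀ hG₀
  obtain ⟨G, rfl⟩ := Ideal.Quotient.mk_surjective G₀
  have hFG : ¬ F ∣ G := by
    intro h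
    exact hG₀ (Ideal.Quotient.eq_zero_iff_mem.mpr (Ideal.mem_span_singleton.mpr h))
  obtain ⟨y, hy1, hy2, hy3⟩ : ∃ y : Fin N → AlgebraicClosure k₀, (∀ l, y l ∈ L') ∧
      eval y (map (algebraMap k₀ (AlgebraicClosure k₀)) F) = 0 ∧
      eval y (map (algebraMap k₀ (AlgebraicClosure k₀)) G) ≠ 0 := by
    by_contra hcon
    push Not at hcon
    exact hFG (dvd_descent F G (hLd _ hcon))
  let y' : Fin N → L' := fun l => ⟨y l, hy1 l⟩
  have hev : ∀ H : MvPolynomial (Fin N) k₀, algebraMap L' (AlgebraicClosure k₀) (aeval y' H) =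
      eval y (map (algebraMap k₀ (AlgebraicClosure k₀)) H) := by
    intro H
    rw [MvPolynomial.eval_map, ← aeval_def, ← aeval_algebraMap_apply]
    rfl
  have hF0 : ∀ a ∈ Ideal.span {F}, aeval y' a = 0 := by
    intro a ha
    obtain ⟨b, rfl⟩ := Ideal.mem_span_singleton.mp ha
    have h1 : aeval y' F = 0 := by
      apply (algebraMap L' (AlgebraicClosure k₀)).injective
      rw [hev, hy2, map_zero]
    rw [map_mul, h1, zero_mul]
  refine ⟨Ideal.Quotient.liftₐ _ (aeval y') hF0, ?_⟩
  rw [Ideal.Quotient.liftₐ_apply]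
  change aeval y' G ≠ 0
  intro h
  apply hy3
  rw [← hev, h, map_zero]

end Pool.Agent.Y742.GG
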