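import Pool.Agent.H927R2.RD.T14
import Pool.Agent.H927R2.RD.T13
import Pool.Agent.H927R2.RD.T15a
import Pool.Agent.W552.Emb
import Pool.Agent.TH766.HP.T_RICH

/-!
# Finitely generated fields embed into `ℚ_p` (helper742)
-/

set_option autoImplicit false

open Pool.Agent.H927R2.RD

namespace Pool.Agent.Y742.GG

/-- the field `k` is finitely generated (over its prime field) -/
def FG (k : Type) [Field k] [CharZero k] : Prop :=
  ∃ S : Finset k, IntermediateField.adjoin ℚ (S : Set k) = ⊤

lemma FG.countable {k : Type} [Field k] [CharZero k] (h : FG k) : Countable k := by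
  obtain ⟨S, hS⟩ := h
  have h1 : Cardinal.mk (IntermediateField.adjoin ℚ (S : Set k)) ≤ Cardinal.aleph0 := by
    have h2 : (IntermediateField.adjoin ℚ (S : Set k)).toSubfield =
        Subfield.closure (S : Set k) := by
      rw [IntermediateField.adjoin_toSubfield]
      apply le_antisymm
      · rw [Subfield.closure_le]
        rintro x (⟨q, rfl⟩ | hx)
        · rw [eq_ratCast]
          exact SubfieldClass.ratCast_mem _ q
        · exact Subfield.subset_closure hx
      · exact Subfield.closure_mono Set.subset_union_right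
    have h3 : Cardinal.mk (IntermediateField.adjoin ℚ (S : Set k)) =
        Cardinal.mk (Subfield.closure (S : Set k)) := by
      rw [← h2]; rfl
    rw [h3]
    refine (Subfield.cardinalMk_closure_le_max _).trans ?_
    exact max_le (Cardinal.le_aleph0_iff_set_countable.2 S.countable_toSet) le_rfl
  rw [hS] at h1
  have h2 : Countable (⊤ : IntermediateField ℚ k) := Cardinal.mk_le_aleph0_iff.1 h1
  exact (IntermediateField.topEquiv (F := ℚ) (E := k)).symm.injective.countable

/-- finite extensions of finitely generated fields -/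
lemma FG.of_finite {k L : Type} [Field k] [CharZero k] [Field L] [CharZero L] [Algebra k L]
    [FiniteDimensional k L] (h : FG k) : FG L := by
  classical
  obtain ⟨S, hS⟩ := h
  let b := Module.finBasis k L
  refine ⟨S.image (algebraMap k L) ∪ Finset.univ.image b, ?_⟩
  rw [eq_top_iff]
  intro x _
  have hk : ∀ a : k, algebraMap k L a ∈ IntermediateField.adjoin ℚ
      ((S.image (algebraMap k L) ∪ Finset.univ.image b : Finset L) : Set L) := by
    intro a
    have ha : a ∈ IntermediateField.adjoin ℚ (S : Set k) := by rw [hS]; trivial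
    let f : k →ₐ[ℚ] L := (algebraMap k L).toRatAlgHom
    have h1 : f a ∈ (IntermediateField.adjoin ℚ (S : Set k)).map f := ⟨a, ha, rfl⟩
    rw [IntermediateField.adjoin_map] at h1
    refine IntermediateField.adjoin.mono ℚ _ _ ?_ h1
    rintro _ ⟨y, hy, rfl⟩
    rw [Finset.coe_union, Finset.coe_image]
    exact Or.inl ⟨y, hy, rfl⟩
  rw [← b.sum_repr x]
  refine sum_mem fun i _ => ?_
  rw [Algebra.smul_def]
  refine mul_mem (hk _) (IntermediateField.subset_adjoin _ _ ?_)
  rw [Finset.coe_union, Finset.coe_image, Finset.coe_image]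
  exact Or.inr ⟨i, by simp, rfl⟩

lemma fg_of_numberField (k : Type) [Field k] [NumberField k] : FG k := by
  have h : FG ℚ := ⟨∅, by
    rw [eq_top_iff]
    intro x _
    exact IntermediateField.algebraMap_mem _ x⟩
  exact h.of_finite

/-- **The theorem of Cassels.** -/
theorem exists_emb_fg (L : Type) [Field L] [CharZero L] (hL : FG L) :
    ∃ (p : ℕ) (_ : Fact p.Prime), Nonempty (L →+* ℚ_[p]) := by
  classical
  have hc := hL.countable
  obtain ⟨S, hS⟩ := hL
  obtain ⟨φ⟩ := Pool.Agent.W552.exists_hom_complex L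
  set s : Finset ℂ := S.image φ with hs
  suffices h : ∃ (p : ℕ) (_ : Fact p.Prime), Nonempty (Subfield.closure (s : Set ℂ) →+* ℚ_[p]) by
    obtain ⟨p, hp, ⟨e⟩⟩ := h
    refine ⟨p, hp, ⟨e.comp (φ.codRestrict (Subfield.closure (s : Set ℂ)) fun x => ?_)⟩⟩
    have hx : x ∈ IntermediateField.adjoin ℚ (S : Set L) := by rw [hS]; trivial
    induction hx using IntermediateField.adjoin_induction with
    | mem y hy =>
      apply Subfield.subset_closure
      rw [hs, Finset.coe_image]
      exact ⟨y, hy, rfl⟩
    | algebraMap q =>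
      rw [eq_ratCast, map_ratCast]
      exact SubfieldClass.ratCast_mem _ q
    | add y z _ _ hy hz => rw [map_add]; exact add_mem hy hz
    | inv y _ hy => rw [map_inv₀]; exact inv_mem hy
    | mul y z _ _ hy hz => rw [map_mul]; exact mul_mem hy hz
  obtain ⟨r, t, θ, P, u, v, g, h, ht, hg, hh, hθ, hP, hbez, hs⟩ := exists_presentation s
  obtain ⟨a, ha⟩ := T15.exists_eval_ne (g * h) (mul_ne_zero hg hh)
  rw [map_mul] at ha
  have hga : MvPolynomial.eval a g ≠ 0 := left_ne_zero_of_mul ha
  have hha : MvPolynomial.eval a h ≠ 0 := right_ne_zero_of_mul ha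
  have hinj := T15.toAdj_injective ht
  have hgt : toAdj t g ≠ 0 := by
    intro h0
    exact hg (hinj (by rw [h0, map_zero]))
  have hnat : P.natDegree = (minpoly (IntermediateField.adjoin ℚ (Set.range t)) θ).natDegree := by
    rw [← Polynomial.natDegree_map_eq_of_injective hinj, hP, Polynomial.natDegree_C_mul hgt]
  have hlead : P.leadingCoeff = g := by
    apply hinj
    rw [← Polynomial.leadingCoeff_map_of_injective hinj, hP, Polynomial.leadingCoeff_mul,
      Polynomial.leadingCoeff_C, (minpoly.monic hθ).leadingCoeff, mul_one]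
  have hdeg : 0 < (P.map (MvPolynomial.eval a)).natDegree := by
    rw [Polynomial.natDegree_map_of_leadingCoeff_ne_zero _ (by rw [hlead]; exact hga), hnat]
    exact minpoly.natDegree_pos hθ
  have hb : u.map (MvPolynomial.eval a) * P.map (MvPolynomial.eval a) +
      v.map (MvPolynomial.eval a) * Polynomial.derivative (P.map (MvPolynomial.eval a)) =
      Polynomial.C (MvPolynomial.eval a h) := by
    rw [Polynomial.derivative_map, ← Polynomial.map_mul, ← Polynomial.map_mul,
      ← Polynomial.map_add, hbez, Polynomial.map_C]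
  obtain ⟨p, hp, hlt, ⟨b, hb1⟩, -⟩ := Pool.Agent.TH766.HP.TRICH.main ∅
    (MvPolynomial.eval a h).natAbs (by simp) (P.map (MvPolynomial.eval a)) hdeg
  obtain ⟨t', ht', ht'a⟩ := exists_indep p r a
  refine ⟨p, hp, T15.core ht hg hθ hP hs a hb1 ?_ t' ht' ht'a⟩
  intro hb2
  have h1 := congrArg (Polynomial.eval b) hb
  rw [Polynomial.eval_add, Polynomial.eval_mul, Polynomial.eval_mul, Polynomial.eval_C] at h1
  have h2 : (p : ℤ) ∣ MvPolynomial.eval a h := by
    rw [← h1]
    exact dvd_add (Dvd.dvd.mul_left hb1 _) (Dvd.dvd.mul_left hb2 _)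
  have h3 := Int.natAbs_dvd_natAbs.2 h2
  rw [Int.natAbs_natCast] at h3
  have h4 := Nat.le_of_dvd (Int.natAbs_pos.2 hha) h3
  omega

end Pool.Agent.Y742.GG
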