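import Pool.Agent.W572.G.Elim
import Pool.Agent.W572.G.SD
import Pool.Agent.Y742.GG.Fg

/-!
# Generic `p`-adic points of hypersurfaces (helper742)
-/

set_option autoImplicit false

open MvPolynomial Filter Topology

namespace Pool.Agent.Y742.GG

section fib

variable {k : Type*} [Field k] {N : ℕ} (l₀ : Fin N)

/-- restriction of a polynomial to a line -/
noncomputable def fib (q : Fin N → k) (F : MvPolynomial (Fin N) k) : Polynomial k :=
  eval₂ Polynomial.C (Function.update (fun l => Polynomial.C (q l)) l₀ Polynomial.X) F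

lemma eval_fib {R : Type*} [CommRing R] (σ : k →+* R) (q : Fin N → k)
    (F : MvPolynomial (Fin N) k) (t : R) :
    (fib l₀ q F).eval₂ σ t = eval₂ σ (Function.update (fun l => σ (q l)) l₀ t) F := by
  have h1 := eval₂_comp_left (Polynomial.eval₂RingHom σ t) Polynomial.C
    (Function.update (fun l => Polynomial.C (q l)) l₀ Polynomial.X) F
  rw [Polynomial.coe_eval₂RingHom] at h1
  rw [fib, h1]
  congr 1
  · ext a; simp
  · funext l
    rcases eq_or_ne l l₀ with rfl | h
    · simp
    · simp [Function.update_of_ne h]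

lemma derivative_fib (q : Fin N → k) (F : MvPolynomial (Fin N) k) :
    (fib l₀ q F).derivative = fib l₀ q (pderiv l₀ F) := by
  classical
  induction F using MvPolynomial.induction_on with
  | C a => simp [fib]
  | add p r hp hr =>
    simp only [fib, eval₂_add, map_add] at hp hr ⊢
    rw [hp, hr]
  | mul_X p i hp =>
    simp only [fib, eval₂_mul, eval₂_X, Polynomial.derivative_mul, Derivation.leibniz,
      smul_eq_mul, eval₂_add, pderiv_X] at hp ⊢
    rw [hp]
    rcases eq_or_ne i l₀ with rfl | h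
    · simp
      ring
    · simp [h]
      ring

end fib

section ift

variable {L : Type*} [NontriviallyNormedField L] [CompleteSpace L] {N : ℕ}

/-- the implicit function theorem -/
theorem ift (F : MvPolynomial (Fin N) L) (l₀ : Fin N) {X : Fin N → L} (hX : eval X F = 0)
    (hd : eval X (pderiv l₀ F) ≠ 0) {U : Set (Fin N → L)} (hU : U ∈ 𝓝 X) :
    ∃ V ∈ 𝓝 X, ∀ Y ∈ V, ∃ X' ∈ U, (∀ l, l ≠ l₀ → X' l = Y l) ∧ eval X' F = 0 := by
  classical
  -- the map
  set Φ : (Fin N → L) → (Fin N → L) := fun Y l => if l = l₀ then eval Y F else Y l with hΦ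
  set Φ' : (Fin N → L) →L[L] (Fin N → L) := ContinuousLinearMap.pi fun l =>
    if l = l₀ then ∑ j, eval X (pderiv j F) • (ContinuousLinearMap.proj j : (Fin N → L) →L[L] L)
    else ContinuousLinearMap.proj l with hΦ'
  have hder : HasStrictFDerivAt Φ Φ' X := by
    rw [hasStrictFDerivAt_pi']
    intro l
    have e : (ContinuousLinearMap.proj l).comp Φ' = if l = l₀ then
        ∑ j, eval X (pderiv j F) • (ContinuousLinearMap.proj j : (Fin N → L) →L[L] L)
        else ContinuousLinearMap.proj l := by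
      ext v
      simp [hΦ']
    rw [e]
    by_cases hl : l = l₀
    · simp only [hΦ, hl, if_true]
      exact W572.G.strict_poly L F X
    · simp only [hΦ, hl, if_false]
      exact hasStrictFDerivAt_apply l X
  have hsurj : Φ'.range = ⊤ := by
    rw [LinearMap.range_eq_top]
    intro w
    refine ⟨fun l => if l = l₀ then (w l₀ - ∑ j ∈ Finset.univ.erase l₀,
      eval X (pderiv j F) * w j) / eval X (pderiv l₀ F) else w l, ?_⟩
    funext l
    by_cases hl : l = l₀
    · subst hl
      simp only [hΦ', ContinuousLinearMap.coe_coe, ContinuousLinearMap.coe_pi', if_true,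
        _root_.sum_apply, _root_.smul_apply, ContinuousLinearMap.proj_apply, smul_eq_mul]
      rw [← Finset.add_sum_erase _ _ (Finset.mem_univ l)]
      simp only [if_true]
      have e : ∀ c : L, ∑ j ∈ Finset.univ.erase l, eval X (pderiv j F) *
          (if j = l then c else w j) = ∑ j ∈ Finset.univ.erase l, eval X (pderiv j F) * w j := by
        intro c
        refine Finset.sum_congr rfl fun j hj => ?_
        rw [if_neg (Finset.ne_of_mem_erase hj)]
      rw [mul_div_cancel₀ _ hd, e]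
      ring
    · simp [hΦ', hl]
  have hmap := hder.map_nhds_eq_of_surj hsurj
  have h1 : Φ '' U ∈ 𝓝 (Φ X) := by
    rw [← hmap]
    exact image_mem_map hU
  -- the projection
  set π : (Fin N → L) → (Fin N → L) := fun Y => Function.update Y l₀ 0 with hπ
  have hπX : π X = Φ X := by
    funext l
    by_cases hl : l = l₀
    · subst hl; simp [hπ, hΦ, hX]
    · simp [hπ, hΦ, hl]
  have hπc : Continuous π := continuous_id.update l₀ continuous_const
  have h2 : π ⁻¹' (Φ '' U) ∈ 𝓝 X := hπc.continuousAt.preimage_mem_nhds (by rw [hπX]; exact h1)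
  refine ⟨_, h2, fun Y hY => ?_⟩
  obtain ⟨X', hX', he⟩ := hY
  refine ⟨X', hX', fun l hl => ?_, ?_⟩
  · have := congrFun he l
    simpa [hΦ, hπ, hl] using this
  · have := congrFun he l₀
    simpa [hΦ, hπ] using this

end ift

section points

/-- an irreducible polynomial does not divide its derivatives -/
lemma not_dvd_pderiv {k : Type*} [Field k] {N : ℕ} {F : MvPolynomial (Fin N) k} {l₀ : Fin N}
    (hl : pderiv l₀ F ≠ 0) : ¬ F ∣ pderiv l₀ F := by
  rintro ⟨G, hG⟩
  have hF0 : F ≠ 0 := by rintro rfl; simp at hl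
  have hG0 : G ≠ 0 := by rintro rfl; rw [mul_zero] at hG; exact hl hG
  have h1 := totalDegree_mul_of_isDomain hF0 hG0
  rw [← hG] at h1
  obtain ⟨m, hm⟩ : (pderiv l₀ F).support.Nonempty := by
    rw [Finset.nonempty_iff_ne_empty, Ne, support_eq_empty]; exact hl
  have h2 : (pderiv l₀ F).totalDegree < F.totalDegree := by
    have hb : ∀ m ∈ (pderiv l₀ F).support, (m.sum fun _ e => e) + 1 ≤ F.totalDegree := by
      intro m hm
      rw [mem_support_iff, coeff_pderiv] at hm
      have h1 : coeff (m + Finsupp.single l₀ 1) F ≠ 0 := left_ne_zero_of_mul hm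
      have h2 := (le_totalDegree (mem_support_iff.mpr h1))
      rw [Finsupp.sum_add_index' (by simp) (by intros; simp)] at h2
      rw [Finsupp.sum_single_index (by simp)] at h2
      exact h2
    have hpos : 0 < F.totalDegree := lt_of_lt_of_le (Nat.succ_pos _) (hb m hm)
    rw [totalDegree, Finset.sup_lt_iff (by simpa using hpos)]
    intro m hm
    exact hb m hm
  omega

variable {p : ℕ} [hp : Fact p.Prime]

lemma denseRange_rat : DenseRange ((↑) : ℚ → ℚ_[p]) := Padic.denseRange_ratCast p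

/-- nonzero polynomials do not vanish on open sets -/
lemma dense_ne {N : ℕ} {P : MvPolynomial (Fin N) ℚ_[p]} (hP : P ≠ 0) :
    Dense {X : Fin N → ℚ_[p] | eval X P ≠ 0} := by
  rw [dense_iff_inter_open]
  intro U hU ⟨X, hX⟩
  by_contra hcon
  rw [Set.not_nonempty_iff_eq_empty] at hcon
  apply hP
  obtain ⟨ε, hε, hb⟩ := Metric.isOpen_iff.1 hU X hX
  refine funext_set (fun l => Metric.ball (X l) ε) (fun l => ?_) fun Y hY => ?_
  · exact infinite_of_mem_nhds (X l) (Metric.ball_mem_nhds _ hε)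
  · rw [map_zero]
    by_contra h0
    have : Y ∈ U ∩ {X : Fin N → ℚ_[p] | eval X P ≠ 0} := by
      refine ⟨hb ?_, h0⟩
      rw [Metric.mem_ball, dist_pi_lt_iff hε]
      intro l
      exact hY l (Set.mem_univ _)
    rw [hcon] at this
    exact this

end points

/-- **Generic points of hypersurfaces in `ℚ_p`.** -/
theorem exists_generic {k : Type} [Field k] [CharZero k] (hk : FG k) {N : ℕ}
    {F : MvPolynomial (Fin N) k} (hF : Irreducible F) {l₀ : Fin N} (hl : pderiv l₀ F ≠ 0) :
    ∃ (p : ℕ) (_ : Fact p.Prime) (σ : k →+* ℚ_[p]) (X₀ : Fin N → ℚ_[p]),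
      (∀ P, eval₂ σ X₀ P = 0 ↔ F ∣ P) ∧ ∀ U ∈ 𝓝 X₀, ∃ X ∈ U, eval₂ σ X F = 0 ∧
        ∀ l, ∃ f : Polynomial k, f ≠ 0 ∧ f.eval₂ σ (X l) = 0 := by
  classical
  obtain ⟨G, hG, A, B, hAB⟩ := W572.G.exists_elim F (pderiv l₀ F) l₀ hF hl (not_dvd_pderiv hl)
  have hG' : rename Subtype.val G ≠ 0 := by
    rw [Ne, map_eq_zero_iff _ (rename_injective _ Subtype.val_injective)]; exact hG
  obtain ⟨q, hq⟩ : ∃ q : Fin N → k, eval q (rename Subtype.val G * pderiv l₀ F) ≠ 0 := by
    by_contra hcon
    push Not at hcon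
    exact (mul_ne_zero hG' hl) (MvPolynomial.funext fun q => by rw [hcon q, map_zero])
  rw [map_mul] at hq
  have hq1 := left_ne_zero_of_mul hq
  have hq2 := right_ne_zero_of_mul hq
  -- a root
  have hfib : (fib l₀ q F).degree ≠ 0 := by
    intro h0
    have h1 : (fib l₀ q F).derivative = 0 := by
      rw [Polynomial.eq_C_of_degree_eq_zero h0, Polynomial.derivative_C]
    rw [derivative_fib] at h1
    apply hq2
    have h2 := eval_fib l₀ (RingHom.id k) q (pderiv l₀ F) (q l₀)
    rw [h1, Polynomial.eval₂_zero] at h2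
    have h3 : Function.update (fun l => RingHom.id k (q l)) l₀ (q l₀) = q := by
      funext l
      rcases eq_or_ne l l₀ with rfl | h
      · simp
      · simp [Function.update_of_ne h]
    rw [h3] at h2
    rw [← MvPolynomial.eval₂_id]
    exact h2.symm
  obtain ⟨ζ, hζ⟩ := IsAlgClosed.exists_eval₂_eq_zero (algebraMap k (AlgebraicClosure k))
    (fib l₀ q F) hfib
  set L := IntermediateField.adjoin k {ζ} with hL
  have hfd : FiniteDimensional k L :=
    IntermediateField.adjoin.finiteDimensional (Algebra.IsIntegral.isIntegral ζ)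
  have hcL : CharZero L := charZero_of_injective_algebraMap (algebraMap k L).injective
  obtain ⟨p, hp, ⟨e⟩⟩ := exists_emb_fg L hk.of_finite
  set σ : k →+* ℚ_[p] := e.comp (algebraMap k L) with hσ
  set z : L := ⟨ζ, IntermediateField.mem_adjoin_simple_self k ζ⟩ with hz
  have hz0 : (fib l₀ q F).eval₂ (algebraMap k L) z = 0 := by
    apply (algebraMap L (AlgebraicClosure k)).injective
    rw [map_zero, Polynomial.hom_eval₂]
    exact hζ
  set X₁ : Fin N → ℚ_[p] := Function.update (fun l => σ (q l)) l₀ (e z) with hX₁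
  have hX₁F : eval₂ σ X₁ F = 0 := by
    rw [hX₁, ← eval_fib, hσ, ← Polynomial.hom_eval₂, hz0, map_zero]
  have hrn : ∀ (Y Y' : Fin N → ℚ_[p]) (G : MvPolynomial {l // l ≠ l₀} k),
      (∀ l, l ≠ l₀ → Y l = Y' l) → eval₂ σ Y (rename Subtype.val G) =
        eval₂ σ Y' (rename Subtype.val G) := by
    intro Y Y' G h
    rw [eval₂_rename, eval₂_rename]
    congr 1
    funext l
    exact h l l.2
  have hX₁d : eval₂ σ X₁ (pderiv l₀ F) ≠ 0 := by
    intro h0
    have h1 : eval₂ σ X₁ (rename Subtype.val G) = 0 := by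
      rw [hAB, eval₂_add, eval₂_mul, eval₂_mul, hX₁F, h0]; ring
    rw [hrn X₁ (fun l => σ (q l)) G (fun l h => by rw [hX₁, Function.update_of_ne h])] at h1
    have h2 : eval₂ σ (fun l => σ (q l)) (rename Subtype.val G) =
        σ (eval q (rename Subtype.val G)) := by
      rw [← MvPolynomial.eval₂_id (g := q), eval₂_comp_left]
      rfl
    rw [h2] at h1
    exact hq1 ((map_eq_zero σ).1 h1)
  have hev : ∀ (X : Fin N → ℚ_[p]) (P : MvPolynomial (Fin N) k),
      eval X (map σ P) = eval₂ σ X P := fun X P => eval_map _ _ _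
  -- the points near a smooth point
  have hcd : Continuous fun X : Fin N → ℚ_[p] => eval₂ σ X (pderiv l₀ F) := by
    simp only [← hev]
    exact MvPolynomial.continuous_eval _
  have hift : ∀ X : Fin N → ℚ_[p], eval₂ σ X F = 0 → eval₂ σ X (pderiv l₀ F) ≠ 0 →
      ∀ U ∈ 𝓝 X, ∃ V ∈ 𝓝 X, ∀ Y ∈ V, ∃ X' ∈ U, (∀ l, l ≠ l₀ → X' l = Y l) ∧
        eval₂ σ X' F = 0 ∧ eval₂ σ X' (pderiv l₀ F) ≠ 0 := by
    intro X h1 h2 U hU
    have hU' : U ∩ {X' | eval₂ σ X' (pderiv l₀ F) ≠ 0} ∈ 𝓝 X :=
      inter_mem hU ((hcd.tendsto X).eventually_ne h2)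
    obtain ⟨V, hV, hV'⟩ := ift (map σ F) l₀ (X := X) (by rw [hev]; exact h1)
      (by rw [pderiv_map, hev]; exact h2) hU'
    refine ⟨V, hV, fun Y hY => ?_⟩
    obtain ⟨X', ⟨h3, h3'⟩, h4, h5⟩ := hV' Y hY
    exact ⟨X', h3, h4, by rw [← hev]; exact h5, h3'⟩
  -- countability
  have hck : Countable k := hk.countable
  have hcP : Countable (MvPolynomial {l // l ≠ l₀} k) := by
    rw [← Cardinal.mk_le_aleph0_iff]
    refine MvPolynomial.cardinalMk_le_max.trans ?_
    simp only [max_le_iff, le_refl, and_true]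
    exact ⟨Cardinal.mk_le_aleph0_iff.2 hck, Cardinal.mk_le_aleph0⟩
  have hdense : Dense (⋂ P : {P : MvPolynomial {l // l ≠ l₀} k // P ≠ 0},
      {Y : Fin N → ℚ_[p] | eval Y (map σ (rename Subtype.val P.1)) ≠ 0}) := by
    refine dense_iInter_of_isOpen (fun P => ?_) fun P => ?_
    · exact isOpen_compl_singleton.preimage (MvPolynomial.continuous_eval _)
    · apply dense_ne
      rw [Ne, map_eq_zero_iff _ (map_injective _ σ.injective),
        map_eq_zero_iff _ (rename_injective _ Subtype.val_injective)]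
      exact P.2
  obtain ⟨V, hV, hV'⟩ := hift X₁ hX₁F hX₁d Set.univ univ_mem
  obtain ⟨Y, hYV, hYd⟩ := mem_closure_iff_nhds.1 (hdense X₁) V hV
  obtain ⟨X₀, -, hXY, hXF, hXd⟩ := hV' Y hYV
  refine ⟨p, hp, σ, X₀, fun P => ⟨fun h0 => ?_, ?_⟩, fun U hU => ?_⟩
  · by_contra hFP
    obtain ⟨G', hG', A', B', hAB'⟩ := W572.G.exists_elim F P l₀ hF hl hFP
    have h1 := Set.mem_iInter.1 hYd ⟨G', hG'⟩
    apply h1
    show eval Y (map σ (rename Subtype.val G')) = 0
    rw [hev, ← hrn X₀ Y G' hXY, hAB', eval₂_add, eval₂_mul, eval₂_mul, hXF, h0]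
    ring
  · rintro ⟨Q, rfl⟩
    rw [eval₂_mul, hXF, zero_mul]
  · obtain ⟨V, hV, hV'⟩ := hift X₀ hXF hXd U hU
    obtain ⟨_, hYV, y, rfl⟩ := mem_closure_iff_nhds.1
      ((DenseRange.piMap (fun _ : Fin N => denseRange_rat (p := p))) X₀) V hV
    obtain ⟨X, hXU, hXY', hXF', hXd'⟩ := hV' _ hYV
    have hXe : X = Function.update (fun l => σ ((y l : ℚ) : k)) l₀ (X l₀) := by
      funext l
      rcases eq_or_ne l l₀ with rfl | h
      · simp
      · rw [Function.update_of_ne h, hXY' l h]
        simp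
    refine ⟨X, hXU, hXF', fun l => ?_⟩
    rcases eq_or_ne l l₀ with rfl | h
    · refine ⟨fib l (fun l => ((y l : ℚ) : k)) F, ?_, ?_⟩
      · intro h0
        apply hXd'
        have h1 := derivative_fib l (fun l => ((y l : ℚ) : k)) F
        rw [h0, Polynomial.derivative_zero] at h1
        rw [hXe, ← eval_fib, ← h1, Polynomial.eval₂_zero]
      · rw [eval_fib, ← hXe]
        exact hXF'
    · refine ⟨Polynomial.X - Polynomial.C ((y l : ℚ) : k), Polynomial.X_sub_C_ne_zero _, ?_⟩
      rw [hXY' l h]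
      simp

end Pool.Agent.Y742.GG
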