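import Pool.Agent.Y742.GG.Loc
import Pool.Agent.W572.Density

/-!
# Derivations of a function field and stable ideals (helper742)
-/

set_option autoImplicit false

open MvPolynomial

namespace Pool.Agent.Y742.GG

variable {Ω K : Type*} [Field Ω] [Field K] [Algebra Ω K] {N : ℕ} (x : Fin N → K)

/-- the polynomial derivation `E` lifts `h D` -/
def Lft (E : Derivation Ω (MvPolynomial (Fin N) Ω) (MvPolynomial (Fin N) Ω))
    (D : Derivation Ω K K) (h : MvPolynomial (Fin N) Ω) : Prop :=
  ∀ P, aeval x (E P) = aeval x h * D (aeval x P)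

variable {x}

lemma lft_of {E : Derivation Ω (MvPolynomial (Fin N) Ω) (MvPolynomial (Fin N) Ω)}
    {D : Derivation Ω K K} {h : MvPolynomial (Fin N) Ω}
    (H : ∀ l, aeval x (E (X l)) = aeval x h * D (x l)) : Lft x E D h := by
  intro P
  induction P using MvPolynomial.induction_on with
  | C a =>
    rw [derivation_C, map_zero, algHom_C, Derivation.map_algebraMap, mul_zero]
  | add p q hp hq => simp only [map_add, hp, hq, mul_add]
  | mul_X p i hp =>
    simp only [Derivation.leibniz, map_add, map_mul, smul_eq_mul, hp, H, aeval_X]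
    ring

variable (x) in
/-- the derivations with a lift which stabilises a family of ideals -/
def LK (J : Set (Ideal (MvPolynomial (Fin N) Ω))) : LieSubalgebra Ω (Derivation Ω K K) where
  carrier := {D | ∃ (h : MvPolynomial (Fin N) Ω)
    (E : Derivation Ω (MvPolynomial (Fin N) Ω) (MvPolynomial (Fin N) Ω)), aeval x h ≠ 0 ∧
    Lft x E D h ∧ ∀ I ∈ J, ∀ g ∈ I, E g ∈ I}
  zero_mem' := ⟨1, 0, by simp, fun P => by simp, fun I _ g _ => by simp⟩
  add_mem' := by
    rintro D₁ D₂ ⟨h₁, E₁, n₁, l₁, s₁⟩ ⟨h₂, E₂, n₂, l₂, s₂⟩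
    refine ⟨h₁ * h₂, h₂ • E₁ + h₁ • E₂, by rw [map_mul]; exact mul_ne_zero n₁ n₂, ?_, ?_⟩
    · intro P
      simp only [Derivation.add_apply, Derivation.smul_apply, smul_eq_mul, map_add, map_mul,
        l₁ P, l₂ P]
      ring
    · intro I hI g hg
      simp only [Derivation.add_apply, Derivation.smul_apply, smul_eq_mul]
      exact I.add_mem (I.mul_mem_left _ (s₁ I hI g hg)) (I.mul_mem_left _ (s₂ I hI g hg))
  smul_mem' := by
    rintro c D ⟨h, E, n, l, s⟩
    refine ⟨h, c • E, n, ?_, ?_⟩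
    · intro P
      simp only [Derivation.smul_apply, map_smul, l P, mul_smul_comm]
    · intro I hI g hg
      simp only [Derivation.smul_apply]
      rw [MvPolynomial.smul_eq_C_mul]
      exact I.mul_mem_left _ (s I hI g hg)
  lie_mem' := by
    rintro D₁ D₂ ⟨h₁, E₁, n₁, l₁, s₁⟩ ⟨h₂, E₂, n₂, l₂, s₂⟩
    refine ⟨h₁ * h₂ * (h₁ * h₂), (h₁ * h₂) • ⁅E₁, E₂⁆ - (h₁ * E₁ h₂) • E₂ + (h₂ * E₂ h₁) • E₁,
      by simp only [map_mul]; exact mul_ne_zero (mul_ne_zero n₁ n₂) (mul_ne_zero n₁ n₂), ?_, ?_⟩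
    · intro P
      simp only [Derivation.add_apply, Derivation.sub_apply, Derivation.smul_apply, smul_eq_mul,
        map_add, map_sub, map_mul, Derivation.commutator_apply, l₁ _, l₂ _,
        Derivation.leibniz]
      ring
    · intro I hI g hg
      simp only [Derivation.add_apply, Derivation.sub_apply, Derivation.smul_apply, smul_eq_mul,
        Derivation.commutator_apply]
      have a1 := s₁ I hI g hg
      have a2 := s₂ I hI g hg
      exact I.add_mem (I.sub_mem (I.mul_mem_left _ (I.sub_mem (s₁ I hI _ a2) (s₂ I hI _ a1)))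
        (I.mul_mem_left _ a2)) (I.mul_mem_left _ a1)

lemma mem_LK {J : Set (Ideal (MvPolynomial (Fin N) Ω))} {D : Derivation Ω K K} :
    D ∈ LK x J ↔ ∃ (h : MvPolynomial (Fin N) Ω)
    (E : Derivation Ω (MvPolynomial (Fin N) Ω) (MvPolynomial (Fin N) Ω)), aeval x h ≠ 0 ∧
    Lft x E D h ∧ ∀ I ∈ J, ∀ g ∈ I, E g ∈ I := Iff.rfl

lemma LK_smul (hx : ∀ f : K, ∃ P Q : MvPolynomial (Fin N) Ω, aeval x Q ≠ 0 ∧
    f * aeval x Q = aeval x P) {J : Set (Ideal (MvPolynomial (Fin N) Ω))} {D : Derivation Ω K K}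
    (hD : D ∈ LK x J) (c : K) : c • D ∈ LK x J := by
  obtain ⟨h, E, n, l, s⟩ := hD
  obtain ⟨P, Q, hQ, hc⟩ := hx c
  refine ⟨h * Q, P • E, by rw [map_mul]; exact mul_ne_zero n hQ, ?_, ?_⟩
  · intro g
    simp only [Derivation.smul_apply, smul_eq_mul, map_mul, l g, ← hc]
    ring
  · intro I hI g hg
    simp only [Derivation.smul_apply, smul_eq_mul]
    exact I.mul_mem_left _ (s I hI g hg)

/-- derivations of the function field from tangent vectors -/
theorem exists_der (hx : ∀ f : K, ∃ P Q : MvPolynomial (Fin N) Ω, aeval x Q ≠ 0 ∧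
    f * aeval x Q = aeval x P) (v : Fin N → K)
    (hv : ∀ P : MvPolynomial (Fin N) Ω, aeval x P = 0 → ∑ l, aeval x (pderiv l P) * v l = 0) :
    ∃ D : Derivation Ω K K, ∀ l, D (x l) = v l := by
  let T : MvPolynomial (Fin N) Ω →ₐ[Ω] TrivSqZeroExt K K :=
    aeval fun l => TrivSqZeroExt.inl (x l) + TrivSqZeroExt.inr (v l)
  have hT : ∀ P, (T P).fst = aeval x P ∧ (T P).snd = ∑ l, aeval x (pderiv l P) * v l := by
    intro P
    induction P using MvPolynomial.induction_on with
    | C a =>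
      have : T (C a) = algebraMap Ω _ a := algHom_C T a
      rw [this, algHom_C, TrivSqZeroExt.algebraMap_eq_inl']
      simp
    | add p q hp hq =>
      simp only [map_add, TrivSqZeroExt.fst_add, TrivSqZeroExt.snd_add, hp.1, hp.2, hq.1, hq.2,
        add_mul, Finset.sum_add_distrib, and_self]
    | mul_X p i hp =>
      have e : T (X i) = TrivSqZeroExt.inl (x i) + TrivSqZeroExt.inr (v i) := aeval_X _ _
      rw [map_mul, e]
      constructor
      · simp [hp.1]
      · classical
        simp only [TrivSqZeroExt.snd_mul, TrivSqZeroExt.fst_add, TrivSqZeroExt.snd_add,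
          TrivSqZeroExt.fst_inl, TrivSqZeroExt.fst_inr, TrivSqZeroExt.snd_inl,
          TrivSqZeroExt.snd_inr, hp.1, hp.2, add_zero, zero_add, smul_eq_mul,
          op_smul_eq_mul, Derivation.leibniz, pderiv_X, map_add, map_mul, aeval_X,
          add_mul, Finset.sum_add_distrib]
        congr 1
        · rw [Finset.sum_eq_single i]
          · simp
          · intro b _ hb
            simp [hb.symm]
          · intro h; exact absurd (Finset.mem_univ _) h
        · rw [Finset.sum_mul]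
          exact Finset.sum_congr rfl fun l _ => by ring
  have hk : ∀ P, (aeval x : MvPolynomial (Fin N) Ω →ₐ[Ω] K).toRingHom P = 0 →
      T.toRingHom P = 0 := by
    intro P hP
    have h0 : aeval x P = 0 := hP
    apply TrivSqZeroExt.ext
    · exact (hT P).1.trans h0
    · exact (hT P).2.trans (hv P h0)
  have hreg : ∀ f : K, f ∈ Oc (aeval x : MvPolynomial (Fin N) Ω →ₐ[Ω] K).toRingHom
      T.toRingHom := by
    intro f
    obtain ⟨P, Q, hQ, hf⟩ := hx f
    have hu : IsUnit (T.toRingHom Q) := by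
      rw [TrivSqZeroExt.isUnit_iff_isUnit_fst]
      have : (T.toRingHom Q).fst = aeval x Q := (hT Q).1
      rw [this]
      exact IsUnit.mk0 _ hQ
    obtain ⟨u, hu'⟩ := hu
    refine ⟨T.toRingHom P * ↑u⁻¹, P, Q, ⟨u, hu'⟩, hQ, hf, ?_⟩
    rw [← hu', mul_assoc, Units.inv_mul, mul_one]
  let ρ : K → TrivSqZeroExt K K := fun f => ev hk ⟨f, hreg f⟩
  have ρrg : ∀ f, Rg (aeval x : MvPolynomial (Fin N) Ω →ₐ[Ω] K).toRingHom T.toRingHom f (ρ f) :=
    fun f => ev_spec hk ⟨f, hreg f⟩
  have ρeq : ∀ f r, Rg (aeval x : MvPolynomial (Fin N) Ω →ₐ[Ω] K).toRingHom T.toRingHom f r →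
      ρ f = r := fun f r h => (ρrg f).unique hk h
  have ρadd : ∀ f g, ρ (f + g) = ρ f + ρ g := fun f g => ρeq _ _ ((ρrg f).add (ρrg g))
  have ρmul : ∀ f g, ρ (f * g) = ρ f * ρ g := fun f g => ρeq _ _ ((ρrg f).mul (ρrg g))
  have ρfst : ∀ f, (ρ f).fst = f := by
    intro f
    obtain ⟨P, Q, -, hQ, e1, e2⟩ := ρrg f
    have h1 := congrArg TrivSqZeroExt.fst e2
    rw [TrivSqZeroExt.fst_mul] at h1
    have h2 : (T.toRingHom Q).fst = aeval x Q := (hT Q).1
    have h3 : (T.toRingHom P).fst = aeval x P := (hT P).1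
    rw [h2, h3] at h1
    have e1' : f * aeval x Q = aeval x P := e1
    rw [← e1'] at h1
    exact mul_right_cancel₀ hQ h1
  have ρal : ∀ a : Ω, ρ (algebraMap Ω K a) = TrivSqZeroExt.inl (algebraMap Ω K a) := by
    intro a
    apply ρeq
    have h1 := Rg.of (φ := (aeval x : MvPolynomial (Fin N) Ω →ₐ[Ω] K).toRingHom)
      (τ := T.toRingHom) (C a)
    have e1 : (aeval x : MvPolynomial (Fin N) Ω →ₐ[Ω] K).toRingHom (C a) = algebraMap Ω K a :=
      algHom_C _ a
    have e2 : T.toRingHom (C a) = TrivSqZeroExt.inl (algebraMap Ω K a) := algHom_C T a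
    rw [e1, e2] at h1
    exact h1
  have ρx : ∀ l, ρ (x l) = TrivSqZeroExt.inl (x l) + TrivSqZeroExt.inr (v l) := by
    intro l
    apply ρeq
    have h1 := Rg.of (φ := (aeval x : MvPolynomial (Fin N) Ω →ₐ[Ω] K).toRingHom)
      (τ := T.toRingHom) (X l)
    have e1 : (aeval x : MvPolynomial (Fin N) Ω →ₐ[Ω] K).toRingHom (X l) = x l := aeval_X _ _
    have e2 : T.toRingHom (X l) = TrivSqZeroExt.inl (x l) + TrivSqZeroExt.inr (v l) :=
      aeval_X _ _
    rw [e1, e2] at h1
    exact h1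
  refine ⟨Derivation.mk' (R := Ω) (A := K) (M := K)
    { toFun := fun f => (ρ f).snd
      map_add' := fun f g => by rw [ρadd, TrivSqZeroExt.snd_add]
      map_smul' := fun c f => by
        rw [Algebra.smul_def, ρmul, ρal, TrivSqZeroExt.snd_mul]
        simp [Algebra.smul_def] } ?_, ?_⟩
  · intro f g
    show (ρ (f * g)).snd = f • (ρ g).snd + g • (ρ f).snd
    rw [ρmul, TrivSqZeroExt.snd_mul, ρfst, ρfst]
    simp [mul_comm]
  · intro l
    show (ρ (x l)).snd = v l
    rw [ρx]
    simp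

/-- **Stable ideals.** If the derivations `D i` generate all derivations of the function field of
the hypersurface `F = 0`, then an ideal which contains `F` and is stable under lifts of the `D i`
is stable under all tangent derivations, up to a factor. -/
theorem stable {m : ℕ} {F : MvPolynomial (Fin N) Ω}
    (hx : ∀ f : K, ∃ P Q : MvPolynomial (Fin N) Ω, aeval x Q ≠ 0 ∧ f * aeval x Q = aeval x P)
    (hF : ∀ P : MvPolynomial (Fin N) Ω, aeval x P = 0 ↔ F ∣ P)
    (D : Fin m → Derivation Ω K K)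
    (hgen : LieSubalgebra.lieSpan Ω (Derivation Ω K K) {E | ∃ i, ∃ c : K, E = c • D i} = ⊤)
    (u : Fin m → MvPolynomial (Fin N) Ω) (v : Fin m → Fin N → MvPolynomial (Fin N) Ω)
    (hu : ∀ i, aeval x (u i) ≠ 0) (hv : ∀ i l, aeval x (v i l) = aeval x (u i) * D i (x l))
    (l₀ k : Fin N) :
    ∃ h : MvPolynomial (Fin N) Ω, aeval x h ≠ 0 ∧ ∀ I : Ideal (MvPolynomial (Fin N) Ω), F ∈ I →
      (∀ i, ∀ g ∈ I, ∑ l, pderiv l g * v i l ∈ I) →
      ∀ g ∈ I, h * (pderiv l₀ F * pderiv k g - pderiv k F * pderiv l₀ g) ∈ I := by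
  classical
  set J : Set (Ideal (MvPolynomial (Fin N) Ω)) :=
    {I | F ∈ I ∧ ∀ i, ∀ g ∈ I, ∑ l, pderiv l g * v i l ∈ I} with hJ
  have hmem : ∀ i, D i ∈ LK x J := by
    intro i
    refine ⟨u i, mkDerivation Ω (v i), hu i, lft_of fun l => ?_, ?_⟩
    · rw [mkDerivation_X, hv]
    · intro I hI g hg
      rw [W572.derivation_eq_sum]
      simp only [mkDerivation_X]
      exact hI.2 i g hg
  have htop : LK x J = ⊤ := by
    rw [eq_top_iff, ← hgen, LieSubalgebra.lieSpan_le]
    rintro _ ⟨i, c, rfl⟩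
    exact LK_smul hx (hmem i) c
  obtain ⟨E', hE'⟩ := exists_der hx (fun l => (if l = k then aeval x (pderiv l₀ F) else 0) -
    if l = l₀ then aeval x (pderiv k F) else 0) (by
      intro P hP
      obtain ⟨G, rfl⟩ := (hF P).1 hP
      have h0 : aeval x F = 0 := (hF F).2 dvd_rfl
      simp only [Derivation.leibniz, smul_eq_mul, map_add, map_mul, h0, zero_mul, zero_add,
        mul_sub, Finset.sum_sub_distrib, mul_ite, mul_zero, Finset.sum_ite_eq', Finset.mem_univ,
        if_true]
      ring)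
  have hE : E' ∈ LK x J := by rw [htop]; trivial
  obtain ⟨h, E, hh, hl, hs⟩ := hE
  refine ⟨h, hh, fun I hFI hI g hg => ?_⟩
  have hII : I ∈ J := ⟨hFI, hI⟩
  have h1 := hs I hII g hg
  have h2 : ∀ l, E (X l) - h * ((if l = k then pderiv l₀ F else 0) -
      if l = l₀ then pderiv k F else 0) ∈ I := by
    intro l
    have h3 : aeval x (E (X l) - h * ((if l = k then pderiv l₀ F else 0) -
      if l = l₀ then pderiv k F else 0)) = 0 := by
      rw [map_sub, hl, map_mul, aeval_X, hE', sub_eq_zero]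
      congr 1
      rw [map_sub]
      congr 1 <;> split_ifs <;> simp
    exact I.mem_of_dvd ((hF _).1 h3) hFI
  rw [W572.derivation_eq_sum] at h1
  have h3 : ∑ l, pderiv l g * (E (X l) - h * ((if l = k then pderiv l₀ F else 0) -
      if l = l₀ then pderiv k F else 0)) ∈ I :=
    I.sum_mem fun l _ => I.mul_mem_left _ (h2 l)
  have h4 := I.sub_mem h1 h3
  rw [← Finset.sum_sub_distrib] at h4
  have h5 : ∑ l, (pderiv l g * E (X l) - pderiv l g * (E (X l) - h *
      ((if l = k then pderiv l₀ F else 0) - if l = l₀ then pderiv k F else 0))) =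
      h * (pderiv l₀ F * pderiv k g - pderiv k F * pderiv l₀ g) := by
    have : ∀ l, (pderiv l g * E (X l) - pderiv l g * (E (X l) - h *
      ((if l = k then pderiv l₀ F else 0) - if l = l₀ then pderiv k F else 0))) =
      (if l = k then h * (pderiv l₀ F * pderiv l g) else 0) -
        (if l = l₀ then h * (pderiv k F * pderiv l g) else 0) := by
      intro l
      split_ifs <;> ring
    rw [Finset.sum_congr rfl fun l _ => this l]
    simp only [Finset.sum_sub_distrib, Finset.sum_ite_eq', Finset.mem_univ, if_true]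
    ring
  rw [h5] at h4
  exact h4

end Pool.Agent.Y742.GG
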