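import Pool.Agent.Y742.GG.Dens
import Pool.Agent.Y742.GG.Stab
import Pool.Agent.Y742.GG.Pad
import Pool.Agent.Y742.GG.Inst
import Pool.Agent.W572.G.Points

/-!
# Assembly (helper742)
-/

set_option autoImplicit false
set_option linter.unusedSectionVars false

open Pool.Agent.Y720.MZ Filter Topology MvPolynomial

namespace Pool.Agent.Y742.GG

/-- irreducibility descends -/
lemma irreducible_of_map {k S : Type*} [Field k] [Field S] (f : k →+* S) {N : ℕ}
    {F : MvPolynomial (Fin N) k} (h : Irreducible (MvPolynomial.map f F)) : Irreducible F := by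
  have : IsLocalHom (MvPolynomial.map f : MvPolynomial (Fin N) k →+* MvPolynomial (Fin N) S) := by
    refine ⟨fun P hP => ?_⟩
    rw [MvPolynomial.isUnit_iff_eq_C_of_isReduced] at hP ⊢
    obtain ⟨r, hr, hr'⟩ := hP
    have h1 : P = C (coeff 0 P) := by
      ext m
      rw [coeff_C]
      split_ifs with hm
      · rw [← hm]
      · apply f.injective
        rw [← coeff_map, hr', coeff_C, if_neg hm, map_zero]
    refine ⟨coeff 0 P, ?_, h1⟩
    rw [isUnit_iff_ne_zero]
    intro h0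
    rw [h1, h0, C_0, map_zero] at hr'
    have h2 := congrArg (coeff 0) hr'
    rw [coeff_zero, coeff_C, if_pos rfl] at h2
    exact hr.ne_zero h2.symm
  exact h.of_map

/-- an irreducible polynomial has a derivative which does not vanish -/
lemma exists_pderiv_ne {k : Type*} [Field k] [CharZero k] {N : ℕ} {F : MvPolynomial (Fin N) k}
    (hF : Irreducible F) : ∃ l, pderiv l F ≠ 0 := by
  by_contra hcon
  push Not at hcon
  have h1 := W572.zero_of_pderiv_closed
    {P : MvPolynomial (Fin N) k | (∀ l, pderiv l P = 0) ∧ eval 0 P = 0} 0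
    (fun H hH => hH.2) (fun H hH l => by
      show (∀ l', pderiv l' (pderiv l H) = 0) ∧ eval 0 (pderiv l H) = 0
      rw [hH.1 l]
      simp) (F - C (eval 0 F)) (by
      refine ⟨fun l => ?_, ?_⟩
      · rw [map_sub, hcon, pderiv_C, sub_zero]
      · simp)
  rw [sub_eq_zero] at h1
  have hF' := hF
  rw [h1] at hF'
  by_cases h0 : eval 0 F = 0
  · rw [h0, C_0] at hF'
    exact not_irreducible_zero hF'
  · exact hF'.not_isUnit ((isUnit_iff_ne_zero.2 h0).map C)

/-- finitely many polynomials are defined over a number field -/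
lemma descend (k₀ : Type) [Field k₀] {N : ℕ}
    {S : Set (MvPolynomial (Fin N) (AlgebraicClosure k₀))} (hS : S.Finite) :
    ∃ k : IntermediateField k₀ (AlgebraicClosure k₀), FiniteDimensional k₀ k ∧ ∀ P ∈ S,
      ∃ P' : MvPolynomial (Fin N) k,
        MvPolynomial.map (algebraMap k (AlgebraicClosure k₀)) P' = P := by
  classical
  set A : Set (AlgebraicClosure k₀) := ⋃ P ∈ S, (P.coeffs : Set (AlgebraicClosure k₀)) with hA
  have hfin : A.Finite := hS.biUnion fun P _ => Finset.finite_toSet _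
  have : Finite A := hfin
  refine ⟨IntermediateField.adjoin k₀ A, IntermediateField.finiteDimensional_adjoin
      (fun x _ => Algebra.IsIntegral.isIntegral x), fun P hP => ?_⟩
  have h1 : P ∈ Set.range (MvPolynomial.map (algebraMap (IntermediateField.adjoin k₀ A)
      (AlgebraicClosure k₀))) := by
    rw [MvPolynomial.mem_range_map_iff_coeffs_subset]
    intro a ha
    have h2 : a ∈ A := by
      rw [hA]
      simp only [Set.mem_iUnion]
      exact ⟨P, hP, ha⟩
    exact ⟨⟨a, IntermediateField.subset_adjoin _ _ h2⟩, rfl⟩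
  obtain ⟨P', hP'⟩ := h1
  exact ⟨P', hP'⟩

/-- **Assembly.** -/
theorem asm (k₀ : Type) [Field k₀] [CharZero k₀] (hk₀ : FG k₀) {N m : ℕ} (F : MvPolynomial (Fin N) k₀)
    (hF : Irreducible (MvPolynomial.map (algebraMap k₀ (AlgebraicClosure k₀)) F))
    {K : Type*} [Field K] [DecidableEq K] [Algebra (AlgebraicClosure k₀) K] {x : Fin N → K}
    (hx1 : ∀ P : MvPolynomial (Fin N) (AlgebraicClosure k₀), aeval x P = 0 ↔
      MvPolynomial.map (algebraMap k₀ (AlgebraicClosure k₀)) F ∣ P)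
    (hx2 : IntermediateField.adjoin (AlgebraicClosure k₀) (Set.range x) = ⊤)
    (D : Fin m → Derivation (AlgebraicClosure k₀) K K) (μ : Fin m → Mv K N)
    (hd : ∀ i l, (μ i).d l = D i (x l))
    (hOk : ∀ i, ∀ (k : Type) [Field k] (c : k →+* AlgebraicClosure k₀)
      (G : MvPolynomial (Fin N) k), eval₂ ((algebraMap (AlgebraicClosure k₀) K).comp c) x G = 0 →
        (μ i).Ok ((algebraMap (AlgebraicClosure k₀) K).comp c) G x)
    (hinf : ∀ i, dc ((μ i).w ^ 2) (μ i).q₁ (μ i).q₂ (μ i).q₃ (μ i).q₄ ≠ 0 → ∀ h, ∀ n : ℕ, n ≠ 0 →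
      n • (.some (xs (μ i).w (μ i).q₁ (μ i).q₂) (ys (μ i).w (μ i).q₁ (μ i).q₂ (μ i).q₃) h :
        Pt (μ i).q₂ (rb (μ i).w (μ i).q₁ (μ i).q₃ (μ i).q₄)
          (rc (μ i).w (μ i).q₁ (μ i).q₂ (μ i).q₃ (μ i).q₄)) ≠ 0)
    (hgen : LieSubalgebra.lieSpan (AlgebraicClosure k₀)
      (Derivation (AlgebraicClosure k₀) K K) {E | ∃ i, ∃ c : K, E = c • D i} = ⊤) :
    ∃ L : IntermediateField k₀ (AlgebraicClosure k₀), FiniteDimensional k₀ L ∧
      ∀ P : MvPolynomial (Fin N) (AlgebraicClosure k₀),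
        (∀ y : Fin N → AlgebraicClosure k₀, (∀ l, y l ∈ L) →
          eval y (MvPolynomial.map (algebraMap k₀ (AlgebraicClosure k₀)) F) = 0 →
            eval y P = 0) →
        MvPolynomial.map (algebraMap k₀ (AlgebraicClosure k₀)) F ∣ P := by
  have hfrac : ∀ f : K, ∃ P Q : MvPolynomial (Fin N) (AlgebraicClosure k₀), aeval x Q ≠ 0 ∧
      f * aeval x Q = aeval x P := by
    intro f
    have hf : f ∈ IntermediateField.adjoin (AlgebraicClosure k₀) (Set.range x) := by
      rw [hx2]; trivial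
    rw [IntermediateField.mem_adjoin_range_iff] at hf
    obtain ⟨r, s, hrs⟩ := hf
    by_cases hs : aeval x s = 0
    · rw [hs, div_zero] at hrs
      exact ⟨0, 1, by simp, by simp [hrs]⟩
    · exact ⟨r, s, hs, by rw [hrs, div_mul_cancel₀ _ hs]⟩
  choose Pf Qf hQf hPf using hfrac
  -- the derivative
  set FΩ := MvPolynomial.map (algebraMap k₀ (AlgebraicClosure k₀)) F with hFΩ
  obtain ⟨l₀, hl₀⟩ := exists_pderiv_ne hF
  -- lifts of the derivations
  set u : Fin m → MvPolynomial (Fin N) (AlgebraicClosure k₀) := fun i =>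
    ∏ l, Qf (D i (x l)) with hu
  set v : Fin m → Fin N → MvPolynomial (Fin N) (AlgebraicClosure k₀) := fun i l =>
    Pf (D i (x l)) * ∏ a ∈ Finset.univ.erase l, Qf (D i (x a)) with hv
  have hu0 : ∀ i, aeval x (u i) ≠ 0 := by
    intro i
    rw [hu, map_prod]
    exact Finset.prod_ne_zero_iff.2 fun l _ => hQf _
  have huv : ∀ i l, aeval x (v i l) = aeval x (u i) * D i (x l) := by
    intro i l
    simp only [hu, hv]
    rw [← Finset.mul_prod_erase _ _ (Finset.mem_univ l), map_mul, map_mul, ← hPf]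
    ring
  have hst := fun a => stable (fun f => ⟨Pf f, Qf f, hQf f, hPf f⟩) hx1 D hgen u v hu0 huv l₀ a
  choose h hh hst using hst
  set H := ∏ a, h a with hH
  have hH0 : aeval x H ≠ 0 := by
    rw [hH, map_prod]
    exact Finset.prod_ne_zero_iff.2 fun l _ => hh _
  have hstH : ∀ I : Ideal (MvPolynomial (Fin N) (AlgebraicClosure k₀)), FΩ ∈ I →
      (∀ i, ∀ g ∈ I, ∑ l, pderiv l g * v i l ∈ I) → ∀ a, ∀ g ∈ I,
        H * (pderiv l₀ FΩ * pderiv a g - pderiv a FΩ * pderiv l₀ g) ∈ I := by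
    intro I hI1 hI2 a g hg
    rw [hH, ← Finset.mul_prod_erase _ _ (Finset.mem_univ a), mul_comm (h a), mul_assoc]
    exact I.mul_mem_left _ (hst a I hI1 hI2 g hg)
  -- a number field
  set C : Set K := ⋃ i, (μ i).coefs with hC
  have hCfin : C.Finite := Set.finite_iUnion fun i => (μ i).coefs_finite
  obtain ⟨k, hkfin, hk⟩ := descend k₀ (S := Pf '' C ∪ Qf '' C ∪ Set.range u ∪
    Set.range (fun z : Fin m × Fin N => v z.1 z.2) ∪ {H})
    (((((hCfin.image _).union (hCfin.image _)).union (Set.finite_range _)).union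
      (Set.finite_range _)).union (Set.finite_singleton _))
  have hku : ∀ i, ∃ P' : MvPolynomial (Fin N) k,
      MvPolynomial.map (algebraMap k (AlgebraicClosure k₀)) P' = u i := fun i =>
    hk _ (Or.inl (Or.inl (Or.inr ⟨i, rfl⟩)))
  have hkv : ∀ i l, ∃ P' : MvPolynomial (Fin N) k,
      MvPolynomial.map (algebraMap k (AlgebraicClosure k₀)) P' = v i l := fun i l =>
    hk _ (Or.inl (Or.inr ⟨(i, l), rfl⟩))
  have hkH : ∃ P' : MvPolynomial (Fin N) k,
      MvPolynomial.map (algebraMap k (AlgebraicClosure k₀)) P' = H := hk _ (Or.inr rfl)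
  choose u' hu' using hku
  choose v' hv' using hkv
  obtain ⟨H', hH'⟩ := hkH
  have hck : CharZero k := charZero_of_injective_algebraMap (algebraMap k₀ k).injective
  have hkfg : FG k := hk₀.of_finite
  set F' : MvPolynomial (Fin N) k := MvPolynomial.map (algebraMap k₀ k) F with hF'
  have hF'Ω : MvPolynomial.map (algebraMap k (AlgebraicClosure k₀)) F' = FΩ := by
    rw [hF', MvPolynomial.map_map]
    rfl
  have hF'irr : Irreducible F' := by
    apply irreducible_of_map (algebraMap k (AlgebraicClosure k₀))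
    rw [hF'Ω]; exact hF
  have hl₀' : pderiv l₀ F' ≠ 0 := by
    intro h0
    apply hl₀
    rw [← hF'Ω, pderiv_map, h0, map_zero]
  have hφ : ∀ P : MvPolynomial (Fin N) k,
      eval₂ ((algebraMap (AlgebraicClosure k₀) K).comp (algebraMap k (AlgebraicClosure k₀))) x P =
        aeval x (MvPolynomial.map (algebraMap k (AlgebraicClosure k₀)) P) := by
    intro P
    rw [aeval_def, eval₂_map]
  have hφ0 : ∀ P : MvPolynomial (Fin N) k,
      eval₂ ((algebraMap (AlgebraicClosure k₀) K).comp (algebraMap k (AlgebraicClosure k₀))) x P =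
        0 ↔ F' ∣ P := by
    intro P
    rw [hφ, hx1, ← hF'Ω]
    exact ⟨W572.G.dvd_descent F' P, fun h => _root_.map_dvd _ h⟩
  obtain ⟨p, hp, σ, X₀, hgenX, hnear⟩ := exists_generic hkfg hF'irr hl₀'
  classical
  -- the neighbourhood
  set φ : MvPolynomial (Fin N) k →+* K := eval₂Hom ((algebraMap (AlgebraicClosure k₀) K).comp
    (algebraMap k (AlgebraicClosure k₀))) x with hφdef
  have hgenX' : ∀ P, tau σ X₀ P = 0 ↔ φ P = 0 := by
    intro P
    rw [tau_apply, hgenX]
    exact (hφ0 P).symm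
  have hOk' : ∀ i, (μ i).Ok ((algebraMap (AlgebraicClosure k₀) K).comp
      (algebraMap k (AlgebraicClosure k₀))) F' x := fun i =>
    hOk i k _ F' ((hφ0 F').2 dvd_rfl)
  have hreg : ∀ i, ∀ f ∈ (μ i).coefs, f ∈ Oc φ (tau σ X₀) := by
    intro i f hf
    have hfC : f ∈ C := Set.mem_iUnion.2 ⟨i, hf⟩
    obtain ⟨P', hP'⟩ := hk (Pf f) (Or.inl (Or.inl (Or.inl (Or.inl ⟨f, hfC, rfl⟩))))
    obtain ⟨Q', hQ'⟩ := hk (Qf f) (Or.inl (Or.inl (Or.inl (Or.inr ⟨f, hfC, rfl⟩))))
    have hφP : φ P' = aeval x (Pf f) := by rw [← hP']; exact hφ P'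
    have hφQ : φ Q' = aeval x (Qf f) := by rw [← hQ']; exact hφ Q'
    have hQ0 : φ Q' ≠ 0 := by rw [hφQ]; exact hQf f
    have hQt : tau σ X₀ Q' ≠ 0 := fun h0 => hQ0 ((hgenX' _).1 h0)
    exact ⟨tau σ X₀ P' / tau σ X₀ Q', P', Q', IsUnit.mk0 _ hQt, hQ0, by
      rw [hφP, hφQ]; exact hPf f, div_mul_cancel₀ _ hQt⟩
  have hgoodn : ∀ᶠ X in 𝓝 X₀, ∀ i, eval₂ σ X F' = 0 → Good φ (tau σ X) (μ i) := by
    rw [eventually_all]
    intro i
    have h1 := good_near σ hgenX' (μ i) (hOk' i).hw (hOk' i).hB (hreg i) (hinf i)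
    rw [eventually_inf_principal] at h1
    filter_upwards [h1] with X hX hXF
    apply hX
    intro P hP
    obtain ⟨G, rfl⟩ := (hφ0 P).1 hP
    rw [map_mul]
    have : tau σ X F' = 0 := hXF
    rw [this, zero_mul]
  have hnz : ∀ P : MvPolynomial (Fin N) k, φ P ≠ 0 → ∀ᶠ X in 𝓝 X₀, eval₂ σ X P ≠ 0 := by
    intro P hP
    have h1 : tau σ X₀ P ≠ 0 := fun h0 => hP ((hgenX' _).1 h0)
    exact ((cont_tau σ P).tendsto X₀).eventually_ne h1
  have hun : ∀ᶠ X in 𝓝 X₀, ∀ i, eval₂ σ X (u' i) ≠ 0 := by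
    rw [eventually_all]
    intro i
    apply hnz
    show eval₂ _ _ _ ≠ 0
    rw [hφ, hu']
    exact hu0 i
  have hHn : ∀ᶠ X in 𝓝 X₀, eval₂ σ X (H' * pderiv l₀ F') ≠ 0 := by
    apply hnz
    rw [map_mul]
    refine mul_ne_zero ?_ ?_
    · show eval₂ _ _ _ ≠ 0
      rw [hφ, hH']
      exact hH0
    · show eval₂ _ _ _ ≠ 0
      rw [Ne, hφ0]
      exact not_dvd_pderiv hl₀'
  obtain ⟨U, hU1, hU2, hU3⟩ := _root_.eventually_nhds_iff.1 (hgoodn.and (hun.and hHn))
  obtain ⟨X', hX'U, hX'F, hX'alg⟩ := hnear U (hU2.mem_nhds hU3)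
  -- the field of the point
  let : Algebra k ℚ_[p] := σ.toAlgebra
  have hfinX : Finite (Set.range X') := Set.finite_range X'
  have hint : ∀ z ∈ Set.range X', IsIntegral k z := by
    rintro _ ⟨l, rfl⟩
    obtain ⟨f, hf0, hf⟩ := hX'alg l
    exact IsAlgebraic.isIntegral ⟨f, hf0, hf⟩
  set M := IntermediateField.adjoin k (Set.range X') with hM
  have hMfin : FiniteDimensional k M := IntermediateField.finiteDimensional_adjoin hint
  have hMalg : Algebra.IsAlgebraic k M := Algebra.IsAlgebraic.of_finite k M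
  let e : M →ₐ[k] AlgebraicClosure k₀ := IsAlgClosed.lift
  let : Algebra M (AlgebraicClosure k₀) := e.toRingHom.toAlgebra
  have hcomp : (algebraMap M (AlgebraicClosure k₀)).comp (algebraMap k M) =
      algebraMap k (AlgebraicClosure k₀) := e.comp_algebraMap
  let σ₁ : M →+* ℚ_[p] := M.val.toRingHom
  have hσ₁ : σ₁.comp (algebraMap k M) = σ := rfl
  have hdr : DenseRange σ₁ := by
    refine (denseRange_rat (p := p)).mono ?_
    rintro _ ⟨q, rfl⟩
    exact ⟨(q : M), map_ratCast σ₁ q⟩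
  let y₀ : Fin N → M := fun l => ⟨X' l, IntermediateField.subset_adjoin _ _ ⟨l, rfl⟩⟩
  have hy₀ : (fun l => σ₁ (y₀ l)) = X' := rfl
  have hne : (Tset F' (algebraMap k M) σ₁ U).Nonempty := by
    refine ⟨y₀, ?_, ?_⟩
    · apply σ₁.injective
      rw [eval₂_comp_left, map_zero]
      exact hX'F
    · show (fun l => σ₁ (y₀ l)) ∈ U
      rw [hy₀]
      exact hX'U
  refine ⟨e.fieldRange.restrictScalars k₀, ?_, fun P hP => ?_⟩
  · have h1 : FiniteDimensional k e.fieldRange :=
      (AlgEquiv.ofInjectiveField e).toLinearEquiv.finiteDimensional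
    exact FiniteDimensional.trans k₀ k e.fieldRange
  · rw [← hF'Ω, ← hcomp]
    refine dens_core (M := M) (Ω := AlgebraicClosure k₀) (algebraMap k M) σ₁ hdr (x := x)
      (F := F') ?_ ?_ hU2 μ ?_ ?_ u' v' ?_ ?_ ?_ l₀ hl₀' H' ?_ ?_ hne P ?_
    · rw [hcomp, hF'Ω]; exact hF
    · rw [hcomp]; exact hφ0
    · rw [hcomp]; exact hOk'
    · rw [hcomp, hσ₁]
      intro i X hX
      exact (hU1 X hX).1 i
    · rw [hcomp]
      intro i l
      rw [hφ, hφ, hv', hu', huv, hd]
    · rw [hcomp]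
      intro i
      rw [hφ, hu']
      exact hu0 i
    · rw [hσ₁]
      intro i X hX
      exact (hU1 X hX).2.1 i
    · rw [hcomp, hF'Ω, hH']
      intro I hI1 hI2
      refine hstH I hI1 fun i g hg => ?_
      have := hI2 i g hg
      simpa only [hv'] using this
    · rw [hσ₁]
      intro X hX
      exact (hU1 X hX).2.2
    · intro y hy
      apply hP
      · intro l
        exact ⟨y l, rfl⟩
      · rw [← hF'Ω, ← hcomp, eval_map]
        have := eval₂_comp_left (algebraMap M (AlgebraicClosure k₀)) (algebraMap k M) y F'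
        rw [hy.1, map_zero] at this
        exact this.symm

end Pool.Agent.Y742.GG
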