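import Pool.Agent.Y742.GG.Tan
import Pool.Agent.W572.G.Elim

/-!
# Density of the points (helper742)
-/

set_option autoImplicit false
set_option linter.unusedSectionVars false

open Pool.Agent.Y720.MZ Filter Topology MvPolynomial

namespace Pool.Agent.Y742.GG

section functional

variable {M Ω : Type*} [Field M] [Field Ω] [Algebra M Ω] {N : ℕ}

/-- a linear functional applied to the coefficients -/
noncomputable def Lam (f : Ω →ₗ[M] M) (g : MvPolynomial (Fin N) Ω) : MvPolynomial (Fin N) M :=
  ∑ m ∈ g.support, monomial m (f (coeff m g))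

lemma coeff_Lam (f : Ω →ₗ[M] M) (g : MvPolynomial (Fin N) Ω) (m : Fin N →₀ ℕ) :
    coeff m (Lam f g) = f (coeff m g) := by
  classical
  rw [Lam, coeff_sum]
  simp only [coeff_monomial]
  rw [Finset.sum_ite_eq' g.support m]
  split_ifs with hb
  · rfl
  · rw [notMem_support_iff.mp hb, map_zero]

lemma pderiv_Lam (f : Ω →ₗ[M] M) (g : MvPolynomial (Fin N) Ω) (l : Fin N) :
    pderiv l (Lam f g) = Lam f (pderiv l g) := by
  ext m
  rw [coeff_pderiv, coeff_Lam, coeff_Lam, coeff_pderiv]
  have : coeff (m + Finsupp.single l 1) g * ((m l : Ω) + 1) =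
      ((m l : M) + 1) • coeff (m + Finsupp.single l 1) g := by
    rw [Algebra.smul_def, map_add, map_natCast, map_one]
    ring
  rw [this, map_smul, smul_eq_mul, mul_comm]

lemma eval_Lam (f : Ω →ₗ[M] M) (g : MvPolynomial (Fin N) Ω) (y : Fin N → M) :
    eval y (Lam f g) = f (eval (fun l => algebraMap M Ω (y l)) g) := by
  rw [Lam, map_sum, eval_eq' (fun l => algebraMap M Ω (y l)) g, map_sum]
  refine Finset.sum_congr rfl fun m _ => ?_
  have : coeff m g * ∏ i, algebraMap M Ω (y i) ^ m i = (∏ i, y i ^ m i) • coeff m g := by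
    rw [Algebra.smul_def, map_prod]
    simp only [map_pow]
    ring
  rw [this, map_smul, smul_eq_mul, eval_monomial, Finsupp.prod_fintype _ _ (fun i => pow_zero _)]
  ring

lemma eq_zero_of_functional {a : Ω} (h : ∀ f : Ω →ₗ[M] M, f a = 0) : a = 0 :=
  (Module.forall_dual_apply_eq_zero_iff M a).1 h

end functional

section core

variable {k : Type*} [Field k] {M : Type*} [Field M] [CharZero M] [DecidableEq M]
  {Ω : Type*} [Field Ω] [CharZero Ω] [Algebra M Ω] {p : ℕ} [hp : Fact p.Prime]
  [DecidableEq ℚ_[p]] {K : Type*} [Field K] [Algebra Ω K] {N m : ℕ}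

/-- **Density.** -/
theorem dens_core (j : k →+* M) (σ : M →+* ℚ_[p]) (hσ : DenseRange σ) {x : Fin N → K}
    {F : MvPolynomial (Fin N) k}
    (hFirr : Irreducible (MvPolynomial.map ((algebraMap M Ω).comp j) F))
    (hF : ∀ P : MvPolynomial (Fin N) k,
      eval₂ ((algebraMap Ω K).comp ((algebraMap M Ω).comp j)) x P = 0 ↔ F ∣ P)
    {U : Set (Fin N → ℚ_[p])} (hU : IsOpen U) (μ : Fin m → Mv K N)
    (hμ : ∀ i, (μ i).Ok ((algebraMap Ω K).comp ((algebraMap M Ω).comp j)) F x)
    (hgood : ∀ i, ∀ X ∈ U, eval₂ (σ.comp j) X F = 0 →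
      Good (eval₂Hom ((algebraMap Ω K).comp ((algebraMap M Ω).comp j)) x) (tau (σ.comp j) X) (μ i))
    (u : Fin m → MvPolynomial (Fin N) k) (v : Fin m → Fin N → MvPolynomial (Fin N) k)
    (huv : ∀ i l, eval₂ ((algebraMap Ω K).comp ((algebraMap M Ω).comp j)) x (v i l) =
      eval₂ ((algebraMap Ω K).comp ((algebraMap M Ω).comp j)) x (u i) * (μ i).d l)
    (hux : ∀ i, eval₂ ((algebraMap Ω K).comp ((algebraMap M Ω).comp j)) x (u i) ≠ 0)
    (hu : ∀ i, ∀ X ∈ U, eval₂ (σ.comp j) X (u i) ≠ 0)
    (l₀ : Fin N) (hl₀ : pderiv l₀ F ≠ 0) (h : MvPolynomial (Fin N) k)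
    (hst : ∀ I : Ideal (MvPolynomial (Fin N) Ω), MvPolynomial.map ((algebraMap M Ω).comp j) F ∈ I →
      (∀ i, ∀ g ∈ I, ∑ l, pderiv l g * MvPolynomial.map ((algebraMap M Ω).comp j) (v i l) ∈ I) →
      ∀ a, ∀ g ∈ I, MvPolynomial.map ((algebraMap M Ω).comp j) h *
        (pderiv l₀ (MvPolynomial.map ((algebraMap M Ω).comp j) F) * pderiv a g -
          pderiv a (MvPolynomial.map ((algebraMap M Ω).comp j) F) * pderiv l₀ g) ∈ I)
    (hh : ∀ X ∈ U, eval₂ (σ.comp j) X (h * pderiv l₀ F) ≠ 0)
    (hne : (Tset F j σ U).Nonempty) (P : MvPolynomial (Fin N) Ω)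
    (hP : ∀ y ∈ Tset F j σ U, eval (fun l => algebraMap M Ω (y l)) P = 0) :
    MvPolynomial.map ((algebraMap M Ω).comp j) F ∣ P := by
  classical
  -- evaluations
  have ev1 : ∀ (y : Fin N → M) (G : MvPolynomial (Fin N) k),
      eval (fun l => algebraMap M Ω (y l)) (MvPolynomial.map ((algebraMap M Ω).comp j) G) =
        algebraMap M Ω (eval₂ j y G) := by
    intro y G
    rw [eval_map, eval₂_comp_left]
    rfl
  have ev2 : ∀ (y : Fin N → M) (G : MvPolynomial (Fin N) k),
      eval₂ (σ.comp j) (fun l => σ (y l)) G = σ (eval₂ j y G) := by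
    intro y G
    rw [eval₂_comp_left]
    rfl
  let I : Ideal (MvPolynomial (Fin N) Ω) :=
    { carrier := {g | ∀ y ∈ Tset F j σ U, eval (fun l => algebraMap M Ω (y l)) g = 0}
      add_mem' := fun {a b} ha hb y hy => by rw [map_add, ha y hy, hb y hy, add_zero]
      zero_mem' := fun y _ => map_zero _
      smul_mem' := fun c g hg y hy => by
        rw [smul_eq_mul, map_mul, hg y hy, mul_zero] }
  have hI : ∀ g, g ∈ I ↔ ∀ y ∈ Tset F j σ U, eval (fun l => algebraMap M Ω (y l)) g = 0 :=
    fun g => Iff.rfl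
  have hFI : MvPolynomial.map ((algebraMap M Ω).comp j) F ∈ I := by
    rw [hI]
    intro y hy
    rw [ev1, hy.1, map_zero]
  -- stability
  have hstab : ∀ i, ∀ g ∈ I,
      ∑ l, pderiv l g * MvPolynomial.map ((algebraMap M Ω).comp j) (v i l) ∈ I := by
    intro i g hg
    rw [hI]
    intro y hy
    have huy : eval₂ j y (u i) ≠ 0 := by
      intro h0
      apply hu i _ hy.2
      rw [ev2, h0, map_zero]
    set dy : Fin N → M := fun l => eval₂ j y (v i l) / eval₂ j y (u i) with hdy
    have hrg : ∀ l, Rg (eval₂Hom ((algebraMap Ω K).comp ((algebraMap M Ω).comp j)) x)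
        (eval₂Hom j y) ((μ i).d l) (dy l) := by
      intro l
      refine ⟨v i l, u i, IsUnit.mk0 _ huy, hux i, ?_, ?_⟩
      · rw [mul_comm]
        exact (huv i l).symm
      · exact div_mul_cancel₀ _ huy
    have hzero : ∑ l, eval (fun l => algebraMap M Ω (y l)) (pderiv l g) *
        algebraMap M Ω (dy l) = 0 := by
      apply eq_zero_of_functional (M := M)
      intro f
      have h1 := tangent hF j σ hσ hU (hμ i) (hgood i) (h := Lam f g) (by
        intro z hz
        rw [eval_Lam, (hI g).1 hg z hz, map_zero]) hy hrg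
      rw [map_sum, ← h1]
      refine Finset.sum_congr rfl fun l _ => ?_
      have hf : ∀ (a : Ω) (c : M), f (a * algebraMap M Ω c) = f a * c := by
        intro a c
        rw [mul_comm, ← Algebra.smul_def, map_smul, smul_eq_mul, mul_comm]
      rw [pderiv_Lam, eval_Lam, hf]
    rw [map_sum]
    have h2 : ∀ l, eval (fun l => algebraMap M Ω (y l)) (pderiv l g *
        MvPolynomial.map ((algebraMap M Ω).comp j) (v i l)) =
        algebraMap M Ω (eval₂ j y (u i)) * (eval (fun l => algebraMap M Ω (y l)) (pderiv l g) *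
        algebraMap M Ω (dy l)) := by
      intro l
      rw [map_mul, ev1]
      have : eval₂ j y (v i l) = eval₂ j y (u i) * dy l := by
        rw [hdy]; exact (mul_div_cancel₀ _ huy).symm
      rw [this, map_mul]
      ring
    rw [Finset.sum_congr rfl fun l _ => h2 l, ← Finset.mul_sum, hzero, mul_zero]
  have hmain := hst I hFI hstab
  -- polynomials in the other variables
  have hpd : ∀ G : MvPolynomial {l // l ≠ l₀} Ω, pderiv l₀ (rename Subtype.val G) = 0 := by
    intro G
    refine pderiv_eq_zero_of_notMem_vars ?_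
    intro h6
    have h7 := vars_rename (Subtype.val : {l // l ≠ l₀} → Fin N) G h6
    rw [Finset.mem_image] at h7
    obtain ⟨i, -, hi⟩ := h7
    exact i.2 hi
  obtain ⟨y₀, hy₀⟩ := hne
  have hzero := W572.zero_of_pderiv_closed
    {G : MvPolynomial {l // l ≠ l₀} Ω | rename Subtype.val G ∈ I}
    (fun l => algebraMap M Ω (y₀ l)) (by
      intro G hG
      have h1 := (hI _).1 hG y₀ hy₀
      rw [eval_rename] at h1
      exact h1) (by
      intro G hG a
      have h1 := hmain a _ hG
      rw [hpd, mul_zero, sub_zero, pderiv_rename Subtype.val_injective] at h1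
      show rename Subtype.val (pderiv a G) ∈ I
      rw [hI] at h1 ⊢
      intro y hy
      have h2 := h1 y hy
      have e : MvPolynomial.map ((algebraMap M Ω).comp j) h *
          pderiv l₀ (MvPolynomial.map ((algebraMap M Ω).comp j) F) =
          MvPolynomial.map ((algebraMap M Ω).comp j) (h * pderiv l₀ F) := by
        rw [pderiv_map, map_mul]
      rw [← mul_assoc, e, map_mul, ev1] at h2
      refine (mul_eq_zero.1 h2).resolve_left ?_
      intro h3
      apply hh _ hy.2
      rw [ev2, (map_eq_zero (algebraMap M Ω)).1 h3, map_zero])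
  by_contra hFP
  have hl₀' : pderiv l₀ (MvPolynomial.map ((algebraMap M Ω).comp j) F) ≠ 0 := by
    rw [pderiv_map, Ne, map_eq_zero_iff _ (map_injective _ (RingHom.injective _))]
    exact hl₀
  obtain ⟨G, hG, A', B', hAB⟩ := W572.G.exists_elim _ P l₀ hFirr hl₀' hFP
  apply hG
  apply hzero
  show rename Subtype.val G ∈ I
  rw [hAB]
  exact I.add_mem (I.mul_mem_left _ hFI) (I.mul_mem_left _ ((hI P).2 hP))

end core

end Pool.Agent.Y742.GG
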