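import Mathlib

/-!
# Extensions of derivations (helper742)
-/

set_option autoImplicit false

open Polynomial

namespace Pool.Agent.Y742.GG

/-- a derivation from its rules -/
noncomputable def mkDer {A : Type*} [CommRing A] (f : A → A) (h1 : ∀ x y, f (x + y) = f x + f y)
    (h2 : ∀ x y, f (x * y) = x * f y + y * f x) : Derivation ℤ A A :=
  Derivation.mk' (AddMonoidHom.mk' f h1).toIntLinearMap (by
    intro x y
    simpa [smul_eq_mul] using h2 x y)

@[simp] lemma mkDer_apply {A : Type*} [CommRing A] (f : A → A)
    (h1 : ∀ x y, f (x + y) = f x + f y) (h2 : ∀ x y, f (x * y) = x * f y + y * f x) (x : A) :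
    mkDer f h1 h2 x = f x := rfl

/-- derivations extend to finite extensions -/
theorem ext_der {K K' : Type*} [Field K] [Field K'] [CharZero K] [Algebra K K']
    [FiniteDimensional K K'] (E : Derivation ℤ K K) :
    ∃ D : Derivation ℤ K' K', ∀ a, D (algebraMap K K' a) = algebraMap K K' (E a) := by
  let i1 : Differential K := ⟨E⟩
  let i2 : Differential K' := Differential.differentialFiniteDimensional K K'
  have i3 : DifferentialAlgebra K K' := Differential.differentialAlgebraFiniteDimensional
  exact ⟨Differential.deriv, fun a => i3.deriv_algebraMap a⟩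

section

variable {F K R : Type*} [Field F] [Field K] [Algebra F K] [CommRing R] [Algebra R K]

lemma der_aeval' (D : Derivation R K K) (hD : ∀ a : F, D (algebraMap F K a) = 0) (z : K)
    (P : F[X]) : D (aeval z P) = aeval z (derivative P) * D z := by
  induction P using Polynomial.induction_on' with
  | add p q hp hq => simp only [map_add, hp, hq, add_mul]
  | monomial n a =>
    rw [aeval_monomial, derivative_monomial, aeval_monomial, Derivation.leibniz, hD, smul_zero,
      add_zero, Derivation.leibniz_pow]
    simp only [smul_eq_mul, nsmul_eq_mul, map_mul, map_natCast]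
    ring

/-- a derivation which kills a field kills the algebraic elements -/
theorem der_alg [CharZero F] (D : Derivation R K K) (hD : ∀ a : F, D (algebraMap F K a) = 0)
    {z : K} (hz : IsAlgebraic F z) : D z = 0 := by
  have hi := hz.isIntegral
  have h1 := der_aeval' D hD z (minpoly F z)
  rw [minpoly.aeval, map_zero] at h1
  have h2 : aeval z (derivative (minpoly F z)) ≠ 0 :=
    (minpoly.irreducible hi).separable.aeval_derivative_ne_zero (minpoly.aeval F z)
  exact (mul_eq_zero.1 h1.symm).resolve_left h2

end

/-- the extension commutes with the automorphisms -/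
theorem der_comm {K K' : Type*} [Field K] [Field K'] [CharZero K] [Algebra K K']
    [FiniteDimensional K K'] {E : Derivation ℤ K K} {D : Derivation ℤ K' K'}
    (hD : ∀ a, D (algebraMap K K' a) = algebraMap K K' (E a)) (σ : K' ≃ₐ[K] K') (z : K') :
    D (σ z) = σ (D z) := by
  let D' : Derivation ℤ K' K' := mkDer (fun z => σ.symm (D (σ z))) (by intro x y; simp) (by
    intro x y
    simp)
  have h1 : (D' - D) z = 0 := by
    apply der_alg (F := K) (D' - D)
    · intro a
      rw [Derivation.sub_apply]
      show σ.symm (D (σ (algebraMap K K' a))) - _ = 0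
      rw [AlgEquiv.commutes, hD, AlgEquiv.commutes, sub_self]
    · exact Algebra.IsAlgebraic.isAlgebraic z
  rw [Derivation.sub_apply, sub_eq_zero] at h1
  have h2 : σ.symm (D (σ z)) = D z := h1
  rw [← h2, AlgEquiv.apply_symm_apply]

end Pool.Agent.Y742.GG
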