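import Pool.Agent.Y742.GG.Tor
import Pool.Agent.Y720.MZ.PF

/-!
# The difference of two points of a genus one fibration with a flow (helper742)
-/

set_option autoImplicit false

open WeierstrassCurve Pool.Agent.Y720.MZ

namespace Pool.Agent.Y742.GG

variable {K : Type*} [Field K] [CharZero K] [DecidableEq K] {R : Type*} [CommRing R] [Algebra R K]

/-- the difference of the points `(0, w)`, `(0, -w)` has infinite order -/
theorem inf_of_flow (D : Derivation R K K) {w q₁ q₂ q₃ q₄ : K} (hw : w ≠ 0)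
    (hDw : 2 * w * D w = q₁) (h1 : D q₁ = 2 * q₂) (h2 : D q₂ = 3 * q₃) (h3 : D q₃ = 4 * q₄)
    (h4 : D q₄ = 0) (hdc : dc (w ^ 2) q₁ q₂ q₃ q₄ ≠ 0) :
    ∀ h, ∀ n : ℕ, n ≠ 0 → n • (.some (xs w q₁ q₂) (ys w q₁ q₂ q₃) h :
      Pt q₂ (rb w q₁ q₃ q₄) (rc w q₁ q₂ q₃ q₄)) ≠ 0 := by
  intro h
  obtain ⟨u, hu⟩ : ∃ u, u = w⁻¹ := ⟨_, rfl⟩
  have huw : u * w = 1 := by rw [hu, inv_mul_cancel₀ hw]
  have hDw' : D w = q₁ * u / 2 := by
    have : D w = (u * w) * D w := by rw [huw, one_mul]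
    rw [this, ← hDw]; ring
  have hDu : D u = -(u ^ 2 * (q₁ * u / 2)) := by
    rw [hu, Derivation.leibniz_inv, ← hu, hDw', smul_eq_mul, hu]
    ring
  have hn2 : D (2 : K) = 0 := by exact_mod_cast D.map_natCast 2
  have hn3 : D ((3 : K)⁻¹) = 0 := by
    rw [Derivation.leibniz_inv]
    have : D (3 : K) = 0 := by exact_mod_cast D.map_natCast 3
    rw [this, smul_zero]
  have hn4 : D ((4 : K)⁻¹) = 0 := by
    rw [Derivation.leibniz_inv]
    have : D (4 : K) = 0 := by exact_mod_cast D.map_natCast 4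
    rw [this, smul_zero]
  have hn2' : D ((2 : K)⁻¹) = 0 := by
    rw [Derivation.leibniz_inv, hn2, smul_zero]
  have hn4' : D (4 : K) = 0 := by exact_mod_cast D.map_natCast 4
  have ex : xs w q₁ q₂ = q₁ * q₁ * u * u * 4⁻¹ - q₂ := by
    rw [xs, hu]; field_simp
  have ey : ys w q₁ q₂ q₃ = (q₁ * (q₁ * q₁ * u * u * 4⁻¹ - q₂)) * u * 2⁻¹ + w * q₃ := by
    rw [ys, ex, hu]; field_simp
  have hI : D (q₁ * q₃ - 4 * w ^ 2 * q₄ - q₂ ^ 2 / 3) = 0 := by
    have e : q₁ * q₃ - 4 * w ^ 2 * q₄ - q₂ ^ 2 / 3 = q₁ * q₃ - 4 * (w * w) * q₄ - q₂ * q₂ * 3⁻¹ := by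
      ring
    rw [e]
    simp only [map_sub, Derivation.leibniz, smul_eq_mul, h1, h2, h3, h4, hDw', hn3, hn4']
    linear_combination (-4 * q₁ * q₄) * huw
  have hX : D (xs w q₁ q₂ + q₂ / 3) = -2 * u * ys w q₁ q₂ q₃ := by
    have e : xs w q₁ q₂ + q₂ / 3 = q₁ * q₁ * u * u * 4⁻¹ - q₂ + q₂ * 3⁻¹ := by rw [ex]; ring
    rw [e, ey]
    simp only [map_sub, map_add, Derivation.leibniz, smul_eq_mul, h1, h2, hDu, hn3, hn4]
    linear_combination (2 * q₃) * huw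
  have hY : D (ys w q₁ q₂ q₃) = -2 * u * (3 * (xs w q₁ q₂ + q₂ / 3) ^ 2 +
      (rb w q₁ q₃ q₄ - q₂ ^ 2 / 3)) / 2 := by
    rw [ey, ex, rb]
    simp only [map_sub, map_add, Derivation.leibniz, smul_eq_mul, h1, h2, h3, hDu, hDw', hn2',
      hn4]
    linear_combination (-4 * w * q₄) * huw
  have hκ : -2 * u ≠ 0 := mul_ne_zero (by norm_num) (by
    intro h0; rw [h0, zero_mul] at huw; exact zero_ne_one huw)
  have hy : ys w q₁ q₂ q₃ ≠ 0 := by
    intro h0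
    rw [h0, map_zero] at hY
    have h5 : 3 * (xs w q₁ q₂ + q₂ / 3) ^ 2 + (rb w q₁ q₃ q₄ - q₂ ^ 2 / 3) = 0 := by
      have := hY.symm
      rw [div_eq_zero_iff, or_iff_left two_ne_zero, mul_eq_zero] at this
      exact this.resolve_left hκ
    have h6 := s_eqn (q₁ := q₁) (q₂ := q₂) (q₃ := q₃) (q₄ := q₄) hw
    rw [h0] at h6
    apply hdc
    rw [← dq_eq, dq]
    exact dsc_root (x := xs w q₁ q₂) (by rw [← h6]; ring) (by linear_combination h5)
  exact inf_of_deriv D hI h hκ hy hX hY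

end Pool.Agent.Y742.GG
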