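import Pool.Agent.Y720.MZ.Quar

/-!
# Points of infinite order from derivations (helper742)
-/

set_option autoImplicit false

open WeierstrassCurve Pool.Agent.Y720.MZ

namespace Pool.Agent.Y742.GG

section der

variable {K : Type*} [Field K] [CharZero K] [DecidableEq K] {R : Type*} [CommRing R] [Algebra R K]

lemma der_div_nat (D : Derivation R K K) (a : K) (n : ℕ) : D (a / n) = D a / n := by
  have h1 : D ((n : K)⁻¹) = 0 := by
    rw [Derivation.leibniz_inv, Derivation.map_natCast, smul_zero]
  rw [div_eq_mul_inv, Derivation.leibniz, h1, smul_zero, zero_add, smul_eq_mul]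
  ring

/-- **Points of infinite order.** -/
theorem inf_of_deriv (D : Derivation R K K) {a b c : K}
    (hI : D (b - a ^ 2 / 3) = 0) {x y : K}
    (h : (cv a b c).toAffine.Nonsingular x y) {κ : K} (hκ : κ ≠ 0)
    (hy : y ≠ 0) (h1 : D (x + a / 3) = κ * y)
    (h2 : D y = κ * (3 * (x + a / 3) ^ 2 + (b - a ^ 2 / 3)) / 2) :
    ∀ n : ℕ, n ≠ 0 → n • (.some x y h : Pt a b c) ≠ 0 := by
  set p := b - a ^ 2 / 3 with hp
  have key : ∀ n : ℕ, ∃ X Y h', (n + 1) • (.some x y h : Pt a b c) = .some X Y h' ∧
      D (X + a / 3) = (n + 1) * κ * Y ∧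
      D Y = (n + 1) * κ * (3 * (X + a / 3) ^ 2 + p) / 2 := by
    intro n
    induction n with
    | zero =>
      refine ⟨x, y, h, by rw [zero_add, one_smul], ?_, ?_⟩
      · rw [h1]; push_cast; ring
      · rw [h2]; push_cast; ring
    | succ n ih =>
      obtain ⟨X, Y, h', e, d1, d2⟩ := ih
      set u : K := (n + 1) * κ with hu
      have hu0 : u ≠ 0 := mul_ne_zero (by exact_mod_cast n.succ_ne_zero) hκ
      have q1 := (cv_ns.1 h').1
      have q2 := (cv_ns.1 h).1
      by_cases hx : X = x
      · subst hx
        have hY : Y = y := by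
          rcases eq_or_neg h' h with e1 | e1
          · rw [Affine.Point.some.injEq] at e1
            exact e1.2
          · exfalso
            have hn := neg_mk h
            obtain ⟨hn', hn⟩ := hn
            rw [hn, Affine.Point.some.injEq] at e1
            rw [h1, e1.2] at d1
            have h5 : κ * y * ((n + 1 : ℕ) + 1) = 0 := by
              rw [hu] at d1
              push_cast
              linear_combination d1
            have h6 : ((n + 1 : ℕ) : K) + 1 ≠ 0 := by exact_mod_cast (n + 1).succ_ne_zero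
            exact mul_ne_zero (mul_ne_zero hκ hy) h6 h5
        subst hY
        have hn : u = κ := by
          rw [h1] at d1
          exact (mul_right_cancel₀ hy d1).symm
        have hy2 : 2 * Y ≠ 0 := mul_ne_zero two_ne_zero hy
        obtain ⟨h3, e3⟩ := dbl_mk h hy2 (ℓ := (3 * X ^ 2 + 2 * a * X + b) / (2 * Y))
          (div_mul_cancel₀ _ hy2)
        set ℓ := (3 * X ^ 2 + 2 * a * X + b) / (2 * Y) with hℓ
        have hℓ' : ℓ * (2 * Y) = 3 * (X + a / 3) ^ 2 + p := by
          rw [hℓ, div_mul_cancel₀ _ hy2, hp]; ring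
        have hDℓ : D ℓ = κ * (3 * (X + a / 3) - ℓ ^ 2) := by
          have h5 := congrArg D hℓ'
          have h6 : D (ℓ * (2 * Y)) = 2 * Y * D ℓ + 2 * ℓ * D Y := by
            rw [Derivation.leibniz, Derivation.leibniz, smul_eq_mul, smul_eq_mul, smul_eq_mul,
              smul_eq_mul]
            have : D (2 : K) = 0 := by exact_mod_cast D.map_natCast 2
            rw [this]; ring
          have h7 : D (3 * (X + a / 3) ^ 2 + p) = 6 * (X + a / 3) * D (X + a / 3) := by
            rw [map_add, hI, Derivation.leibniz, Derivation.leibniz_pow, smul_eq_mul]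
            have : D (3 : K) = 0 := by exact_mod_cast D.map_natCast 3
            rw [this]
            simp only [smul_eq_mul, nsmul_eq_mul]
            push_cast
            ring
          rw [h6, h7, h1, h2, ← hℓ'] at h5
          apply mul_left_cancel₀ hy2
          linear_combination h5
        have e4 : (n + 1 + 1) • (.some X Y h : Pt a b c) =
            .some (ℓ ^ 2 - a - X - X) (-(ℓ * (ℓ ^ 2 - a - X - X - X) + Y)) h3 := by
          rw [succ_nsmul, e]
          exact e3
        have d3 : D (ℓ ^ 2 - a - X - X + a / 3) =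
            2 * κ * (-(ℓ * (ℓ ^ 2 - a - X - X - X) + Y)) := by
          have e5 : ℓ ^ 2 - a - X - X + a / 3 = ℓ ^ 2 - (X + a / 3) - (X + a / 3) := by ring
          rw [e5, map_sub, map_sub, Derivation.leibniz_pow, h1, hDℓ]
          simp only [smul_eq_mul, nsmul_eq_mul]
          push_cast
          ring
        have e6 : (-(ℓ * (ℓ ^ 2 - a - X - X - X) + Y)) =
            -(ℓ * (ℓ ^ 2 - (X + a / 3) - (X + a / 3) - (X + a / 3)) + Y) := by ring
        have d4 : D (-(ℓ * (ℓ ^ 2 - a - X - X - X) + Y)) =
            2 * κ * (3 * (ℓ ^ 2 - a - X - X + a / 3) ^ 2 + p) / 2 := by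
          have e5 : ℓ ^ 2 - a - X - X + a / 3 = ℓ ^ 2 - (X + a / 3) - (X + a / 3) := by ring
          rw [e6, e5, map_neg, map_add, Derivation.leibniz, map_sub, map_sub, map_sub,
            Derivation.leibniz_pow, h1, hDℓ, h2]
          have hp' : p = ℓ * (2 * Y) - 3 * (X + a / 3) ^ 2 := by rw [hℓ']; ring
          rw [hp']
          simp only [smul_eq_mul, nsmul_eq_mul]
          push_cast
          ring
        refine ⟨_, _, h3, e4, ?_, ?_⟩
        · rw [d3]
          have : (((n + 1 : ℕ) : K) + 1) * κ = 2 * κ := by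
            rw [hu] at hn; push_cast; linear_combination hn
          rw [this]
        · rw [d4]
          have : (((n + 1 : ℕ) : K) + 1) * κ = 2 * κ := by
            rw [hu] at hn; push_cast; linear_combination hn
          rw [this]
      · -- the chord
        have hx0 : X - x ≠ 0 := sub_ne_zero.2 hx
        obtain ⟨h3, e3⟩ := add_mk h' h hx (ℓ := (Y - y) / (X - x)) (div_mul_cancel₀ _ hx0)
        set ℓ := (Y - y) / (X - x) with hℓ
        have hℓ' : ℓ * ((X + a / 3) - (x + a / 3)) = Y - y := by
          rw [show X + a / 3 - (x + a / 3) = X - x by ring, hℓ, div_mul_cancel₀ _ hx0]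
        set z1 := X + a / 3 with hz1
        set z2 := x + a / 3 with hz2
        have hz : z1 - z2 ≠ 0 := by rw [hz1, hz2]; intro h0; exact hx0 (by linear_combination h0)
        have hyy : y = Y - ℓ * (z1 - z2) := by linear_combination hℓ'
        have hp' : p = ℓ * (2 * Y - ℓ * (z1 - z2)) - z1 ^ 2 - z1 * z2 - z2 ^ 2 := by
          apply mul_left_cancel₀ hz
          have e5 : Y ^ 2 - y ^ 2 = (z1 - z2) * (z1 ^ 2 + z1 * z2 + z2 ^ 2 + p) := by
            rw [q1, q2, hz1, hz2, hp]; ring
          rw [hyy] at e5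
          linear_combination -e5
        have hDℓ : D ℓ = (u * (z1 - (ℓ ^ 2 - z1 - z2)) + κ * (z2 - (ℓ ^ 2 - z1 - z2))) / 2 := by
          have h5 := congrArg D hℓ'
          rw [Derivation.leibniz, map_sub, map_sub, d1, h1, d2, h2, smul_eq_mul, smul_eq_mul] at h5
          apply mul_left_cancel₀ hz
          rw [hp', hyy] at h5
          linear_combination h5
        have e4 : (n + 1 + 1) • (.some x y h : Pt a b c) =
            .some (ℓ ^ 2 - a - X - x) (-(ℓ * (ℓ ^ 2 - a - X - x - X) + Y)) h3 := by
          rw [succ_nsmul, e]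
          exact e3
        have e5 : ℓ ^ 2 - a - X - x + a / 3 = ℓ ^ 2 - z1 - z2 := by rw [hz1, hz2]; ring
        have e6 : (-(ℓ * (ℓ ^ 2 - a - X - x - X) + Y)) = -(ℓ * (ℓ ^ 2 - z1 - z2 - z1) + Y) := by
          rw [hz1, hz2]; ring
        have e7 : ((((n + 1 : ℕ) : K)) + 1) * κ = u + κ := by rw [hu]; push_cast; ring
        refine ⟨_, _, h3, e4, ?_, ?_⟩
        · rw [e5, e6, e7, map_sub, map_sub, Derivation.leibniz_pow, d1, h1, hDℓ]
          simp only [smul_eq_mul, nsmul_eq_mul]
          rw [hyy]
          push_cast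
          ring
        · rw [e5, e6, e7, map_neg, map_add, Derivation.leibniz, map_sub, map_sub, map_sub,
            Derivation.leibniz_pow, d1, h1, hDℓ, d2]
          simp only [smul_eq_mul, nsmul_eq_mul]
          rw [hyy, hp']
          push_cast
          ring
  intro n hn h0
  obtain ⟨m, rfl⟩ := Nat.exists_eq_succ_of_ne_zero hn
  obtain ⟨X, Y, h', e, -⟩ := key m
  rw [Nat.succ_eq_add_one, e] at h0
  exact absurd h0 (by simp)

end der

section transfer

variable {K M : Type*} [Field K] [Field M] [DecidableEq K] [DecidableEq M]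

lemma tr0 (σ : K →+* M) {a b c x y : K} {W₂ : WeierstrassCurve M} (e : (cv a b c).map σ = W₂)
    (h : (cv a b c).toAffine.Nonsingular x y) (h' : W₂.toAffine.Nonsingular (σ x) (σ y)) (n : ℕ) :
    n • (.some x y h : Pt a b c) = 0 ↔ n • (.some (σ x) (σ y) h' : W₂.toAffine.Point) = 0 := by
  let : Algebra K M := σ.toAlgebra
  subst e
  let f := Affine.Point.map (R := K) (S := K) (F := K) (K := M) (W' := (cv a b c).toAffine)
    (Algebra.ofId K M)
  have hf : Function.Injective f := Affine.Point.map_injective (R := K) (S := K) (F := K)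
    (K := M) (W' := (cv a b c).toAffine) (Algebra.ofId K M)
  let P : Affine.Point ((cv a b c).toAffine⁄K) := (.some x y h : Pt a b c)
  have h1 : f P = .some (σ x) (σ y) h' := rfl
  have h2 : n • (.some (σ x) (σ y) h' : ((cv a b c).map σ).toAffine.Point) = f (n • P) := by
    rw [map_nsmul, h1]
    rfl
  rw [h2]
  constructor
  · intro h3
    have h4 : n • P = 0 := h3
    rw [h4, map_zero]
    rfl
  · intro h3
    have h4 : f (n • P) = f 0 := by
      rw [map_zero]; exact h3
    exact hf h4

/-- multiples and field homomorphisms -/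
theorem tr (σ : K →+* M) {a b c x y : K} {a' b' c' x' y' : M} (ha : a' = σ a) (hb : b' = σ b)
    (hc : c' = σ c) (hx : x' = σ x) (hy : y' = σ y) (h : (cv a b c).toAffine.Nonsingular x y)
    (h' : (cv a' b' c').toAffine.Nonsingular x' y') (n : ℕ) :
    n • (.some x y h : Pt a b c) = 0 ↔ n • (.some x' y' h' : Pt a' b' c') = 0 := by
  subst hx hy
  refine tr0 σ ?_ h h' n
  rw [ha, hb, hc]
  simp [cv, WeierstrassCurve.map]

end transfer

end Pool.Agent.Y742.GG
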