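import Pool.Agent.Y742.GG.Move
import Pool.Agent.Y742.GG.Tor
import Pool.Agent.Y720.WA.Tor
import Pool.Agent.Y720.WA.Cont

/-!
# The points near a generic `p`-adic point (helper742)
-/

set_option autoImplicit false
set_option linter.unusedSectionVars false

open Polynomial WeierstrassCurve Pool.Agent.Y720.MZ Filter Topology

namespace Pool.Agent.Y742.GG

section rg

variable {S K M M' : Type*} [CommRing S] [Field K] [Field M] [Field M'] {φ : S →+* K}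
  {τ : S →+* M} (σ : M →+* M')

lemma Rg.comp {f : K} {r : M} (h : Rg φ τ f r) : Rg φ (σ.comp τ) f (σ r) := by
  obtain ⟨P, Q, hQ, hq, e1, e2⟩ := h
  exact ⟨P, Q, hQ.map σ, hq, e1, by
    rw [RingHom.comp_apply, RingHom.comp_apply, ← map_mul, e2]⟩

lemma Rg.of_comp {f : K} {r' : M'} (h : Rg φ (σ.comp τ) f r') : ∃ r, Rg φ τ f r := by
  obtain ⟨P, Q, hQ, hq, e1, -⟩ := h
  have hQ' : τ Q ≠ 0 := by
    intro h0
    rw [RingHom.comp_apply, h0, map_zero] at hQ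
    exact hQ.ne_zero rfl
  exact ⟨τ P / τ Q, P, Q, IsUnit.mk0 _ hQ', hq, e1, div_mul_cancel₀ _ hQ'⟩

end rg

variable {K : Type*} [Field K] {N : ℕ}

/-- all the coefficients -/
def Mv.coefs (μ : Mv K N) : Set K :=
  {μ.w, μ.q₁, μ.q₂, μ.q₃, μ.q₄} ∪ Set.range μ.d ∪ (⋃ l, Set.range (μ.A l).coeff) ∪
    (⋃ l, Set.range (μ.A' l).coeff) ∪ Set.range μ.B.coeff ∪ Set.range μ.B'.coeff

lemma finite_coeff (P : K[X]) : (Set.range P.coeff).Finite := by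
  classical
  refine ((P.support.image P.coeff).finite_toSet.union (Set.finite_singleton 0)).subset ?_
  rintro _ ⟨n, rfl⟩
  by_cases h : P.coeff n = 0
  · right; exact h
  · left
    simp only [Finset.coe_image, Set.mem_image, Finset.mem_coe, mem_support_iff]
    exact ⟨n, h, rfl⟩

lemma Mv.coefs_finite (μ : Mv K N) : μ.coefs.Finite := by
  unfold Mv.coefs
  refine (((((Set.toFinite _).union (Set.finite_range _)).union
    (Set.finite_iUnion fun l => finite_coeff _)).union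
    (Set.finite_iUnion fun l => finite_coeff _)).union (finite_coeff _)).union (finite_coeff _)

/-- a good place -/
structure Good {S M : Type*} [CommRing S] [Field M] [DecidableEq M] (φ : S →+* K) (τ : S →+* M)
    (μ : Mv K N) : Prop where
  reg : ∀ f ∈ μ.coefs, f ∈ Oc φ τ
  w0 : ∀ r, Rg φ τ μ.w r → r ≠ 0
  B0 : ∀ r, Rg φ τ (μ.B.coeff 0 + μ.B'.coeff 0 * μ.w) r → r ≠ 0
  inf : ∀ w q₁ q₂ q₃ q₄, Rg φ τ μ.w w → Rg φ τ μ.q₁ q₁ → Rg φ τ μ.q₂ q₂ → Rg φ τ μ.q₃ q₃ →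
    Rg φ τ μ.q₄ q₄ → dc (w ^ 2) q₁ q₂ q₃ q₄ ≠ 0 → ∀ h, ∀ n : ℕ, n ≠ 0 →
      n • (.some (xs w q₁ q₂) (ys w q₁ q₂ q₃) h :
        Pt q₂ (rb w q₁ q₃ q₄) (rc w q₁ q₂ q₃ q₄)) ≠ 0

section transf

variable {S M M' : Type*} [CommRing S] [Field M] [Field M'] [DecidableEq M] [DecidableEq M']
  {φ : S →+* K} {τ : S →+* M} (σ : M →+* M')

lemma ns_map {a b c x y : M} (h : (cv a b c).toAffine.Nonsingular x y) :
    (cv (σ a) (σ b) (σ c)).toAffine.Nonsingular (σ x) (σ y) := by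
  have h1 := (Affine.map_nonsingular (cv a b c).toAffine σ.injective x y).2 h
  have e : (cv a b c).map σ = cv (σ a) (σ b) (σ c) := by simp [cv, WeierstrassCurve.map]
  rw [← e]
  exact h1

lemma map_xs (w q₁ q₂ : M) : xs (σ w) (σ q₁) (σ q₂) = σ (xs w q₁ q₂) := by
  simp only [xs, map_sub, map_div₀, map_mul, map_pow, map_ofNat]

lemma map_ys (w q₁ q₂ q₃ : M) : ys (σ w) (σ q₁) (σ q₂) (σ q₃) = σ (ys w q₁ q₂ q₃) := by
  simp only [ys, map_xs, map_add, map_div₀, map_mul, map_pow, map_ofNat]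

lemma map_rb (w q₁ q₃ q₄ : M) : rb (σ w) (σ q₁) (σ q₃) (σ q₄) = σ (rb w q₁ q₃ q₄) := by
  simp only [rb, map_sub, map_mul, map_pow, map_ofNat]

lemma map_rc (w q₁ q₂ q₃ q₄ : M) :
    rc (σ w) (σ q₁) (σ q₂) (σ q₃) (σ q₄) = σ (rc w q₁ q₂ q₃ q₄) := by
  simp only [rc, map_add, map_sub, map_mul, map_pow, map_ofNat]

lemma map_dc {R R' : Type*} [CommRing R] [CommRing R'] (σ : R →+* R') (w q₁ q₂ q₃ q₄ : R) :
    dc (σ w) (σ q₁) (σ q₂) (σ q₃) (σ q₄) = σ (dc w q₁ q₂ q₃ q₄) := by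
  simp only [dc, dsc, map_add, map_sub, map_mul, map_pow, map_ofNat]

/-- the infinite order of the difference descends -/
lemma inf_of_map {w q₁ q₂ q₃ q₄ : M}
    (H : ∀ h, ∀ n : ℕ, n ≠ 0 → n • (.some (xs (σ w) (σ q₁) (σ q₂)) (ys (σ w) (σ q₁) (σ q₂) (σ q₃))
      h : Pt (σ q₂) (rb (σ w) (σ q₁) (σ q₃) (σ q₄)) (rc (σ w) (σ q₁) (σ q₂) (σ q₃) (σ q₄))) ≠ 0)
    (h) (n : ℕ) (hn : n ≠ 0) : n • (.some (xs w q₁ q₂) (ys w q₁ q₂ q₃) h :
      Pt q₂ (rb w q₁ q₃ q₄) (rc w q₁ q₂ q₃ q₄)) ≠ 0 := by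
  intro h0
  have h' : (cv (σ q₂) (rb (σ w) (σ q₁) (σ q₃) (σ q₄))
      (rc (σ w) (σ q₁) (σ q₂) (σ q₃) (σ q₄))).toAffine.Nonsingular
      (xs (σ w) (σ q₁) (σ q₂)) (ys (σ w) (σ q₁) (σ q₂) (σ q₃)) := by
    rw [map_rb, map_rc, map_xs, map_ys]; exact ns_map σ h
  exact H h' n hn ((tr σ rfl (map_rb σ _ _ _ _) (map_rc σ _ _ _ _ _) (map_xs σ _ _ _)
    (map_ys σ _ _ _ _) h h' n).1 h0)

/-- and ascends -/
lemma inf_map {w q₁ q₂ q₃ q₄ : M}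
    (H : ∀ h, ∀ n : ℕ, n ≠ 0 → n • (.some (xs w q₁ q₂) (ys w q₁ q₂ q₃) h :
      Pt q₂ (rb w q₁ q₃ q₄) (rc w q₁ q₂ q₃ q₄)) ≠ 0)
    (h) (n : ℕ) (hn : n ≠ 0) :
    n • (.some (xs (σ w) (σ q₁) (σ q₂)) (ys (σ w) (σ q₁) (σ q₂) (σ q₃))
      h : Pt (σ q₂) (rb (σ w) (σ q₁) (σ q₃) (σ q₄)) (rc (σ w) (σ q₁) (σ q₂) (σ q₃) (σ q₄))) ≠ 0 := by
  intro h0
  have h' : (cv q₂ (rb w q₁ q₃ q₄) (rc w q₁ q₂ q₃ q₄)).toAffine.Nonsingular
      (xs w q₁ q₂) (ys w q₁ q₂ q₃) := by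
    rw [map_rb, map_rc, map_xs, map_ys] at h
    have e : (cv q₂ (rb w q₁ q₃ q₄) (rc w q₁ q₂ q₃ q₄)).map σ =
      cv (σ q₂) (σ (rb w q₁ q₃ q₄)) (σ (rc w q₁ q₂ q₃ q₄)) := by
      simp [cv, WeierstrassCurve.map]
    rw [← e] at h
    exact (Affine.map_nonsingular (cv q₂ (rb w q₁ q₃ q₄)
      (rc w q₁ q₂ q₃ q₄)).toAffine σ.injective _ _).1 h
  exact H h' n hn ((tr σ rfl (map_rb σ _ _ _ _) (map_rc σ _ _ _ _ _) (map_xs σ _ _ _)
    (map_ys σ _ _ _ _) h' h n).2 h0)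

/-- good places descend -/
theorem Good.of_comp {μ : Mv K N} (h : Good φ (σ.comp τ) μ) : Good φ τ μ where
  reg f hf := by
    obtain ⟨r, hr⟩ := h.reg f hf
    exact hr.of_comp σ
  w0 r hr h0 := h.w0 _ (hr.comp σ) (by rw [h0, map_zero])
  B0 r hr h0 := h.B0 _ (hr.comp σ) (by rw [h0, map_zero])
  inf w q₁ q₂ q₃ q₄ hw h₁ h₂ h₃ h₄ hdc := by
    apply inf_of_map σ
    refine h.inf _ _ _ _ _ (hw.comp σ) (h₁.comp σ) (h₂.comp σ) (h₃.comp σ) (h₄.comp σ) ?_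
    rw [← map_pow, map_dc]
    exact (map_ne_zero σ).2 hdc

end transf

section near

variable {k : Type*} [Field k] {p : ℕ} [hp : Fact p.Prime] (σ : k →+* ℚ_[p])

/-- evaluation of polynomials -/
noncomputable def tau (X : Fin N → ℚ_[p]) : MvPolynomial (Fin N) k →+* ℚ_[p] :=
  MvPolynomial.eval₂Hom σ X

lemma tau_apply (X : Fin N → ℚ_[p]) (P : MvPolynomial (Fin N) k) :
    tau σ X P = MvPolynomial.eval₂ σ X P := rfl

lemma cont_tau (P : MvPolynomial (Fin N) k) : Continuous fun X => tau σ X P := by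
  have : (fun X => tau σ X P) = fun X => MvPolynomial.eval X (MvPolynomial.map σ P) := by
    funext X
    rw [tau_apply, MvPolynomial.eval_map]
  rw [this]
  exact MvPolynomial.continuous_eval _

variable {φ : MvPolynomial (Fin N) k →+* K}

lemma near_rg {X₀ : Fin N → ℚ_[p]} {f : K} {r : ℚ_[p]} (h : Rg φ (tau σ X₀) f r) :
    ∃ g : (Fin N → ℚ_[p]) → ℚ_[p], Tendsto g (𝓝 X₀) (𝓝 r) ∧
      ∀ᶠ X in 𝓝 X₀, Rg φ (tau σ X) f (g X) := by
  obtain ⟨P, Q, hQ, hq, e1, e2⟩ := h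
  have hQ' : tau σ X₀ Q ≠ 0 := hQ.ne_zero
  refine ⟨fun X => tau σ X P / tau σ X Q, ?_, ?_⟩
  · have h1 := ((cont_tau σ P).tendsto X₀).div ((cont_tau σ Q).tendsto X₀) hQ'
    rw [← e2, mul_div_cancel_right₀ _ hQ'] at h1
    exact h1
  · refine (((cont_tau σ Q).tendsto X₀).eventually_ne hQ').mono fun X hX => ?_
    exact ⟨P, Q, IsUnit.mk0 _ hX, hq, e1, div_mul_cancel₀ _ hX⟩

/-- the field of the regular elements at a generic point -/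
def Kc {S M : Type*} [CommRing S] [Field M] (φ : S →+* K) (τ : S →+* M)
    (hk : ∀ s, τ s = 0 → φ s = 0) : Subfield K :=
  { Oc φ τ with
    inv_mem' := by
      rintro f ⟨r, hr⟩
      by_cases hf : f = 0
      · rw [hf, inv_zero]; exact ⟨0, Rg.zero⟩
      · have hr0 : r ≠ 0 := by
          rintro rfl
          obtain ⟨P, Q, hQ, hq, e1, e2⟩ := hr
          rw [zero_mul] at e2
          have := hk P e2.symm
          rw [← e1] at this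
          exact (mul_ne_zero hf hq) this
        exact ⟨r⁻¹, hr.inv hf (mul_inv_cancel₀ hr0)⟩ }

variable [DecidableEq K] [DecidableEq ℚ_[p]]

/-- **The points near a generic point are good.** -/
theorem good_near {X₀ : Fin N → ℚ_[p]} (hgen : ∀ P, tau σ X₀ P = 0 ↔ φ P = 0) (μ : Mv K N)
    (hw : μ.w ≠ 0) (hB : μ.B.coeff 0 + μ.B'.coeff 0 * μ.w ≠ 0) (hreg : ∀ f ∈ μ.coefs, f ∈ Oc φ (tau σ X₀))
    (hinf : dc (μ.w ^ 2) μ.q₁ μ.q₂ μ.q₃ μ.q₄ ≠ 0 → ∀ h, ∀ n : ℕ, n ≠ 0 →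
      n • (.some (xs μ.w μ.q₁ μ.q₂) (ys μ.w μ.q₁ μ.q₂ μ.q₃) h :
        Pt μ.q₂ (rb μ.w μ.q₁ μ.q₃ μ.q₄) (rc μ.w μ.q₁ μ.q₂ μ.q₃ μ.q₄)) ≠ 0) :
    ∀ᶠ X in 𝓝 X₀ ⊓ 𝓟 {X | ∀ P, φ P = 0 → tau σ X P = 0}, Good φ (tau σ X) μ := by
  have hk : ∀ s, φ s = 0 → tau σ X₀ s = 0 := fun s => (hgen s).2
  have hk' : ∀ s, tau σ X₀ s = 0 → φ s = 0 := fun s => (hgen s).1
  have mem : ∀ᶠ X in 𝓝 X₀ ⊓ 𝓟 {X : Fin N → ℚ_[p] | ∀ P, φ P = 0 → tau σ X P = 0},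
      ∀ P, φ P = 0 → tau σ X P = 0 := by
    exact mem_inf_of_right (mem_principal_self _)
  have nonz : ∀ f ∈ Oc φ (tau σ X₀), f ≠ 0 →
      ∀ᶠ X in 𝓝 X₀ ⊓ 𝓟 {X : Fin N → ℚ_[p] | ∀ P, φ P = 0 → tau σ X P = 0},
      ∀ r, Rg φ (tau σ X) f r → r ≠ 0 := by
    intro f hf hf0
    obtain ⟨r, hr⟩ := hf
    have hr0 : r ≠ 0 := by
      rintro rfl
      obtain ⟨P, Q, hQ, hq, e1, e2⟩ := hr
      rw [zero_mul] at e2
      have := hk' P e2.symm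
      rw [← e1] at this
      exact (mul_ne_zero hf0 hq) this
    obtain ⟨g, hg, hg'⟩ := near_rg σ hr
    filter_upwards [mem, (hg.eventually_ne hr0).filter_mono inf_le_left,
      hg'.filter_mono inf_le_left] with X h1 h2 h3 r' hr'
    rw [hr'.unique h1 h3]
    exact h2
  have mw : μ.w ∈ μ.coefs := by simp [Mv.coefs]
  have m1 : μ.q₁ ∈ μ.coefs := by simp [Mv.coefs]
  have m2 : μ.q₂ ∈ μ.coefs := by simp [Mv.coefs]
  have m3 : μ.q₃ ∈ μ.coefs := by simp [Mv.coefs]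
  have m4 : μ.q₄ ∈ μ.coefs := by simp [Mv.coefs]
  have mB : μ.B.coeff 0 ∈ μ.coefs := by simp [Mv.coefs]
  have mB' : μ.B'.coeff 0 ∈ μ.coefs := by simp [Mv.coefs]
  have hregn : ∀ᶠ X in 𝓝 X₀ ⊓ 𝓟 {X : Fin N → ℚ_[p] | ∀ P, φ P = 0 → tau σ X P = 0},
      ∀ f ∈ μ.coefs, f ∈ Oc φ (tau σ X) := by
    rw [eventually_all_finite μ.coefs_finite]
    intro f hf
    obtain ⟨r, hr⟩ := hreg f hf
    obtain ⟨g, -, hg'⟩ := near_rg σ hr
    filter_upwards [hg'.filter_mono inf_le_left] with X hX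
    exact ⟨_, hX⟩
  obtain ⟨rw', hrw⟩ := hreg _ mw
  obtain ⟨r1, hr1⟩ := hreg _ m1
  obtain ⟨r2, hr2⟩ := hreg _ m2
  obtain ⟨r3, hr3⟩ := hreg _ m3
  obtain ⟨r4, hr4⟩ := hreg _ m4
  have hrw0 : rw' ≠ 0 := by
    rintro rfl
    obtain ⟨P, Q, hQ, hq, e1, e2⟩ := hrw
    rw [zero_mul] at e2
    have := hk' P e2.symm
    rw [← e1] at this
    exact (mul_ne_zero hw hq) this
  have hinfn : ∀ᶠ X in 𝓝 X₀ ⊓ 𝓟 {X : Fin N → ℚ_[p] | ∀ P, φ P = 0 → tau σ X P = 0},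
      ∀ w q₁ q₂ q₃ q₄, Rg φ (tau σ X) μ.w w → Rg φ (tau σ X) μ.q₁ q₁ →
      Rg φ (tau σ X) μ.q₂ q₂ → Rg φ (tau σ X) μ.q₃ q₃ →
    Rg φ (tau σ X) μ.q₄ q₄ → dc (w ^ 2) q₁ q₂ q₃ q₄ ≠ 0 → ∀ h, ∀ n : ℕ, n ≠ 0 →
      n • (.some (xs w q₁ q₂) (ys w q₁ q₂ q₃) h :
        Pt q₂ (rb w q₁ q₃ q₄) (rc w q₁ q₂ q₃ q₄)) ≠ 0 := by
    by_cases hdc : dc (μ.w ^ 2) μ.q₁ μ.q₂ μ.q₃ μ.q₄ = 0
    · filter_upwards [mem] with X hX w q₁ q₂ q₃ q₄ hw' h₁ h₂ h₃ h₄ hd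
      exfalso
      apply hd
      have hO : dc ((⟨_, w, hw'⟩ : Oc φ (tau σ X)) ^ 2) ⟨_, q₁, h₁⟩ ⟨_, q₂, h₂⟩ ⟨_, q₃, h₃⟩
          ⟨_, q₄, h₄⟩ = 0 := by
        apply (Oc φ (tau σ X)).subtype_injective
        rw [← map_dc, map_pow, map_zero]
        exact hdc
      have h5 := congrArg (ev hX) hO
      rw [← map_dc, map_pow, map_zero] at h5
      rw [ev_eq hX (f := ⟨μ.w, w, hw'⟩) hw', ev_eq hX (f := ⟨μ.q₁, q₁, h₁⟩) h₁,
        ev_eq hX (f := ⟨μ.q₂, q₂, h₂⟩) h₂, ev_eq hX (f := ⟨μ.q₃, q₃, h₃⟩) h₃,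
        ev_eq hX (f := ⟨μ.q₄, q₄, h₄⟩) h₄] at h5
      exact h5
    · -- the point at the generic point
      let K₂ : Subfield K := Kc φ (tau σ X₀) hk'
      let e₂ : K₂ →+* ℚ_[p] := ev hk
      have ee : ∀ (f : K) (r : ℚ_[p]) (h : Rg φ (tau σ X₀) f r), e₂ ⟨f, r, h⟩ = r :=
        fun f r h => ev_eq hk (f := ⟨f, r, h⟩) h
      have hinf2 := inf_of_map (M := K₂) (M' := K) K₂.subtype (w := ⟨μ.w, _, hrw⟩)
        (q₁ := ⟨μ.q₁, _, hr1⟩) (q₂ := ⟨μ.q₂, _, hr2⟩) (q₃ := ⟨μ.q₃, _, hr3⟩)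
        (q₄ := ⟨μ.q₄, _, hr4⟩) (hinf hdc)
      have hinf3 := inf_map (M := K₂) (M' := ℚ_[p]) e₂ hinf2
      rw [ee _ _ hrw, ee _ _ hr1, ee _ _ hr2, ee _ _ hr3, ee _ _ hr4] at hinf3
      have hdc2 : dc (rw' ^ 2) r1 r2 r3 r4 ≠ 0 := by
        intro h0
        apply hdc
        have h5 : e₂ (dc ((⟨μ.w, _, hrw⟩ : K₂) ^ 2) ⟨μ.q₁, _, hr1⟩ ⟨μ.q₂, _, hr2⟩ ⟨μ.q₃, _, hr3⟩
            ⟨μ.q₄, _, hr4⟩) = 0 := by
          rw [← map_dc, map_pow, ee _ _ hrw, ee _ _ hr1, ee _ _ hr2, ee _ _ hr3, ee _ _ hr4, h0]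
        have h6 := (map_eq_zero e₂).1 h5
        have h7 := congrArg K₂.subtype h6
        rw [← map_dc, map_pow, map_zero] at h7
        exact h7
      have hD : dsc r2 (rb rw' r1 r3 r4) (rc rw' r1 r2 r3 r4) ≠ 0 := by
        rw [← dq_eq, dq] at hdc2; exact hdc2
      have hns := ns_of_dsc hD (s_eqn (q₁ := r1) (q₂ := r2) (q₃ := r3) (q₄ := r4) hrw0)
      obtain ⟨gw, tw, gw'⟩ := near_rg σ hrw
      obtain ⟨g1, t1, g1'⟩ := near_rg σ hr1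
      obtain ⟨g2, t2, g2'⟩ := near_rg σ hr2
      obtain ⟨g3, t3, g3'⟩ := near_rg σ hr3
      obtain ⟨g4, t4, g4'⟩ := near_rg σ hr4
      have tb : Tendsto (fun X => rb (gw X) (g1 X) (g3 X) (g4 X)) (𝓝 X₀)
          (𝓝 (rb rw' r1 r3 r4)) := by
        simp only [rb]
        exact (t1.mul t3).sub (((tw.pow 2).const_mul _).mul t4)
      have tc : Tendsto (fun X => rc (gw X) (g1 X) (g2 X) (g3 X) (g4 X)) (𝓝 X₀)
          (𝓝 (rc rw' r1 r2 r3 r4)) := by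
        simp only [rc]
        exact (((t1.pow 2).mul t4).add ((tw.pow 2).mul (t3.pow 2))).sub
          ((((tw.pow 2).const_mul _).mul t2).mul t4)
      have tx : Tendsto (fun X => xs (gw X) (g1 X) (g2 X)) (𝓝 X₀) (𝓝 (xs rw' r1 r2)) := by
        simp only [xs]
        exact ((t1.pow 2).div ((tw.pow 2).const_mul _)
          (mul_ne_zero (by norm_num) (pow_ne_zero 2 hrw0))).sub t2
      have ty : Tendsto (fun X => ys (gw X) (g1 X) (g2 X) (g3 X)) (𝓝 X₀)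
          (𝓝 (ys rw' r1 r2 r3)) := by
        simp only [ys]
        exact ((t1.mul tx).add (((tw.pow 2).const_mul _).mul t3)).div (tw.const_mul _)
          (mul_ne_zero two_ne_zero hrw0)
      classical
      let P : ∀ X, Pt (g2 X) (rb (gw X) (g1 X) (g3 X) (g4 X))
          (rc (gw X) (g1 X) (g2 X) (g3 X) (g4 X)) := fun X =>
        if h : (cv (g2 X) (rb (gw X) (g1 X) (g3 X) (g4 X))
          (rc (gw X) (g1 X) (g2 X) (g3 X) (g4 X))).toAffine.Nonsingular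
          (xs (gw X) (g1 X) (g2 X)) (ys (gw X) (g1 X) (g2 X) (g3 X)) then .some _ _ h else 0
      obtain ⟨B, hBd⟩ := tor_bound (RingHom.id ℚ_[p]) (l := 𝓝 X₀) t2 tb tc hD P
      have hnsn : ∀ᶠ X in 𝓝 X₀, (cv (g2 X) (rb (gw X) (g1 X) (g3 X) (g4 X))
          (rc (gw X) (g1 X) (g2 X) (g3 X) (g4 X))).toAffine.Nonsingular
          (xs (gw X) (g1 X) (g2 X)) (ys (gw X) (g1 X) (g2 X) (g3 X)) := by
        have td : Tendsto (fun X => dsc (g2 X) (rb (gw X) (g1 X) (g3 X) (g4 X))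
            (rc (gw X) (g1 X) (g2 X) (g3 X) (g4 X))) (𝓝 X₀)
            (𝓝 (dsc r2 (rb rw' r1 r3 r4) (rc rw' r1 r2 r3 r4))) := by
          simp only [dsc]
          exact (((((t2.pow 2).mul (tb.pow 2)).sub ((tb.pow 3).const_mul _)).sub
            (((t2.pow 3).const_mul _).mul tc)).sub ((tc.pow 2).const_mul _)).add
            (((t2.const_mul _).mul tb).mul tc)
        filter_upwards [td.eventually_ne hD, tw.eventually_ne hrw0] with X h1 h2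
        exact ns_of_dsc h1 (s_eqn h2)
      have hsmall : ∀ᶠ X in 𝓝 X₀, ∀ n : ℕ, n ≠ 0 → n ≤ B → n • P X ≠ 0 := by
        have h1 : ∀ n ∈ Finset.Iic B, ∀ᶠ X in 𝓝 X₀, n ≠ 0 → n • P X ≠ 0 := by
          intro n _
          by_cases hn : n = 0
          · exact Eventually.of_forall fun X h => absurd hn h
          · obtain ⟨Z, W, Z₀, W₀, -, h2, -, -⟩ := cont_mult (l := 𝓝 X₀) (RingHom.id ℚ_[p])
              (a := fun X => g2 X) (b := fun X => rb (gw X) (g1 X) (g3 X) (g4 X))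
              (c := fun X => rc (gw X) (g1 X) (g2 X) (g3 X) (g4 X))
              (x := fun X => xs (gw X) (g1 X) (g2 X))
              (y := fun X => ys (gw X) (g1 X) (g2 X) (g3 X)) t2 tb
              tc tx ty hns (hinf3 hns) n hn
            filter_upwards [h2, hnsn] with X h3 h4 _
            obtain ⟨h', he⟩ := h3 h4
            have hP : P X = .some _ _ h4 := dif_pos h4
            rw [hP, he]
            exact fun h0 => by simp at h0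
        have h2 := (eventually_all_finset (Finset.Iic B)).2 h1
        filter_upwards [h2] with X hX n hn hnB
        exact hX n (Finset.mem_Iic.2 hnB) hn
      have h5 : ∀ᶠ X in 𝓝 X₀, ∀ n : ℕ, n ≠ 0 → n • P X ≠ 0 := by
        filter_upwards [hBd, hsmall] with X h1 h2
        exact h1 h2
      filter_upwards [mem, h5.filter_mono inf_le_left, hnsn.filter_mono inf_le_left,
        gw'.filter_mono inf_le_left, g1'.filter_mono inf_le_left, g2'.filter_mono inf_le_left,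
        g3'.filter_mono inf_le_left, g4'.filter_mono inf_le_left] with
        X hX h6 h7 k0 k1 k2 k3 k4 w q₁ q₂ q₃ q₄ hw' h₁ h₂ h₃ h₄ hd h n hn
      obtain rfl := hw'.unique hX k0
      obtain rfl := h₁.unique hX k1
      obtain rfl := h₂.unique hX k2
      obtain rfl := h₃.unique hX k3
      obtain rfl := h₄.unique hX k4
      have hP : P X = .some _ _ h7 := dif_pos h7
      rw [← hP]
      exact h6 n hn
  filter_upwards [hregn, nonz _ (hreg _ mw) hw, nonz _ (add_mem (hreg _ mB)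
    (mul_mem (hreg _ mB') (hreg _ mw))) hB, hinfn] with X h1 h2 h3 h4
  exact ⟨h1, h2, h3, h4⟩

end near

end Pool.Agent.Y742.GG
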