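import Pool.Agent.Y720.MZ.Acc

/-!
# Homomorphisms of fields act on the points (helper742)
-/

set_option autoImplicit false

open WeierstrassCurve Pool.Agent.Y720.MZ

namespace Pool.Agent.Y742.GG

variable {K M : Type*} [Field K] [Field M] [DecidableEq K] [DecidableEq M]

lemma exists_pmap0 (f : K →+* M) {a b c : K} {W₂ : WeierstrassCurve M}
    (e : (cv a b c).map f = W₂) :
    ∃ g : Pt a b c →+ W₂.toAffine.Point, Function.Injective g ∧
      ∀ x y h, ∃ h', g (.some x y h) = .some (f x) (f y) h' := by
  let : Algebra K M := f.toAlgebra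
  subst e
  let f := Affine.Point.map (R := K) (S := K) (F := K) (K := M) (W' := (cv a b c).toAffine)
    (Algebra.ofId K M)
  have hf : Function.Injective f := Affine.Point.map_injective (R := K) (S := K) (F := K)
    (K := M) (W' := (cv a b c).toAffine) (Algebra.ofId K M)
  exact ⟨f, hf, fun x y h => ⟨_, rfl⟩⟩

lemma exists_pmap (f : K →+* M) {a b c : K} {a' b' c' : M} (ha : f a = a') (hb : f b = b')
    (hc : f c = c') : ∃ g : Pt a b c →+ Pt a' b' c', Function.Injective g ∧
      ∀ x y h, ∃ h', g (.some x y h) = .some (f x) (f y) h' := by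
  apply exists_pmap0 f
  subst ha hb hc
  simp only [cv, WeierstrassCurve.map, map_zero]

/-- the homomorphism of the points -/
noncomputable def pmap (f : K →+* M) {a b c : K} {a' b' c' : M} (ha : f a = a') (hb : f b = b')
    (hc : f c = c') : Pt a b c →+ Pt a' b' c' := (exists_pmap f ha hb hc).choose

variable {f : K →+* M} {a b c : K} {a' b' c' : M} {ha : f a = a'} {hb : f b = b'} {hc : f c = c'}

lemma pmap_inj : Function.Injective (pmap f ha hb hc) :=
  (exists_pmap f ha hb hc).choose_spec.1

lemma pmap_some {x y : K} (h : (cv a b c).toAffine.Nonsingular x y) :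
    ∃ h', pmap f ha hb hc (.some x y h) = .some (f x) (f y) h' :=
  (exists_pmap f ha hb hc).choose_spec.2 x y h

lemma pmap_comp {N : Type*} [Field N] [DecidableEq N] {g : M →+* N} {a'' b'' c'' : N}
    {ha' : g a' = a''} {hb' : g b' = b''} {hc' : g c' = c''} {h : K →+* N} {ha'' : h a = a''}
    {hb'' : h b = b''} {hc'' : h c = c''} (hh : ∀ x, h x = g (f x)) (P : Pt a b c) :
    pmap g ha' hb' hc' (pmap f ha hb hc P) = pmap h ha'' hb'' hc'' P := by
  rcases P with _ | ⟨x, y, e⟩
  · have h0 : (Affine.Point.zero : Pt a b c) = 0 := rfl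
    rw [h0, map_zero, map_zero, map_zero]
  · obtain ⟨h1, e1⟩ := pmap_some (f := f) (ha := ha) (hb := hb) (hc := hc) e
    obtain ⟨h2, e2⟩ := pmap_some (f := g) (ha := ha') (hb := hb') (hc := hc') h1
    obtain ⟨h3, e3⟩ := pmap_some (f := h) (ha := ha'') (hb := hb'') (hc := hc'') e
    rw [e1, e2, e3, Affine.Point.some.injEq]
    exact ⟨(hh x).symm, (hh y).symm⟩

end Pool.Agent.Y742.GG
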