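import Pool.Agent.Y742.GG.Sp
import Pool.Agent.Y720.MZ.Quar
import Pool.Agent.Y720.MZ.PF

/-!
# The quartic model of an elliptic curve with a point (helper742)
-/

set_option autoImplicit false
set_option linter.unusedSectionVars false

open WeierstrassCurve Pool.Agent.Y720.MZ

namespace Pool.Agent.Y742.GG

section defs

variable {R : Type*} [CommRing R] (q₂ q₃ q₄ u t x y : R)

/-- the ordinate of the point of the quartic -/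
def Vv : R := 4 * u + 2 * q₂ * t ^ 2 + q₃ * t ^ 3

/-- the denominator of the sum -/
def Dd : R := 2 * u - x * t ^ 2

/-- the numerator of the abscissa of the sum -/
def N2 : R := 4 * x * u ^ 2 + (2 * x ^ 2 + 4 * q₂ * x - 8 * q₄) * u * t ^ 2 +
  (2 * (q₃ ^ 2 - 4 * q₂ * q₄) - 4 * q₄ * x) * t ^ 4 - 2 * Vv q₂ q₃ u t * y * t

/-- the numerator of the ordinate of the sum -/
def N3 : R := (6 * x ^ 2 + 4 * q₂ * x - 8 * q₄) * u * t +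
  (2 * (q₃ ^ 2 - 4 * q₂ * q₄) - 4 * q₄ * x - x ^ 3) * t ^ 3 - 2 * Vv q₂ q₃ u t * y

end defs

variable {M : Type*} [Field M] [CharZero M] [DecidableEq M] {a b c q₂ q₃ q₄ δ u t x y : M}

lemma eqS (ht : t ≠ 0) (ha : q₂ = a + 3 * δ) (hb : -4 * q₄ = b + 2 * a * δ + 3 * δ ^ 2)
    (hc : q₃ ^ 2 - 4 * q₂ * q₄ = c + b * δ + a * δ ^ 2 + δ ^ 3)
    (hu : u ^ 2 = 2 * u + q₂ * t ^ 2 + q₃ * t ^ 3 + q₄ * t ^ 4) :
    (Vv q₂ q₃ u t / t ^ 3) ^ 2 = (2 * u / t ^ 2 + δ) ^ 3 +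
      a * (2 * u / t ^ 2 + δ) ^ 2 + b * (2 * u / t ^ 2 + δ) + c := by
  have ha' : a = q₂ - 3 * δ := by rw [ha]; ring
  subst ha'
  have hb' : b = -4 * q₄ - 2 * (q₂ - 3 * δ) * δ - 3 * δ ^ 2 := by rw [hb]; ring
  subst hb'
  have hc' : c = q₃ ^ 2 - 4 * q₂ * q₄ - (-4 * q₄ - 2 * (q₂ - 3 * δ) * δ - 3 * δ ^ 2) * δ
      - (q₂ - 3 * δ) * δ ^ 2 - δ ^ 3 := by rw [hc]; ring
  subst hc'
  have e : (Vv q₂ q₃ u t / t ^ 3) ^ 2 - ((2 * u / t ^ 2 + δ) ^ 3 +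
      (q₂ - 3 * δ) * (2 * u / t ^ 2 + δ) ^ 2 + (-4 * q₄ - 2 * (q₂ - 3 * δ) * δ - 3 * δ ^ 2) *
      (2 * u / t ^ 2 + δ) + (q₃ ^ 2 - 4 * q₂ * q₄ - (-4 * q₄ - 2 * (q₂ - 3 * δ) * δ - 3 * δ ^ 2) * δ
      - (q₂ - 3 * δ) * δ ^ 2 - δ ^ 3)) = -(8 * u + 4 * q₂ * t ^ 2) / t ^ 6 *
        (u ^ 2 - (2 * u + q₂ * t ^ 2 + q₃ * t ^ 3 + q₄ * t ^ 4)) := by
    unfold Vv
    field_simp
    ring
  rw [hu, sub_self, mul_zero] at e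
  exact sub_eq_zero.1 e

/-- **The sum of a point and the point of the quartic.** -/
theorem sum_eq (ht : t ≠ 0) (ha : q₂ = a + 3 * δ)
    (hb : -4 * q₄ = b + 2 * a * δ + 3 * δ ^ 2)
    (hc : q₃ ^ 2 - 4 * q₂ * q₄ = c + b * δ + a * δ ^ 2 + δ ^ 3)
    (hu : u ^ 2 = 2 * u + q₂ * t ^ 2 + q₃ * t ^ 3 + q₄ * t ^ 4)
    (hd : Dd u t (x - δ) ≠ 0) (h₁ : (cv a b c).toAffine.Nonsingular x y)
    (h₂ : (cv a b c).toAffine.Nonsingular (2 * u / t ^ 2 + δ) (Vv q₂ q₃ u t / t ^ 3)) :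
    ∃ h₃, (.some x y h₁ : Pt a b c) + .some _ _ h₂ =
      .some (x + t * N3 q₂ q₃ q₄ u t (x - δ) y / Dd u t (x - δ) ^ 2)
        (-((Vv q₂ q₃ u t - y * t ^ 3) * N3 q₂ q₃ q₄ u t (x - δ) y / Dd u t (x - δ) ^ 3) - y)
          h₃ := by
  have q1 := (cv_ns.1 h₁).1
  have ha' : a = q₂ - 3 * δ := by rw [ha]; ring
  subst ha'
  have hb' : b = -4 * q₄ - 2 * (q₂ - 3 * δ) * δ - 3 * δ ^ 2 := by rw [hb]; ring
  subst hb'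
  have hc' : c = q₃ ^ 2 - 4 * q₂ * q₄ - (-4 * q₄ - 2 * (q₂ - 3 * δ) * δ - 3 * δ ^ 2) * δ
      - (q₂ - 3 * δ) * δ ^ 2 - δ ^ 3 := by rw [hc]; ring
  subst hc'
  have hne : x ≠ 2 * u / t ^ 2 + δ := by
    intro h0
    apply hd
    rw [Dd, h0]
    field_simp
    ring
  have hy : y ^ 2 = (x - δ) ^ 3 + q₂ * (x - δ) ^ 2 - 4 * q₄ * (x - δ) +
      (q₃ ^ 2 - 4 * q₂ * q₄) := by rw [q1]; ring
  have hn2 : N2 q₂ q₃ q₄ u t (x - δ) y * t ^ 2 = (Vv q₂ q₃ u t - y * t ^ 3) ^ 2 -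
      (2 * u + (q₂ + (x - δ)) * t ^ 2) * Dd u t (x - δ) ^ 2 := by
    unfold N2 Vv Dd
    linear_combination (8 * u + 4 * q₂ * t ^ 2) * hu - t ^ 6 * hy
  have hn3 : N3 q₂ q₃ q₄ u t (x - δ) y * t = N2 q₂ q₃ q₄ u t (x - δ) y -
      (x - δ) * Dd u t (x - δ) ^ 2 := by
    unfold N2 N3 Dd
    ring
  obtain ⟨h₃, e⟩ := add_mk h₁ h₂ hne (ℓ := (Vv q₂ q₃ u t - y * t ^ 3) / (t * Dd u t (x - δ))) (by
    rw [div_mul_eq_mul_div, div_eq_iff (mul_ne_zero ht hd)]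
    unfold Dd
    field_simp
    ring)
  have e1 : ((Vv q₂ q₃ u t - y * t ^ 3) / (t * Dd u t (x - δ))) ^ 2 - (q₂ - 3 * δ) - x -
      (2 * u / t ^ 2 + δ) = x + t * N3 q₂ q₃ q₄ u t (x - δ) y / Dd u t (x - δ) ^ 2 := by
    rw [mul_comm t (N3 q₂ q₃ q₄ u t (x - δ) y), hn3]
    generalize hD : Dd u t (x - δ) = d at *
    generalize N2 q₂ q₃ q₄ u t (x - δ) y = n2 at *
    generalize Vv q₂ q₃ u t - y * t ^ 3 = v at *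
    have e2 : (v / (t * d)) ^ 2 - (q₂ - 3 * δ) - x - (2 * u / t ^ 2 + δ) -
        (x + (n2 - (x - δ) * d ^ 2) / d ^ 2) =
        -(n2 * t ^ 2 - (v ^ 2 - (2 * u + (q₂ + (x - δ)) * t ^ 2) * d ^ 2)) / (t ^ 2 * d ^ 2) := by
      field_simp
      ring
    rw [hn2, sub_self, neg_zero, zero_div] at e2
    exact sub_eq_zero.1 e2
  have e2 : -((Vv q₂ q₃ u t - y * t ^ 3) / (t * Dd u t (x - δ)) *
      (((Vv q₂ q₃ u t - y * t ^ 3) / (t * Dd u t (x - δ))) ^ 2 - (q₂ - 3 * δ) - x -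
      (2 * u / t ^ 2 + δ) - x) + y) =
      -((Vv q₂ q₃ u t - y * t ^ 3) * N3 q₂ q₃ q₄ u t (x - δ) y /
          Dd u t (x - δ) ^ 3) - y := by
    rw [e1]
    generalize Dd u t (x - δ) = d at *
    generalize N3 q₂ q₃ q₄ u t (x - δ) y = n3 at *
    generalize Vv q₂ q₃ u t - y * t ^ 3 = v at *
    field_simp
    ring
  revert h₃
  rw [e2, e1]
  intro h₃ e
  exact ⟨h₃, e⟩

/-- the discriminant of the quartic -/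
theorem dc_eq {K : Type*} [Field K] [CharZero K] {a b c q₂ q₃ q₄ δ : K} (ha : q₂ = a + 3 * δ)
    (hb : -4 * q₄ = b + 2 * a * δ + 3 * δ ^ 2)
    (hc : q₃ ^ 2 - 4 * q₂ * q₄ = c + b * δ + a * δ ^ 2 + δ ^ 3) :
    dc (1 : K) 0 q₂ q₃ q₄ = dsc a b c := by
  have ha' : a = q₂ - 3 * δ := by rw [ha]; ring
  subst ha'
  have hb' : b = -4 * q₄ - 2 * (q₂ - 3 * δ) * δ - 3 * δ ^ 2 := by rw [hb]; ring
  subst hb'
  have hc' : c = q₃ ^ 2 - 4 * q₂ * q₄ - (-4 * q₄ - 2 * (q₂ - 3 * δ) * δ - 3 * δ ^ 2) * δ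
      - (q₂ - 3 * δ) * δ ^ 2 - δ ^ 3 := by rw [hc]; ring
  subst hc'
  unfold dc dsc
  ring

end Pool.Agent.Y742.GG
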