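import Pool.Agent.Y742.GG.Quad

/-!
# The expansion of the translation at the origin (helper742)
-/

set_option autoImplicit false
set_option linter.unusedSectionVars false

open Pool.Agent.Y720.MZ

namespace Pool.Agent.Y742.GG

/-- square roots of power series -/
theorem exists_sqrt {K : Type*} [Field K] [CharZero K] (p : PowerSeries K)
    (hp : PowerSeries.constantCoeff p = 1) :
    ∃ Y : PowerSeries K, Y ^ 2 = p ∧ PowerSeries.constantCoeff Y = 1 := by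
  have hH : HenselianRing (PowerSeries K) (Ideal.span {(PowerSeries.X : PowerSeries K)}) :=
    inferInstance
  obtain ⟨a, ha1, ha2⟩ := hH.is_henselian (Polynomial.X ^ 2 - Polynomial.C p)
    (Polynomial.monic_X_pow_sub_C p two_ne_zero) 1 (by
      rw [Ideal.mem_span_singleton, PowerSeries.X_dvd_iff, Polynomial.eval_sub, Polynomial.eval_pow,
        Polynomial.eval_X, Polynomial.eval_C, map_sub, map_pow, map_one, hp, one_pow,
        sub_self]) (by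
      apply IsUnit.map
      rw [PowerSeries.isUnit_iff_constantCoeff]
      have e : Polynomial.eval 1
          (Polynomial.derivative (Polynomial.X ^ 2 - Polynomial.C p : Polynomial (PowerSeries K))) =
          2 := by
        simp [Polynomial.derivative_sub]
        norm_num
      rw [e, map_ofNat]
      exact isUnit_iff_ne_zero.2 two_ne_zero)
  refine ⟨a, ?_, ?_⟩
  · rw [Polynomial.IsRoot.def, Polynomial.eval_sub, Polynomial.eval_pow, Polynomial.eval_X,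
      Polynomial.eval_C] at ha1
    exact sub_eq_zero.1 ha1
  · rw [Ideal.mem_span_singleton, PowerSeries.X_dvd_iff, map_sub, map_one] at ha2
    exact sub_eq_zero.1 ha2

section maps

variable {R S : Type*} [CommRing R] [CommRing S] (f : R →+* S) (q₂ q₃ q₄ u t x y : R)

lemma map_Vv : f (Vv q₂ q₃ u t) = Vv (f q₂) (f q₃) (f u) (f t) := by
  simp [Vv, map_ofNat]

lemma map_Dd : f (Dd u t x) = Dd (f u) (f t) (f x) := by
  simp [Dd, map_ofNat]

lemma map_dsc' {R S : Type*} [CommRing R] [CommRing S] (f : R →+* S) (a b c : R) :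
    f (dsc a b c) = dsc (f a) (f b) (f c) := by
  simp [dsc, map_ofNat]

lemma map_N3 : f (N3 q₂ q₃ q₄ u t x y) = N3 (f q₂) (f q₃) (f q₄) (f u) (f t) (f x) (f y) := by
  simp [N3, Vv, map_ofNat]

end maps

section phi

open PowerSeries

variable {K : Type*} [Field K] (q₂ q₃ q₄ δ x₁ y₁ : K) (y : PowerSeries K)

/-- the denominator -/
noncomputable def sD : PowerSeries K := Dd (y + 1) X (C (x₁ - δ))

/-- the numerator -/
noncomputable def sN : PowerSeries K :=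
  N3 (C q₂) (C q₃) (C q₄) (y + 1) X (C (x₁ - δ)) (C y₁)

/-- the abscissa of the translated point -/
noncomputable def sX : PowerSeries K :=
  C x₁ + X * sN q₂ q₃ q₄ δ x₁ y₁ y * (sD δ x₁ y)⁻¹ ^ 2

/-- the ordinate of the translated point -/
noncomputable def sY : PowerSeries K :=
  -((Vv (C q₂) (C q₃) (y + 1) X - C y₁ * X ^ 3) * sN q₂ q₃ q₄ δ x₁ y₁ y * (sD δ x₁ y)⁻¹ ^ 3) -
    C y₁

variable {q₂ q₃ q₄ δ x₁ y₁ y}

lemma cc_sD (hy : constantCoeff y = 1) : constantCoeff (sD δ x₁ y) = 4 := by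
  rw [sD, map_Dd, Dd]
  simp [hy]
  norm_num

lemma cc_sN (hy : constantCoeff y = 1) :
    constantCoeff (sN q₂ q₃ q₄ δ x₁ y₁ y) = -16 * y₁ := by
  rw [sN, map_N3, N3, Vv]
  simp only [map_add, constantCoeff_X, constantCoeff_C, map_one, hy]
  ring

lemma sD_inv [CharZero K] (hy : constantCoeff y = 1) : sD δ x₁ y * (sD δ x₁ y)⁻¹ = 1 :=
  PowerSeries.mul_inv_cancel _ (by rw [cc_sD hy]; norm_num)

lemma cc_inv [CharZero K] (hy : constantCoeff y = 1) :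
    constantCoeff (sD δ x₁ y)⁻¹ = 4⁻¹ := by
  have h1 := congrArg constantCoeff (sD_inv (δ := δ) (x₁ := x₁) hy)
  rw [map_mul, cc_sD hy, map_one] at h1
  exact eq_inv_of_mul_eq_one_right h1

lemma cc_sX : constantCoeff (sX q₂ q₃ q₄ δ x₁ y₁ y) = x₁ := by
  rw [sX]
  simp

lemma c1_sX [CharZero K] (hy : constantCoeff y = 1) :
    coeff 1 (sX q₂ q₃ q₄ δ x₁ y₁ y) = -y₁ := by
  have h1 : coeff 1 (X * (sN q₂ q₃ q₄ δ x₁ y₁ y * (sD δ x₁ y)⁻¹ ^ 2)) =
      coeff 0 (sN q₂ q₃ q₄ δ x₁ y₁ y * (sD δ x₁ y)⁻¹ ^ 2) := coeff_succ_X_mul 0 _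
  rw [sX, map_add, mul_assoc, h1, coeff_zero_eq_constantCoeff_apply, map_mul, map_pow,
    cc_sN hy, cc_inv hy, coeff_C, if_neg one_ne_zero, zero_add]
  norm_num
  ring

lemma cc_sY [CharZero K] (hy : constantCoeff y = 1) :
    constantCoeff (sY q₂ q₃ q₄ δ x₁ y₁ y) = y₁ := by
  rw [sY]
  simp only [map_sub, map_neg, map_mul, map_pow, cc_sN hy, cc_inv hy, constantCoeff_C,
    constantCoeff_X, map_add, hy, map_one, Vv, map_ofNat]
  norm_num
  ring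

variable [CharZero K] [DecidableEq K] {M : Type*} [Field M] [CharZero M] [DecidableEq M]
  {a b c : K}

/-- **The translated point.** -/
theorem sum_ser (ι : PowerSeries K →+* M) (hι : Function.Injective ι) (ha : q₂ = a + 3 * δ)
    (hb : -4 * q₄ = b + 2 * a * δ + 3 * δ ^ 2)
    (hc : q₃ ^ 2 - 4 * q₂ * q₄ = c + b * δ + a * δ ^ 2 + δ ^ 3) (hdsc : dsc a b c ≠ 0)
    (hy : constantCoeff y = 1) (hq : y ^ 2 = 1 + C q₂ * X ^ 2 + C q₃ * X ^ 3 + C q₄ * X ^ 4) :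
    ∃ h₂ : (cv (ι (C a)) (ι (C b)) (ι (C c))).toAffine.Nonsingular
      (2 * ι (y + 1) / ι X ^ 2 + ι (C δ)) (Vv (ι (C q₂)) (ι (C q₃)) (ι (y + 1)) (ι X) / ι X ^ 3),
      ∀ x₁ y₁ h₁, ∃ h₃, (.some (ι (C x₁)) (ι (C y₁)) h₁ : Pt (ι (C a)) (ι (C b)) (ι (C c))) +
        .some _ _ h₂ = .some (ι (sX q₂ q₃ q₄ δ x₁ y₁ y)) (ι (sY q₂ q₃ q₄ δ x₁ y₁ y)) h₃ := by
  have ht : ι X ≠ 0 := by
    rw [Ne, map_eq_zero_iff ι hι]
    exact X_ne_zero
  have ha' : ι (C q₂) = ι (C a) + 3 * ι (C δ) := by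
    rw [ha, map_add, map_mul, map_ofNat, map_add, map_mul, map_ofNat]
  have hb' : -4 * ι (C q₄) = ι (C b) + 2 * ι (C a) * ι (C δ) + 3 * ι (C δ) ^ 2 := by
    have := congrArg (ι.comp C) hb
    simpa only [map_add, map_mul, map_pow, map_neg, map_ofNat, RingHom.comp_apply] using this
  have hc' : ι (C q₃) ^ 2 - 4 * ι (C q₂) * ι (C q₄) = ι (C c) + ι (C b) * ι (C δ) + ι (C a) * ι (C δ) ^ 2 + ι (C δ) ^ 3 := by
    have := congrArg (ι.comp C) hc
    simpa only [map_add, map_mul, map_pow, map_sub, map_ofNat, RingHom.comp_apply] using this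
  have hu : ι (y + 1) ^ 2 = 2 * ι (y + 1) + ι (C q₂) * ι X ^ 2 + ι (C q₃) * ι X ^ 3 + ι (C q₄) * ι X ^ 4 := by
    have h1 := congrArg ι hq
    simp only [map_add, map_mul, map_pow, map_one] at h1 ⊢
    linear_combination h1
  have hds : dsc (ι (C a)) (ι (C b)) (ι (C c)) ≠ 0 := by
    have := map_dsc' (ι.comp C) a b c
    simp only [RingHom.comp_apply] at this
    rw [← this]
    exact (map_ne_zero (ι.comp C)).2 hdsc
  refine ⟨ns_of_dsc hds (eqS ht ha' hb' hc' hu), fun x₁ y₁ h₁ => ?_⟩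
  have hDd : Dd (ι (y + 1)) (ι X) (ι (C x₁) - ι (C δ)) = ι (sD δ x₁ y) := by
    rw [sD, map_Dd, ← map_sub, ← map_sub]
  have hNn : N3 (ι (C q₂)) (ι (C q₃)) (ι (C q₄)) (ι (y + 1)) (ι X) (ι (C x₁) - ι (C δ)) (ι (C y₁)) =
      ι (sN q₂ q₃ q₄ δ x₁ y₁ y) := by
    rw [sN, map_N3, ← map_sub, ← map_sub]
  have hinv : ι (sD δ x₁ y) * ι (sD δ x₁ y)⁻¹ = 1 := by
    rw [← map_mul, sD_inv hy, map_one]
  have hD0 : ι (sD δ x₁ y) ≠ 0 := left_ne_zero_of_mul_eq_one hinv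
  have hinv' : ι (sD δ x₁ y)⁻¹ = (ι (sD δ x₁ y))⁻¹ := eq_inv_of_mul_eq_one_right hinv
  obtain ⟨h₃, e⟩ := sum_eq ht ha' hb' hc' hu (by rw [hDd]; exact hD0) h₁
    (ns_of_dsc hds (eqS ht ha' hb' hc' hu))
  have e1 : ι (C x₁) + ι X * N3 (ι (C q₂)) (ι (C q₃)) (ι (C q₄)) (ι (y + 1)) (ι X) (ι (C x₁) - ι (C δ)) (ι (C y₁)) /
      Dd (ι (y + 1)) (ι X) (ι (C x₁) - ι (C δ)) ^ 2 = ι (sX q₂ q₃ q₄ δ x₁ y₁ y) := by
    rw [hDd, hNn, sX, map_add, map_mul, map_mul, map_pow, hinv', inv_pow, ← div_eq_mul_inv]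
  have e2 : -((Vv (ι (C q₂)) (ι (C q₃)) (ι (y + 1)) (ι X) - ι (C y₁) * ι X ^ 3) *
      N3 (ι (C q₂)) (ι (C q₃)) (ι (C q₄)) (ι (y + 1)) (ι X) (ι (C x₁) - ι (C δ)) (ι (C y₁)) /
      Dd (ι (y + 1)) (ι X) (ι (C x₁) - ι (C δ)) ^ 3) - ι (C y₁) = ι (sY q₂ q₃ q₄ δ x₁ y₁ y) := by
    rw [hDd, hNn, sY, map_sub, map_neg, map_mul, map_mul, map_pow, hinv', inv_pow,
      ← div_eq_mul_inv, map_sub, map_Vv, map_mul, map_pow]
  revert h₃
  rw [e1, e2]
  intro h₃ e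
  exact ⟨h₃, e⟩

/-- the equation of the translated point -/
lemma eq_ser (ha : q₂ = a + 3 * δ)
    (hb : -4 * q₄ = b + 2 * a * δ + 3 * δ ^ 2)
    (hc : q₃ ^ 2 - 4 * q₂ * q₄ = c + b * δ + a * δ ^ 2 + δ ^ 3) (hdsc : dsc a b c ≠ 0)
    (hy : constantCoeff y = 1) (hq : y ^ 2 = 1 + C q₂ * X ^ 2 + C q₃ * X ^ 3 + C q₄ * X ^ 4)
    (h₁ : y₁ ^ 2 = x₁ ^ 3 + a * x₁ ^ 2 + b * x₁ + c) :
    sY q₂ q₃ q₄ δ x₁ y₁ y ^ 2 = sX q₂ q₃ q₄ δ x₁ y₁ y ^ 3 + C a * sX q₂ q₃ q₄ δ x₁ y₁ y ^ 2 +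
      C b * sX q₂ q₃ q₄ δ x₁ y₁ y + C c := by
  classical
  let M := FractionRing (PowerSeries K)
  let ι : PowerSeries K →+* M := algebraMap _ _
  have hι : Function.Injective ι := IsFractionRing.injective _ _
  have hM : CharZero M := charZero_of_injective_ringHom (ι.comp C : K →+* M).injective
  have hds : dsc (ι (C a)) (ι (C b)) (ι (C c)) ≠ 0 := by
    have := map_dsc' (ι.comp C) a b c
    simp only [RingHom.comp_apply] at this
    rw [← this]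
    exact (map_ne_zero (ι.comp C)).2 hdsc
  obtain ⟨h₂, h⟩ := sum_ser ι hι ha hb hc hdsc hy hq
  obtain ⟨h₃, -⟩ := h x₁ y₁ (ns_of_dsc hds (by
    have := congrArg (ι.comp C) h₁
    simpa using this))
  apply hι
  have := (cv_ns.1 h₃).1
  simpa using this

end phi

end Pool.Agent.Y742.GG
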