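import Pool.Agent.Y742.GG.Tor

/-!
# The speed of a point of an elliptic curve with constant coefficients (helper742)
-/

set_option autoImplicit false
set_option linter.unusedSectionVars false

open WeierstrassCurve Pool.Agent.Y720.MZ

namespace Pool.Agent.Y742.GG

variable {K : Type*} [Field K] [CharZero K] [DecidableEq K] {R : Type*} [CommRing R] [Algebra R K]
  {a b c : K}

/-- the point `P` has the speed `κ` with respect to the derivation `D` -/
def Sp (D : Derivation R K K) (κ : K) (P : Pt a b c) : Prop :=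
  (P = 0 → κ = 0) ∧ ∀ x y h, P = .some x y h → D x = κ * y ∧
    D y = κ * (3 * x ^ 2 + 2 * a * x + b) / 2

variable {D : Derivation R K K}

lemma Sp.zero : Sp D 0 (0 : Pt a b c) :=
  ⟨fun _ => rfl, fun x y h e => absurd e (by simp)⟩

lemma sp_some {κ x y : K} {h : (cv a b c).toAffine.Nonsingular x y} (h1 : D x = κ * y)
    (h2 : D y = κ * (3 * x ^ 2 + 2 * a * x + b) / 2) : Sp D κ (.some x y h : Pt a b c) := by
  refine ⟨fun e => absurd e (by simp), fun x' y' h' e => ?_⟩
  rw [Affine.Point.some.injEq] at e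
  obtain ⟨rfl, rfl⟩ := e
  exact ⟨h1, h2⟩

/-- **Speeds add.** -/
theorem Sp.add (ha : D a = 0) (hb : D b = 0) {κ u : K} {P Q : Pt a b c} (hP : Sp D κ P)
    (hQ : Sp D u Q) : Sp D (κ + u) (P + Q) := by
  have hn2 : D (2 : K) = 0 := by exact_mod_cast D.map_natCast 2
  have hn3 : D (3 : K) = 0 := by exact_mod_cast D.map_natCast 3
  rcases P with _ | ⟨x₁, y₁, h₁⟩
  · have h0 : κ = 0 := hP.1 rfl
    subst h0
    rw [zero_add]
    have : (Affine.Point.zero : Pt a b c) + Q = Q := zero_add Q
    rw [this]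
    exact hQ
  rcases Q with _ | ⟨x₂, y₂, h₂⟩
  · have h0 : u = 0 := hQ.1 rfl
    subst h0
    rw [add_zero]
    have : (.some x₁ y₁ h₁ : Pt a b c) + Affine.Point.zero = .some x₁ y₁ h₁ := add_zero _
    rw [this]
    exact hP
  obtain ⟨d1, d2⟩ := hP.2 _ _ _ rfl
  obtain ⟨d3, d4⟩ := hQ.2 _ _ _ rfl
  have q1 := (cv_ns.1 h₁).1
  have q2 := (cv_ns.1 h₂).1
  by_cases hx : x₁ = x₂
  · subst hx
    by_cases hy : y₁ = 0
    · -- a point of order two
      have hne := (cv_ns.1 h₁).2
      have hy2 : y₂ = 0 := by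
        rw [← q1, hy] at q2
        simpa using q2
      have h3 : 3 * x₁ ^ 2 + 2 * a * x₁ + b ≠ 0 := by
        rcases hne with h | h
        · exact h
        · exact absurd hy (by simpa using h)
      have k1 : κ = 0 := by
        rw [hy, map_zero, eq_comm, div_eq_zero_iff, or_iff_left two_ne_zero, mul_eq_zero,
          or_iff_left h3] at d2
        exact d2
      have k2 : u = 0 := by
        rw [hy2, map_zero, eq_comm, div_eq_zero_iff, or_iff_left two_ne_zero, mul_eq_zero,
          or_iff_left h3] at d4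
        exact d4
      subst hy hy2 k1 k2
      have h0 : (.some x₁ 0 h₁ : Pt a b c) + .some x₁ 0 h₂ = 0 := by
        obtain ⟨hn', hn⟩ := neg_mk h₁
        have h5 : (.some x₁ 0 h₂ : Pt a b c) = -.some x₁ 0 h₁ := by
          rw [hn, Affine.Point.some.injEq]
          simp
        exact (congrArg (fun z : Pt a b c => (.some x₁ 0 h₁ : Pt a b c) + z) h5).trans
          (add_neg_cancel _)
      rw [h0, add_zero]
      exact Sp.zero
    · rcases eq_or_neg h₂ h₁ with e1 | e1
      · rw [Affine.Point.some.injEq] at e1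
        obtain ⟨-, e1⟩ := e1
        subst e1
        have hku : u = κ := by
          rw [d1] at d3
          exact (mul_right_cancel₀ hy d3).symm
        subst hku
        have hy2 : 2 * y₂ ≠ 0 := mul_ne_zero two_ne_zero hy
        obtain ⟨h3, e3⟩ := dbl_mk h₁ hy2 (ℓ := (3 * x₁ ^ 2 + 2 * a * x₁ + b) / (2 * y₂))
          (div_mul_cancel₀ _ hy2)
        set ℓ := (3 * x₁ ^ 2 + 2 * a * x₁ + b) / (2 * y₂) with hℓ
        have hℓ' : ℓ * (2 * y₂) = 3 * x₁ ^ 2 + 2 * a * x₁ + b := by
          rw [hℓ, div_mul_cancel₀ _ hy2]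
        have hDℓ : D ℓ = u * (3 * x₁ + a - ℓ ^ 2) := by
          have h5 := congrArg D hℓ'
          have h6 : D (ℓ * (2 * y₂)) = 2 * y₂ * D ℓ + 2 * ℓ * D y₂ := by
            rw [Derivation.leibniz, Derivation.leibniz, smul_eq_mul, smul_eq_mul, smul_eq_mul,
              smul_eq_mul, hn2]
            ring
          have h7 : D (3 * x₁ ^ 2 + 2 * a * x₁ + b) = (6 * x₁ + 2 * a) * D x₁ := by
            simp only [map_add, Derivation.leibniz, Derivation.leibniz_pow, hn2, hn3, ha, hb,
              smul_eq_mul, nsmul_eq_mul]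
            push_cast
            ring
          rw [h6, h7, d3, d4, ← hℓ'] at h5
          apply mul_left_cancel₀ hy2
          linear_combination h5
        have hb' : b = ℓ * (2 * y₂) - 3 * x₁ ^ 2 - 2 * a * x₁ := by rw [hℓ']; ring
        have e4 : (.some x₁ y₂ h₁ : Pt a b c) + .some x₁ y₂ h₂ = .some (ℓ ^ 2 - a - x₁ - x₁)
            (-(ℓ * (ℓ ^ 2 - a - x₁ - x₁ - x₁) + y₂)) h3 := e3
        rw [e4]
        apply sp_some
        · simp only [map_sub, Derivation.leibniz_pow, d3, hDℓ, ha, smul_eq_mul, nsmul_eq_mul]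
          push_cast
          ring
        · simp only [map_neg, map_add, map_sub, Derivation.leibniz, Derivation.leibniz_pow, d3, d4,
            hDℓ, ha, smul_eq_mul, nsmul_eq_mul]
          rw [hb']
          push_cast
          ring
      · -- opposite points
        obtain ⟨hn', hn⟩ := neg_mk h₁
        have h0 : (.some x₁ y₁ h₁ : Pt a b c) + .some x₁ y₂ h₂ = 0 := by
          rw [e1, add_neg_cancel]
        rw [hn, Affine.Point.some.injEq] at e1
        have hy2 : y₂ = -y₁ := e1.2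
        have hk : κ + u = 0 := by
          rw [d1, hy2] at d3
          have : (κ + u) * y₁ = 0 := by linear_combination d3
          exact (mul_eq_zero.1 this).resolve_right hy
        rw [h0, hk]
        exact Sp.zero
  · -- the chord
    have hx0 : x₁ - x₂ ≠ 0 := sub_ne_zero.2 hx
    obtain ⟨ℓ, hℓ'⟩ : ∃ ℓ : K, ℓ * (x₁ - x₂) = y₁ - y₂ :=
      ⟨(y₁ - y₂) / (x₁ - x₂), div_mul_cancel₀ _ hx0⟩
    obtain ⟨h3, e3⟩ := add_mk h₁ h₂ hx (ℓ := ℓ) hℓ'
    have hyy : y₂ = y₁ - ℓ * (x₁ - x₂) := by linear_combination hℓ'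
    have hb' : b = ℓ * (2 * y₁ - ℓ * (x₁ - x₂)) - x₁ ^ 2 - x₁ * x₂ - x₂ ^ 2 -
        a * (x₁ + x₂) := by
      apply mul_left_cancel₀ hx0
      have e5 : y₁ ^ 2 - y₂ ^ 2 = (x₁ - x₂) * (x₁ ^ 2 + x₁ * x₂ + x₂ ^ 2 + a * (x₁ + x₂) + b) := by
        rw [q1, q2]; ring
      rw [hyy] at e5
      linear_combination -e5
    have hDℓ : D ℓ = (κ * (x₁ - (ℓ ^ 2 - a - x₁ - x₂)) + u * (x₂ - (ℓ ^ 2 - a - x₁ - x₂))) / 2 := by
      have h5 := congrArg D hℓ'
      rw [Derivation.leibniz, map_sub, map_sub, d1, d2, d3, d4, smul_eq_mul, smul_eq_mul] at h5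
      apply mul_left_cancel₀ hx0
      rw [hb', hyy] at h5
      linear_combination h5
    rw [e3]
    apply sp_some
    · simp only [map_sub, Derivation.leibniz_pow, d1, d3, hDℓ, ha, smul_eq_mul, nsmul_eq_mul]
      rw [hyy]
      push_cast
      ring
    · simp only [map_neg, map_add, map_sub, Derivation.leibniz, Derivation.leibniz_pow, d1, d2, d3,
        hDℓ, ha, smul_eq_mul, nsmul_eq_mul]
      rw [hyy, hb']
      push_cast
      ring

lemma Sp.sum (ha : D a = 0) (hb : D b = 0) {ι : Type*} (s : Finset ι) (κ : ι → K)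
    (P : ι → Pt a b c) (h : ∀ i ∈ s, Sp D (κ i) (P i)) :
    Sp D (∑ i ∈ s, κ i) (∑ i ∈ s, P i) := by
  classical
  induction s using Finset.induction_on with
  | empty => rw [Finset.sum_empty, Finset.sum_empty]; exact Sp.zero
  | insert i s hi ih =>
    rw [Finset.sum_insert hi, Finset.sum_insert hi]
    exact (h i (Finset.mem_insert_self _ _)).add ha hb
      (ih fun j hj => h j (Finset.mem_insert_of_mem hj))

end Pool.Agent.Y742.GG
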