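import Pool.Agent.Y742.GG.Near
import Pool.Agent.W572.G.SD

/-!
# The closure of the points is tangent to the fibrations (helper742)
-/

set_option autoImplicit false
set_option linter.unusedSectionVars false

open Pool.Agent.Y720.MZ Filter Topology

namespace Pool.Agent.Y742.GG

open MvPolynomial in
/-- a polynomial which vanishes along a sequence with a tangent direction -/
lemma lim_zero {L : Type*} [NontriviallyNormedField L] {N : ℕ} (P : MvPolynomial (Fin N) L)
    {X v : Fin N → L} {Y : ℕ → Fin N → L} {s : ℕ → L} (hs0 : ∀ n, s n ≠ 0)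
    (hs : Tendsto s atTop (𝓝 0))
    (hv : ∀ l, Tendsto (fun n => (Y n l - X l) / s n) atTop (𝓝 (v l)))
    (hX : eval X P = 0) (hY : ∀ᶠ n in atTop, eval (Y n) P = 0) :
    ∑ l, eval X (pderiv l P) * v l = 0 := by
  have hd : ∀ l, Tendsto (fun n => Y n l - X l) atTop (𝓝 0) := by
    intro l
    have h1 := (hv l).mul hs
    rw [mul_zero] at h1
    refine h1.congr fun n => ?_
    rw [div_mul_cancel₀ _ (hs0 n)]
  have hd' : Tendsto (fun n => Y n - X) atTop (𝓝 0) := by
    rw [tendsto_pi_nhds]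
    intro l
    exact hd l
  have hcd : Tendsto (fun n => (s n)⁻¹ • (Y n - X)) atTop (𝓝 v) := by
    rw [tendsto_pi_nhds]
    intro l
    refine (hv l).congr fun n => ?_
    rw [Pi.smul_apply, Pi.sub_apply, smul_eq_mul, div_eq_inv_mul]
  have h1 := (W572.G.strict_poly L P X).hasFDerivAt.hasFDerivWithinAt (s := Set.univ)
  have h2 := h1.lim (l := atTop) (c := fun n => (s n)⁻¹) hd' (Eventually.of_forall fun n =>
    Set.mem_univ _) hcd
  have h3 : Tendsto (fun n : ℕ => (s n)⁻¹ • (eval (X + (Y n - X)) P - eval X P)) atTop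
      (𝓝 0) := by
    refine tendsto_const_nhds.congr' ?_
    filter_upwards [hY] with n hn
    rw [add_sub_cancel, hn, hX, sub_zero, smul_zero]
  have h4 := tendsto_nhds_unique h2 h3
  rw [← h4, _root_.sum_apply]
  exact Finset.sum_congr rfl fun l _ => by simp

section

variable {K : Type*} [Field K] {N : ℕ} {k : Type*} [Field k] {M : Type*} [Field M] [CharZero M]
  [DecidableEq M] {p : ℕ} [hp : Fact p.Prime] [DecidableEq ℚ_[p]]

/-- the points of the hypersurface in an open set -/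
def Tset (F : MvPolynomial (Fin N) k) (j : k →+* M) (σ : M →+* ℚ_[p])
    (U : Set (Fin N → ℚ_[p])) : Set (Fin N → M) :=
  {x | MvPolynomial.eval₂ j x F = 0 ∧ (fun l => σ (x l)) ∈ U}

/-- **The moves are tangent.** -/
theorem tangent {cK : k →+* K} {x : Fin N → K} {F : MvPolynomial (Fin N) k}
    (hF : ∀ P : MvPolynomial (Fin N) k, MvPolynomial.eval₂ cK x P = 0 ↔ F ∣ P)
    (j : k →+* M) (σ : M →+* ℚ_[p]) (hσ : DenseRange σ) {U : Set (Fin N → ℚ_[p])} (hU : IsOpen U)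
    {μ : Mv K N} (hμ : μ.Ok cK F x)
    (hgood : ∀ X ∈ U, MvPolynomial.eval₂ (σ.comp j) X F = 0 →
      Good (MvPolynomial.eval₂Hom cK x) (tau (σ.comp j) X) μ)
    {h : MvPolynomial (Fin N) M} (hh : ∀ y ∈ Tset F j σ U, MvPolynomial.eval y h = 0)
    {y : Fin N → M} (hy : y ∈ Tset F j σ U) {dy : Fin N → M}
    (hdy : ∀ l, Rg (MvPolynomial.eval₂Hom cK x) (MvPolynomial.eval₂Hom j y) (μ.d l) (dy l)) :
    ∑ l, MvPolynomial.eval y (MvPolynomial.pderiv l h) * dy l = 0 := by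
  classical
  set φ : MvPolynomial (Fin N) k →+* K := MvPolynomial.eval₂Hom cK x with hφ
  set τ : MvPolynomial (Fin N) k →+* M := MvPolynomial.eval₂Hom j y with hτ
  have hk : ∀ s, φ s = 0 → τ s = 0 := by
    intro s hs
    obtain ⟨G, rfl⟩ := (hF s).1 hs
    rw [map_mul]
    have : τ F = 0 := hy.1
    rw [this, zero_mul]
  have hcomp : tau (σ.comp j) (fun l => σ (y l)) = σ.comp τ := by
    apply MvPolynomial.ringHom_ext
    · intro a
      simp [tau, hτ]
    · intro l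
      simp [tau, hτ]
  have hg : Good φ τ μ := by
    have h1 := hgood _ hy.2 (by
      have h2 : tau (σ.comp j) (fun l => σ (y l)) F = σ (τ F) := by
        rw [hcomp]; rfl
      rw [tau_apply] at h2
      rw [h2]
      have : τ F = 0 := hy.1
      rw [this, map_zero])
    rw [hcomp] at h1
    exact h1.of_comp σ
  have mw : μ.w ∈ Oc φ τ := hg.reg _ (by simp [Mv.coefs])
  have m1 : μ.q₁ ∈ Oc φ τ := hg.reg _ (by simp [Mv.coefs])
  have m2 : μ.q₂ ∈ Oc φ τ := hg.reg _ (by simp [Mv.coefs])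
  have m3 : μ.q₃ ∈ Oc φ τ := hg.reg _ (by simp [Mv.coefs])
  have m4 : μ.q₄ ∈ Oc φ τ := hg.reg _ (by simp [Mv.coefs])
  have md : ∀ l, μ.d l ∈ Oc φ τ := fun l => hg.reg _ (by simp [Mv.coefs])
  obtain ⟨b, hb⟩ := exists_lift (φ := φ) (τ := τ) (p := μ.B) fun n =>
    hg.reg _ (by simp [Mv.coefs])
  obtain ⟨b', hb'⟩ := exists_lift (φ := φ) (τ := τ) (p := μ.B') fun n =>
    hg.reg _ (by simp [Mv.coefs])
  have hA : ∀ l, ∃ a : Polynomial (Oc φ τ), a.map (Oc φ τ).subtype = μ.A l := fun l =>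
    exists_lift fun n => hg.reg _ (by
      simp only [Mv.coefs, Set.mem_union, Set.mem_iUnion]
      exact Or.inl (Or.inl (Or.inl (Or.inr ⟨l, n, rfl⟩))))
  have hA' : ∀ l, ∃ a : Polynomial (Oc φ τ), a.map (Oc φ τ).subtype = μ.A' l := fun l =>
    exists_lift fun n => hg.reg _ (by
      simp only [Mv.coefs, Set.mem_union, Set.mem_iUnion]
      exact Or.inl (Or.inl (Or.inr ⟨l, n, rfl⟩)))
  choose a ha using hA
  choose a' ha' using hA'
  have hreg : ∀ s, φ s ∈ Oc φ τ := fun s => ⟨τ s, Rg.of s⟩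
  let cst : k →+* Oc φ τ := (φ.comp MvPolynomial.C).codRestrict (Oc φ τ) fun c => hreg _
  have hc : (Oc φ τ).subtype.comp cst = cK := by
    ext c
    show φ (MvPolynomial.C c) = cK c
    simp [hφ]
  have hec : (ev hk).comp cst = j := by
    ext c
    have h1 : ev hk ⟨φ (MvPolynomial.C c), hreg _⟩ = τ (MvPolynomial.C c) :=
      ev_eq hk (f := ⟨φ (MvPolynomial.C c), hreg _⟩) (Rg.of _)
    have h2 : τ (MvPolynomial.C c) = j c := by simp [hτ]
    exact h1.trans h2
  have hev : ∀ (f : K) (hf : f ∈ Oc φ τ), Rg φ τ f (ev hk ⟨f, hf⟩) := fun f hf =>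
    ev_spec hk ⟨f, hf⟩
  obtain ⟨x', s, hs0, hs, hx', hlim⟩ := move σ hσ (ι := (Oc φ τ).subtype) (cst := cst)
    (Oc φ τ).subtype_injective hc (ev := ev hk) hμ (w := ⟨μ.w, mw⟩) (q₁ := ⟨μ.q₁, m1⟩)
    (q₂ := ⟨μ.q₂, m2⟩) (q₃ := ⟨μ.q₃, m3⟩) (q₄ := ⟨μ.q₄, m4⟩) rfl rfl rfl rfl rfl ha ha' hb hb'
    (d := fun l => ⟨μ.d l, md l⟩) (y := fun l => ⟨φ (MvPolynomial.X l), hreg _⟩)
    (fun l => rfl) (fun l => by show φ (MvPolynomial.X l) = x l; simp [hφ])
    (hg.w0 _ (hev _ _)) (by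
      have e : (Oc φ τ).subtype (b.coeff 0 + b'.coeff 0 * ⟨μ.w, mw⟩) =
          μ.B.coeff 0 + μ.B'.coeff 0 * μ.w := by
        rw [map_add, map_mul, ← Polynomial.coeff_map, hb, ← Polynomial.coeff_map, hb']
        rfl
      apply hg.B0
      rw [← e]
      exact ev_spec hk (b.coeff 0 + b'.coeff 0 * ⟨μ.w, mw⟩))
    (hg.inf _ _ _ _ _ (hev _ _) (hev _ _) (hev _ _) (hev _ _) (hev _ _))
  have hyl : ∀ l, ev hk ⟨φ (MvPolynomial.X l), hreg _⟩ = y l := by
    intro l
    have h1 : ev hk ⟨φ (MvPolynomial.X l), hreg _⟩ = τ (MvPolynomial.X l) :=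
      ev_eq hk (f := ⟨φ (MvPolynomial.X l), hreg _⟩) (Rg.of _)
    rw [h1]
    simp [hτ]
  have hdl : ∀ l, ev hk ⟨μ.d l, md l⟩ = dy l := fun l =>
    ev_eq hk (f := ⟨μ.d l, md l⟩) (hdy l)
  simp only [hyl, hdl] at hlim
  rw [hec] at hx'
  -- the limit in `ℚ_p`
  have hv : ∀ l, Tendsto (fun n => (σ (x' n l) - σ (y l)) / σ (s n)) atTop (𝓝 (σ (dy l))) := by
    intro l
    refine (hlim l).congr fun n => ?_
    rw [map_div₀, map_sub]
  have hxU : ∀ᶠ n in atTop, (fun l => σ (x' n l)) ∈ U := by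
    have h1 : Tendsto (fun n => fun l => σ (x' n l)) atTop (𝓝 (fun l => σ (y l))) := by
      rw [tendsto_pi_nhds]
      intro l
      have h1 := (hv l).mul hs
      rw [mul_zero] at h1
      have h2 := h1.add_const (σ (y l))
      rw [zero_add] at h2
      refine h2.congr fun n => ?_
      rw [div_mul_cancel₀ _ ((map_ne_zero σ).2 (hs0 n)), sub_add_cancel]
    exact h1.eventually (hU.mem_nhds hy.2)
  have hmap : ∀ z : Fin N → M, MvPolynomial.eval (fun l => σ (z l)) (MvPolynomial.map σ h) =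
      σ (MvPolynomial.eval z h) := by
    intro z
    rw [MvPolynomial.eval_map, ← MvPolynomial.eval₂_id (g := z), MvPolynomial.eval₂_comp_left]
    rfl
  have h1 := lim_zero (MvPolynomial.map σ h) (X := fun l => σ (y l))
    (Y := fun n l => σ (x' n l)) (v := fun l => σ (dy l)) (s := fun n => σ (s n))
    (fun n => (map_ne_zero σ).2 (hs0 n)) hs hv (by rw [hmap, hh y hy, map_zero]) (by
      filter_upwards [hx', hxU] with n h1 h2
      rw [hmap, hh _ ⟨h1, h2⟩, map_zero])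
  apply σ.injective
  rw [map_zero, map_sum, ← h1]
  refine Finset.sum_congr rfl fun l _ => ?_
  rw [map_mul, MvPolynomial.pderiv_map, MvPolynomial.eval_map,
    ← MvPolynomial.eval₂_id (g := y), MvPolynomial.eval₂_comp_left]
  rfl

end

end Pool.Agent.Y742.GG
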