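import Pool.Agent.Y742.GG.Sp
import Pool.Agent.Y742.GG.Ext
import Pool.Agent.Y742.GG.Pm

/-!
# Torsors under elliptic curves: derivations (helper742)
-/

set_option autoImplicit false
set_option linter.unusedSectionVars false

open WeierstrassCurve Pool.Agent.Y720.MZ

namespace Pool.Agent.Y742.GG

/-- the data of a torsor under the elliptic curve `y² = x³ + a x² + b x + c` over `L` with the
function field `K`, trivialised over `K'` -/
structure TD {Ω K : Type*} [Field Ω] [Field K] [Algebra Ω K] (L : IntermediateField Ω K)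
    {K' : Type*} [Field K'] [Algebra K K'] [DecidableEq K'] (a b c : L) (X Y : K') : Prop where
  disc : dsc a b c ≠ 0
  trans : Transcendental L X
  gen : IntermediateField.adjoin (algebraicClosure L K') {X, Y} = ⊤
  ns : (cv (algebraMap L K' a) (algebraMap L K' b) (algebraMap L K' c)).toAffine.Nonsingular X Y
  tors : ∀ σ : K' ≃ₐ[K] K', ∃ (T : Pt (algebraMap L K' a) (algebraMap L K' b) (algebraMap L K' c))
    (h : _), (∀ u v e, T = .some u v e → IsAlgebraic L u ∧ IsAlgebraic L v) ∧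
      (.some (σ X) (σ Y) h : Pt (algebraMap L K' a) (algebraMap L K' b) (algebraMap L K' c)) =
        .some X Y ns + T

variable {Ω K : Type*} [Field Ω] [Field K] [Algebra Ω K] {L : IntermediateField Ω K}
  {K' : Type*} [Field K'] [Algebra K K'] [DecidableEq K'] {a b c : L} {X Y : K'}

lemma TD.eqn (H : TD L a b c X Y) : Y ^ 2 = X ^ 3 + algebraMap L K' a * X ^ 2 +
    algebraMap L K' b * X + algebraMap L K' c := (cv_ns.1 H.ns).1

/-- the coordinates generate -/
lemma TD.ind (H : TD L a b c X Y) {p : K' → Prop} (hX : p X) (hY : p Y)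
    (halg : ∀ z, IsAlgebraic L z → p z) (hadd : ∀ x y, p x → p y → p (x + y))
    (hmul : ∀ x y, p x → p y → p (x * y)) (hinv : ∀ x, p x → p x⁻¹) (z : K') : p z := by
  have hz : z ∈ IntermediateField.adjoin (algebraicClosure L K') {X, Y} := by
    rw [H.gen]; trivial
  induction hz using IntermediateField.adjoin_induction with
  | mem z hz =>
    rcases hz with rfl | hz
    · exact hX
    · rw [Set.mem_singleton_iff] at hz
      rw [hz]
      exact hY
  | algebraMap c => exact halg _ (mem_algebraicClosure_iff.1 c.2)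
  | add y z _ _ hy hz => exact hadd _ _ hy hz
  | inv y _ hy => exact hinv _ hy
  | mul y z _ _ hy hz => exact hmul _ _ hy hz

lemma TD.Y_ne (H : TD L a b c X Y) : Y ≠ 0 := by
  intro h0
  have h1 := H.eqn
  rw [h0, zero_pow two_ne_zero] at h1
  let p : Polynomial L := .X ^ 3 + .C a * .X ^ 2 + .C b * .X + .C c
  have h2 : Polynomial.aeval X p = 0 := by
    rw [h1]
    simp [p]
  have h3 := transcendental_iff.1 H.trans _ h2
  have h4 : p.coeff 3 = 1 := by
    simp [p]
  rw [h3, Polynomial.coeff_zero] at h4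
  exact zero_ne_one h4

section der

variable [CharZero K] {E : Derivation ℤ K K} {D : Derivation ℤ K' K'}

/-- an extension kills the constants -/
lemma kill (hE : ∀ a ∈ L, E a = 0) (hD : ∀ a, D (algebraMap K K' a) = algebraMap K K' (E a))
    {z : K'} (hz : IsAlgebraic L z) : D z = 0 := by
  refine der_alg (F := L) D (fun a => ?_) hz
  have : algebraMap L K' a = algebraMap K K' a := rfl
  rw [this, hD, hE _ a.2, map_zero]

lemma kill' (hE : ∀ a ∈ L, E a = 0) (hD : ∀ a, D (algebraMap K K' a) = algebraMap K K' (E a))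
    (z : L) : D (algebraMap L K' z) = 0 := kill hE hD (isAlgebraic_algebraMap z)

variable (H : TD L a b c X Y)

include H

/-- a derivation which kills the constants and `X` is zero -/
lemma TD.zero0 (hk : ∀ z, IsAlgebraic L z → D z = 0) (h0 : D X = 0) : D = 0 := by
  have hc' : CharZero K' := charZero_of_injective_algebraMap (algebraMap K K').injective
  have hk' : ∀ z : L, D (algebraMap L K' z) = 0 := fun z => hk _ (isAlgebraic_algebraMap z)
  have hY : D Y = 0 := by
    have h1 := congrArg D H.eqn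
    have h2 : 2 * Y * D Y = 0 := by
      simp only [map_add, Derivation.leibniz, Derivation.leibniz_pow, h0, hk',
        add_zero, smul_eq_mul, nsmul_eq_mul] at h1
      push_cast at h1
      linear_combination h1
    exact (mul_eq_zero.1 h2).resolve_left (mul_ne_zero two_ne_zero H.Y_ne)
  ext z
  induction z using H.ind with
  | hX => exact h0
  | hY => exact hY
  | halg z hz => exact hk z hz
  | hadd x y hx hy => rw [map_add, hx, hy]; simp
  | hmul x y hx hy => rw [Derivation.leibniz, hx, hy]; simp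
  | hinv x hx => rw [Derivation.leibniz_inv, hx]; simp

variable (hE : ∀ a ∈ L, E a = 0) (hD : ∀ a, D (algebraMap K K' a) = algebraMap K K' (E a))

include hE hD

lemma TD.zero (h0 : D X = 0) : D = 0 := H.zero0 (fun _ hz => kill hE hD hz) h0

lemma TD.sp {κ : K'} (hκ : D X = κ * Y) : Sp D κ (.some X Y H.ns : Pt _ _ _) := by
  have hc' : CharZero K' := charZero_of_injective_algebraMap (algebraMap K K').injective
  apply sp_some hκ
  have h1 := congrArg D H.eqn
  simp only [map_add, Derivation.leibniz, Derivation.leibniz_pow, kill' hE hD,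
    add_zero, smul_eq_mul, nsmul_eq_mul] at h1
  push_cast at h1
  rw [eq_div_iff two_ne_zero]
  apply mul_left_cancel₀ H.Y_ne
  rw [hκ] at h1
  linear_combination h1

omit H in
lemma sp_zero (T : Pt (algebraMap L K' a) (algebraMap L K' b) (algebraMap L K' c))
    (hT : ∀ u v e, T = .some u v e → IsAlgebraic L u ∧ IsAlgebraic L v) : Sp D 0 T := by
  refine ⟨fun _ => rfl, fun x y h e => ?_⟩
  obtain ⟨h1, h2⟩ := hT _ _ _ e
  rw [kill hE hD h1, kill hE hD h2]
  simp

lemma TD.sp' {κ : K'} (hκ : D X = κ * Y) (σ : K' ≃ₐ[K] K') :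
    ∃ h, Sp D κ (.some (σ X) (σ Y) h :
      Pt (algebraMap L K' a) (algebraMap L K' b) (algebraMap L K' c)) := by
  have hc' : CharZero K' := charZero_of_injective_algebraMap (algebraMap K K').injective
  obtain ⟨T, h, hT, e⟩ := H.tors σ
  refine ⟨h, ?_⟩
  rw [e]
  have := (H.sp hE hD hκ).add (kill' hE hD a) (kill' hE hD b) (sp_zero hE hD T hT)
  rwa [add_zero] at this

variable [FiniteDimensional K K'] [IsGalois K K']

/-- the logarithmic derivative is rational -/
theorem TD.kappa : ∃ κ : K, D X = algebraMap K K' κ * Y := by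
  have hY := H.Y_ne
  have h1 : D X / Y ∈ Set.range (algebraMap K K') := by
    rw [IsGalois.mem_range_algebraMap_iff_fixed]
    intro σ
    obtain ⟨h, h2⟩ := H.sp' hE hD (κ := D X / Y) (div_mul_cancel₀ _ hY).symm σ
    obtain ⟨h3, -⟩ := h2.2 _ _ _ rfl
    rw [der_comm hD] at h3
    have hσY : σ Y ≠ 0 := (map_ne_zero σ).2 hY
    rw [map_div₀, div_eq_iff hσY, h3]
  obtain ⟨κ, hκ⟩ := h1
  exact ⟨κ, by rw [hκ, div_mul_cancel₀ _ hY]⟩

omit hE hD

lemma TD.nsσ (σ : K' ≃ₐ[K] K') : (cv (algebraMap L K' a) (algebraMap L K' b)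
    (algebraMap L K' c)).toAffine.Nonsingular (σ X) (σ Y) := by
  obtain ⟨T, h, -, -⟩ := H.tors σ
  exact h

include hE hD

/-- **The sum of the conjugates.** -/
theorem TD.xi (hX : D X = Y) : ∃ (x₀ y₀ : K) (n : ℕ), n ≠ 0 ∧
    y₀ ^ 2 = x₀ ^ 3 + (a : K) * x₀ ^ 2 + (b : K) * x₀ + (c : K) ∧
    E x₀ = n * y₀ ∧ E y₀ = n * (3 * x₀ ^ 2 + 2 * (a : K) * x₀ + (b : K)) / 2 := by
  classical
  have hc' : CharZero K' := charZero_of_injective_algebraMap (algebraMap K K').injective
  have := Fintype.ofFinite (K' ≃ₐ[K] K')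
  let P : (K' ≃ₐ[K] K') → Pt (algebraMap L K' a) (algebraMap L K' b) (algebraMap L K' c) :=
    fun σ => .some (σ X) (σ Y) (H.nsσ σ)
  have hP : ∀ σ, Sp D 1 (P σ) := by
    intro σ
    obtain ⟨h, h2⟩ := H.sp' hE hD (κ := 1) (by rw [hX, one_mul]) σ
    exact h2
  have hsum := Sp.sum (kill' hE hD a) (kill' hE hD b) Finset.univ (fun _ => 1) P fun σ _ => hP σ
  rw [Finset.sum_const, Finset.card_univ, nsmul_eq_mul, mul_one] at hsum
  have hn : Fintype.card (K' ≃ₐ[K] K') ≠ 0 := Fintype.card_ne_zero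
  have hcm : ∀ (τ : K' ≃ₐ[K] K') (z : L), (τ : K' →+* K') (algebraMap L K' z) =
      algebraMap L K' z := fun τ z => τ.commutes (z : K)
  have hfix : ∀ (τ : K' ≃ₐ[K] K'), pmap (τ : K' →+* K') (hcm τ a) (hcm τ b) (hcm τ c)
      (∑ σ, P σ) = ∑ σ, P σ := by
    intro τ
    rw [map_sum]
    refine Fintype.sum_equiv (Equiv.mulLeft τ) _ _ fun σ => ?_
    obtain ⟨h', e'⟩ := pmap_some (f := (τ : K' →+* K')) (ha := hcm τ a)
      (hb := hcm τ b) (hc := hcm τ c) (H.nsσ σ)
    exact e'
  rcases hS : ∑ σ, P σ with _ | ⟨x', y', h⟩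
  · exfalso
    have := hsum.1 hS
    exact hn (by exact_mod_cast this)
  · obtain ⟨h1, h2⟩ := hsum.2 _ _ _ hS
    have hfx : ∀ τ : K' ≃ₐ[K] K', τ x' = x' ∧ τ y' = y' := by
      intro τ
      have h3 := hfix τ
      rw [hS] at h3
      obtain ⟨h', e'⟩ := pmap_some (f := (τ : K' →+* K')) (ha := hcm τ a)
        (hb := hcm τ b) (hc := hcm τ c) h
      have h4 := e'.symm.trans h3
      rw [Affine.Point.some.injEq] at h4
      exact h4
    obtain ⟨x₀, rfl⟩ := (IsGalois.mem_range_algebraMap_iff_fixed x').2 fun τ => (hfx τ).1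
    obtain ⟨y₀, rfl⟩ := (IsGalois.mem_range_algebraMap_iff_fixed y').2 fun τ => (hfx τ).2
    refine ⟨x₀, y₀, Fintype.card (K' ≃ₐ[K] K'), hn, ?_, ?_, ?_⟩
    · apply (algebraMap K K').injective
      rw [map_pow, map_add, map_add, map_add, map_mul, map_mul, map_pow, map_pow]
      exact (cv_ns.1 h).1
    · apply (algebraMap K K').injective
      rw [← hD, h1, map_mul, map_natCast]
    · apply (algebraMap K K').injective
      rw [← hD, h2]
      simp only [map_add, map_mul, map_pow, map_div₀, map_ofNat, map_natCast]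
      rfl

omit hE hD in
/-- **Normalisation of the derivations.** -/
theorem TD.norm {E₀ : Derivation Ω K K} (hE0 : E₀ ≠ 0) (hEL : ∀ a ∈ L, E₀ a = 0) :
    ∃ (E₁ : Derivation Ω K K) (D₁ : Derivation ℤ K' K'), (∀ a ∈ L, E₁ a = 0) ∧
      (∀ a, D₁ (algebraMap K K' a) = algebraMap K K' (E₁ a)) ∧ D₁ X = Y ∧
      ∀ E' : Derivation Ω K K, (∀ a ∈ L, E' a = 0) → ∃ c : K, E' = c • E₁ := by
  have key : ∀ E' : Derivation Ω K K, (∀ a ∈ L, E' a = 0) → ∃ (D' : Derivation ℤ K' K') (κ : K),
      (∀ a, D' (algebraMap K K' a) = algebraMap K K' (E' a)) ∧ D' X = algebraMap K K' κ * Y := by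
    intro E' hE'
    obtain ⟨D', hD'⟩ := ext_der (K' := K') (mkDer (fun z => E' z) (by intro x y; simp)
      (by intro x y; simp))
    obtain ⟨κ, hκ⟩ := H.kappa (E := mkDer (fun z => E' z) (by intro x y; simp)
      (by intro x y; simp)) (D := D') hE' hD'
    exact ⟨D', κ, hD', hκ⟩
  have zero : ∀ (E' : Derivation Ω K K) (D' : Derivation ℤ K' K'), (∀ a ∈ L, E' a = 0) →
      (∀ a, D' (algebraMap K K' a) = algebraMap K K' (E' a)) → D' X = 0 → E' = 0 := by
    intro E' D' hE' hD' h0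
    have h1 := H.zero (E := mkDer (fun z => E' z) (by intro x y; simp)
      (by intro x y; simp)) (D := D') hE' hD' h0
    ext a
    apply (algebraMap K K').injective
    rw [← hD', h1]
    simp
  obtain ⟨D₀, κ, hD₀, hκ⟩ := key E₀ hEL
  have hκ0 : κ ≠ 0 := by
    intro h0
    rw [h0, map_zero, zero_mul] at hκ
    exact hE0 (zero E₀ D₀ hEL hD₀ hκ)
  have hE₁ : ∀ a ∈ L, (κ⁻¹ • E₀) a = 0 := fun a ha => by
    rw [Derivation.smul_apply, hEL a ha, smul_zero]
  have hD₁ : ∀ a, (algebraMap K K' κ⁻¹ • D₀) (algebraMap K K' a) =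
      algebraMap K K' ((κ⁻¹ • E₀) a) := fun a => by
    rw [Derivation.smul_apply, Derivation.smul_apply, hD₀, smul_eq_mul, smul_eq_mul, map_mul]
  have hX₁ : (algebraMap K K' κ⁻¹ • D₀) X = Y := by
    rw [Derivation.smul_apply, hκ, smul_eq_mul, ← mul_assoc, ← map_mul, inv_mul_cancel₀ hκ0,
      map_one, one_mul]
  refine ⟨κ⁻¹ • E₀, algebraMap K K' κ⁻¹ • D₀, hE₁, hD₁, hX₁, fun E' hE' => ?_⟩
  obtain ⟨D', κ', hD', hκ'⟩ := key E' hE'
  refine ⟨κ', sub_eq_zero.1 (zero (E' - κ' • (κ⁻¹ • E₀)) (D' - algebraMap K K' κ' •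
    (algebraMap K K' κ⁻¹ • D₀)) ?_ ?_ ?_)⟩
  · intro a ha
    rw [Derivation.sub_apply, Derivation.smul_apply, hE' a ha, hE₁ a ha, smul_zero, sub_zero]
  · intro a
    have e : (κ' • (κ⁻¹ • E₀)) a = κ' * (κ⁻¹ • E₀) a := rfl
    rw [Derivation.sub_apply, Derivation.sub_apply, Derivation.smul_apply, hD', hD₁, e,
      smul_eq_mul, map_sub, map_mul]
  · rw [Derivation.sub_apply, Derivation.smul_apply, hX₁, hκ', smul_eq_mul, sub_self]

end der

end Pool.Agent.Y742.GG
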