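import Pool.Agent.Y742.GG.Td
import Pool.Agent.Y742.GG.Ser
import Pool.Agent.Y742.GG.Inst

/-!
# Torsors under elliptic curves: the translation as a homomorphism (helper742)
-/

set_option autoImplicit false
set_option linter.unusedSectionVars false

open WeierstrassCurve Pool.Agent.Y720.MZ

namespace Pool.Agent.Y742.GG

variable {Ω K : Type*} [Field Ω] [Field K] [Algebra Ω K] {L : IntermediateField Ω K}
  {K' : Type*} [Field K'] [Algebra K K'] [DecidableEq K'] {a b c : L} {X Y : K'}

/-- a cubic polynomial is not a constant times a square -/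
lemma cubic_ne {F : Type*} [Field F] (a b c : F) :
    ¬ ∃ (e : F) (R : Polynomial F), (.X ^ 3 + .C a * .X ^ 2 + .C b * .X + .C c : Polynomial F) =
      .C e * R ^ 2 := by
  rintro ⟨e, R, h⟩
  have h3 : (.X ^ 3 + .C a * .X ^ 2 + .C b * .X + .C c : Polynomial F).natDegree = 3 := by
    compute_degree!
  have he : e ≠ 0 := by
    rintro rfl
    rw [h] at h3
    simp at h3
  rw [h, Polynomial.natDegree_C_mul he, Polynomial.natDegree_pow] at h3
  omega

/-- **The homomorphism.** -/
theorem TD.exists_theta (H : TD L a b c X Y) {Φx Φy : PowerSeries K'}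
    (hx0 : PowerSeries.constantCoeff Φx = X) (hy0 : PowerSeries.constantCoeff Φy = Y)
    (heq : Φy ^ 2 = Φx ^ 3 + PowerSeries.C (algebraMap L K' a) * Φx ^ 2 +
      PowerSeries.C (algebraMap L K' b) * Φx + PowerSeries.C (algebraMap L K' c)) :
    ∃ θ : K' →+* PowerSeries K', (∀ z, IsAlgebraic L z → θ z = PowerSeries.C z) ∧ θ X = Φx ∧
      θ Y = Φy ∧ ∀ z, PowerSeries.constantCoeff (θ z) = z := by
  classical
  let L' := algebraicClosure L K'
  let φ : Polynomial (Polynomial L') →+* K' :=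
    Polynomial.eval₂RingHom ((Polynomial.aeval X : Polynomial L' →ₐ[L'] K') :
      Polynomial L' →+* K') Y
  let τ : Polynomial (Polynomial L') →+* PowerSeries K' :=
    Polynomial.eval₂RingHom (Polynomial.eval₂RingHom
      ((PowerSeries.C).comp (algebraMap L' K')) Φx) Φy
  have hcc : ∀ s, PowerSeries.constantCoeff (τ s) = φ s := by
    have : (PowerSeries.constantCoeff (R := K')).comp τ = φ := by
      ext z
      · simp [τ, φ]
      · simp [τ, φ, hx0]
      · simp [τ, φ, hy0]
    intro s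
    rw [← this]; rfl
  have hL' : Algebra.IsAlgebraic L L' := inferInstance
  have ht : Transcendental L' X := by
    intro h
    exact H.trans (h.restrictScalars L)
  let aL : L' := algebraMap L L' a
  let bL : L' := algebraMap L L' b
  let cL : L' := algebraMap L L' c
  let Q : Polynomial L' := .X ^ 3 + .C aL * .X ^ 2 + .C bL * .X + .C cL
  have hw : Y ^ 2 = Polynomial.aeval X Q := by
    rw [H.eqn]
    simp [Q]
    rfl
  have hQ : ¬ ∃ (e : L') (R : Polynomial L'), Q = .C e * R ^ 2 := cubic_ne _ _ _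
  have hk : ∀ s, φ s = 0 → τ s = 0 := by
    intro s hs
    have hdvd := dvd_of_zero ht hw hQ (P := s) hs
    obtain ⟨P, rfl⟩ := hdvd
    rw [map_mul]
    have : τ (.X ^ 2 - .C Q) = 0 := by
      simp only [τ, Q, map_sub, map_pow, Polynomial.coe_eval₂RingHom, Polynomial.eval₂_X,
        Polynomial.eval₂_C, map_add, map_mul, heq, RingHom.comp_apply]
      exact sub_self _
    rw [this, zero_mul]
  have hmem : ∀ f : K', f ∈ Oc φ τ := by
    intro f
    obtain ⟨p, p', q, hq, e⟩ := rep ht hw hQ H.gen f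
    have hq0 : φ (.C q) ≠ 0 := by
      simp only [φ, Polynomial.coe_eval₂RingHom, Polynomial.eval₂_C]
      exact fun h => hq (transcendental_iff.1 ht _ h)
    have hu : IsUnit (τ (.C q)) := by
      rw [PowerSeries.isUnit_iff_constantCoeff, hcc]
      exact isUnit_iff_ne_zero.2 hq0
    obtain ⟨v, hv⟩ := hu
    refine ⟨τ (.C p + .C p' * .X) * ↑v⁻¹, .C p + .C p' * .X, .C q, ⟨v, hv⟩, hq0, ?_, ?_⟩
    · simp only [φ, Polynomial.coe_eval₂RingHom, Polynomial.eval₂_C, Polynomial.eval₂_add,
        Polynomial.eval₂_mul, Polynomial.eval₂_X]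
      exact e
    · rw [← hv, mul_assoc, Units.inv_mul, mul_one]
  let θ : K' →+* PowerSeries K' := (ev hk).comp ((RingHom.id K').codRestrict (Oc φ τ) hmem)
  have hθ : ∀ f, Rg φ τ f (θ f) := fun f => ev_spec hk ⟨f, hmem f⟩
  refine ⟨θ, ?_, ?_, ?_, ?_⟩
  · intro z hz
    let z' : L' := ⟨z, mem_algebraicClosure_iff.2 hz⟩
    have h1 := Rg.of (φ := φ) (τ := τ) (.C (.C z'))
    have h2 : φ (.C (.C z')) = z := by simp [φ]; rfl
    have h3 : τ (.C (.C z')) = PowerSeries.C z := by simp [τ]; rfl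
    rw [h2, h3] at h1
    exact (hθ z).unique hk h1
  · have h1 := Rg.of (φ := φ) (τ := τ) (.C .X)
    have h2 : φ (.C .X) = X := by simp [φ]
    have h3 : τ (.C .X) = Φx := by simp [τ]
    rw [h2, h3] at h1
    exact (hθ X).unique hk h1
  · have h1 := Rg.of (φ := φ) (τ := τ) .X
    have h2 : φ .X = Y := by simp [φ]
    have h3 : τ .X = Φy := by simp [τ]
    rw [h2, h3] at h1
    exact (hθ Y).unique hk h1
  · intro z
    obtain ⟨P, Q, hQ, hq, e1, e2⟩ := hθ z
    have h1 := congrArg PowerSeries.constantCoeff e2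
    rw [map_mul, hcc, hcc, ← e1] at h1
    exact mul_right_cancel₀ hq h1

/-- **The tangent vector of the translation.** -/
theorem TD.theta_der [CharZero K] (H : TD L a b c X Y) {θ : K' →+* PowerSeries K'}
    (hθ0 : ∀ z, IsAlgebraic L z → θ z = PowerSeries.C z)
    (hθc : ∀ z, PowerSeries.constantCoeff (θ z) = z)
    (hθX : PowerSeries.coeff 1 (θ X) = -Y) {D : Derivation ℤ K' K'}
    (hDk : ∀ z, IsAlgebraic L z → D z = 0) (hDX : D X = Y) (z : K') :
    PowerSeries.coeff 1 (θ z) = -D z := by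
  have hmul : ∀ f g : PowerSeries K', PowerSeries.coeff 1 (f * g) =
      PowerSeries.constantCoeff f * PowerSeries.coeff 1 g +
        PowerSeries.constantCoeff g * PowerSeries.coeff 1 f := by
    intro f g
    rw [PowerSeries.coeff_mul, Finset.Nat.antidiagonal_succ]
    simp [mul_comm]
  let D₂ : Derivation ℤ K' K' := mkDer (fun z => PowerSeries.coeff 1 (θ z))
    (by intro x y; rw [map_add, map_add]) (by
      intro x y
      rw [map_mul, hmul, hθc, hθc])
  have h1 : D₂ + D = 0 := by
    apply H.zero0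
    · intro z hz
      rw [Derivation.add_apply, hDk z hz, add_zero]
      show PowerSeries.coeff 1 (θ z) = 0
      rw [hθ0 z hz, PowerSeries.coeff_C, if_neg one_ne_zero]
    · rw [Derivation.add_apply, hDX]
      show PowerSeries.coeff 1 (θ X) + Y = 0
      rw [hθX, neg_add_cancel]
  have h2 : (D₂ + D) z = 0 := by rw [h1]; rfl
  rw [Derivation.add_apply] at h2
  exact eq_neg_of_add_eq_zero_left h2

open PowerSeries in
/-- **The translation commutes with the Galois group.** -/
theorem TD.theta_inv [CharZero K] (H : TD L a b c X Y) {θ : K' →+* PowerSeries K'}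
    (hθ0 : ∀ z, IsAlgebraic L z → θ z = C z)
    {M : Type*} [Field M] [DecidableEq M] {ι : PowerSeries K' →+* M}
    (hι : Function.Injective ι)
    {S : Pt (ι (C (algebraMap L K' a))) (ι (C (algebraMap L K' b))) (ι (C (algebraMap L K' c)))}
    (hθP : ∀ h h', (.some (ι (θ X)) (ι (θ Y)) h : Pt (ι (C (algebraMap L K' a)))
      (ι (C (algebraMap L K' b))) (ι (C (algebraMap L K' c)))) = .some (ι (C X)) (ι (C Y)) h' + S)
    (σ : K' ≃ₐ[K] K') {s : M →+* M} (hs : ∀ f, s (ι f) = ι (PowerSeries.map (σ : K' →+* K') f))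
    (hsS : ∀ ha hb hc, pmap s (a := ι (C (algebraMap L K' a))) (b := ι (C (algebraMap L K' b)))
      (c := ι (C (algebraMap L K' c))) (a' := ι (C (algebraMap L K' a)))
      (b' := ι (C (algebraMap L K' b))) (c' := ι (C (algebraMap L K' c))) ha hb hc S = S) (z : K') :
    PowerSeries.map (σ : K' →+* K') (θ (σ.symm z)) = θ z := by
  have hσL : ∀ z : L, σ (algebraMap L K' z) = algebraMap L K' z := fun z => σ.commutes (z : K)
  -- the point
  obtain ⟨T, hns, hT, hPT⟩ := H.tors σ.symm
  have hθL : ∀ z : L, (ι.comp θ) (algebraMap L K' z) = ι (C (algebraMap L K' z)) := fun z => by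
    rw [RingHom.comp_apply, hθ0 _ (isAlgebraic_algebraMap z)]
  have hjL : ∀ z : L, (ι.comp (C (R := K'))) (algebraMap L K' z) = ι (C (algebraMap L K' z)) :=
    fun z => rfl
  have hsL : ∀ z : L, s (ι (C (algebraMap L K' z))) = ι (C (algebraMap L K' z)) := fun z => by
    rw [hs, PowerSeries.map_C]
    congr 2
    exact hσL z
  set p1 := pmap (ι.comp θ) (hθL a) (hθL b) (hθL c) with hp1
  set p2 := pmap (ι.comp (C (R := K'))) (hjL a) (hjL b) (hjL c) with hp2
  set p3 := pmap s (hsL a) (hsL b) (hsL c) with hp3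
  have e1 : p1 (.some X Y H.ns) = p2 (.some X Y H.ns) + S := by
    obtain ⟨h1, h2⟩ := pmap_some (f := ι.comp θ) (ha := hθL a) (hb := hθL b) (hc := hθL c) H.ns
    obtain ⟨h3, h4⟩ := pmap_some (f := ι.comp (C (R := K'))) (ha := hjL a) (hb := hjL b)
      (hc := hjL c) H.ns
    rw [hp1, hp2, h2, h4]
    exact hθP h1 h3
  have e2 : p1 T = p2 T := by
    rcases T with _ | ⟨u, v, e⟩
    · exact (map_zero p1).trans (map_zero p2).symm
    · obtain ⟨hu, hv⟩ := hT _ _ _ rfl
      obtain ⟨h1, h2⟩ := pmap_some (f := ι.comp θ) (ha := hθL a) (hb := hθL b) (hc := hθL c) e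
      obtain ⟨h3, h4⟩ := pmap_some (f := ι.comp (C (R := K'))) (ha := hjL a) (hb := hjL b)
        (hc := hjL c) e
      rw [hp1, hp2, h2, h4, Affine.Point.some.injEq, RingHom.comp_apply, RingHom.comp_apply,
        RingHom.comp_apply, RingHom.comp_apply, hθ0 u hu, hθ0 v hv]
      exact ⟨rfl, rfl⟩
  have e3 : p1 (.some _ _ hns) = p2 (.some _ _ hns) + S := by
    rw [hPT, map_add, map_add, e1, e2, add_right_comm]
  have e4 : p3 (p1 (.some _ _ hns)) = p1 (.some X Y H.ns) := by
    rw [e3, map_add, hsS, e1]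
    congr 1
    obtain ⟨h3, h4⟩ := pmap_some (f := ι.comp (C (R := K'))) (ha := hjL a) (hb := hjL b)
        (hc := hjL c) hns
    obtain ⟨h5, h6⟩ := pmap_some (f := s) (ha := hsL a) (hb := hsL b) (hc := hsL c) h3
    obtain ⟨h7, h8⟩ := pmap_some (f := ι.comp (C (R := K'))) (ha := hjL a) (hb := hjL b)
        (hc := hjL c) H.ns
    rw [hp2, h4, h8, hp3, h6, Affine.Point.some.injEq]
    constructor
    · rw [RingHom.comp_apply, hs, PowerSeries.map_C]
      show ι (C (σ (σ.symm X))) = _
      rw [AlgEquiv.apply_symm_apply]; rfl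
    · rw [RingHom.comp_apply, hs, PowerSeries.map_C]
      show ι (C (σ (σ.symm Y))) = _
      rw [AlgEquiv.apply_symm_apply]; rfl
  have e5 : PowerSeries.map (σ : K' →+* K') (θ (σ.symm X)) = θ X ∧
      PowerSeries.map (σ : K' →+* K') (θ (σ.symm Y)) = θ Y := by
    obtain ⟨h1, h2⟩ := pmap_some (f := ι.comp θ) (ha := hθL a) (hb := hθL b) (hc := hθL c) hns
    obtain ⟨h3, h4⟩ := pmap_some (f := ι.comp θ) (ha := hθL a) (hb := hθL b) (hc := hθL c) H.ns
    obtain ⟨h5, h6⟩ := pmap_some (f := s) (ha := hsL a) (hb := hsL b) (hc := hsL c) h1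
    rw [hp1, h2, h4, hp3, h6, Affine.Point.some.injEq, RingHom.comp_apply, RingHom.comp_apply,
      RingHom.comp_apply, RingHom.comp_apply, hs, hs] at e4
    exact ⟨hι e4.1, hι e4.2⟩
  induction z using H.ind with
  | hX => exact e5.1
  | hY => exact e5.2
  | halg z hz =>
    have hz' : IsAlgebraic L (σ.symm z) := by
      have := hz.algHom ((σ.symm : K' →ₐ[K] K').restrictScalars L)
      exact this
    rw [hθ0 z hz, hθ0 _ hz', PowerSeries.map_C]
    show C (σ (σ.symm z)) = _
    rw [AlgEquiv.apply_symm_apply]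
  | hadd x y hx hy => rw [map_add, map_add, map_add, hx, hy, map_add]
  | hmul x y hx hy => rw [map_mul, map_mul, map_mul, hx, hy, map_mul]
  | hinv x hx =>
    by_cases h0 : x = 0
    · subst h0; simp
    · have h1 : PowerSeries.map (σ : K' →+* K') (θ (σ.symm x⁻¹)) * θ x = 1 := by
        rw [← hx, ← map_mul, ← map_mul, ← map_mul, inv_mul_cancel₀ h0, map_one, map_one, map_one]
      have h2 : θ x⁻¹ * θ x = 1 := by rw [← map_mul, inv_mul_cancel₀ h0, map_one]
      have h3 : θ x ≠ 0 := (map_ne_zero θ).2 h0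
      exact mul_right_cancel₀ h3 (h1.trans h2.symm)

end Pool.Agent.Y742.GG
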